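import Pool.Agent.P.MP_44bffd_co.Exact

/-! Thinning, the one-sided link and its iteration. -/

namespace Pool.Agent.P.MP_44bffd_co

open Finset
open scoped Classical

theorem thin {g : ℕ} {a₁ a₂ b₁ b₂ ρ l Γ μ : ℝ} (h : Bi a₁ a₂ b₁ b₂ g) (ha : 0 < a₁) (hb : 0 < b₁)
    (h0 : 0 ≤ ρ) (h1 : ρ ≤ 1) (hl0 : 0 < l) (hl : l ≤ 2 * μ) (hμ : ρ * a₂ ≤ μ)
    (hΓ : (g : ℝ) + 1 ≤ Γ) (hlΓ : 4 * μ * Γ ≤ l ^ 2) :
    Bi (ρ * a₁ - l) (ρ * a₂ + l) b₁ b₂ g := by
  obtain ⟨V, _, r, col, hR, hs, hboth, hg, hdeg⟩ := h.fin ha hb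
  have hN : ∀ v, col v = true → ρ * a₁ ≤ ∑ _z ∈ univ.filter (r v), ρ ∧
      ∑ _z ∈ univ.filter (r v), ρ ≤ ρ * a₂ := by
    intro v hv
    have := (hdeg v).1 hv
    rw [sum_const, nsmul_eq_mul, mul_comm _ ρ]
    exact ⟨mul_le_mul_of_nonneg_left this.1 h0, mul_le_mul_of_nonneg_left this.2 h0⟩
  obtain ⟨K, -, K2⟩ := coin (fun _ : V => ρ) (fun _ => h0) (fun _ => h1)
    (univ.filter (fun v => col v = true)) (fun v => univ.filter (r v)) μ l hl0 hl
    (fun v hv => (hN v (mem_filter.1 hv).2).2.trans hμ)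
    (tail_small ((card_le_univ _).trans hg) (by linarith) hΓ hlΓ)
  let G : UG V := ⟨univ, r, col, hR, fun a _ b _ h e => by simpa [e] using (hs a b h).2,
    by obtain ⟨v, -⟩ := hboth true; exact ⟨v, mem_univ v⟩⟩
  obtain ⟨v₀, hv₀⟩ := hboth true
  refine ⟨V, G.sub (fun v => col v = true ∨ K v) ⟨v₀, mem_univ _, Or.inl hv₀⟩,
    (UG.card_sub _ _ _).trans hg, fun v _ => ⟨fun e => ?_, fun e => ?_⟩⟩
  · have e' : col v = true := e
    have a1 := abs_le.1 (K2 v (mem_filter.2 ⟨mem_univ _, e⟩))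
    have a2 := hN v e
    rw [UG.sub_deg, G.cnt_congr v (q := K) fun b _ hb => by simp [(hs v b hb).2, e'],
      ← cnt_eq_filter]
    constructor
    · exact le_trans (by linarith [a1.1, a2.1]) (le_refl ((filter K (filter (r v) univ)).card : ℝ))
    · exact le_trans (le_refl ((filter K (filter (r v) univ)).card : ℝ)) (by linarith [a1.2, a2.2])
  · have e' : col v = false := e
    rw [UG.sub_deg, G.cnt_congr v (q := fun _ => True) fun b _ hb => by simp [(hs v b hb).2, e']]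
    have := deg_eq G v
    unfold UG.deg at this
    rw [this]
    exact (hdeg v).2 e

/-- The one-sided link. -/
theorem alink {V V' : Type} (G : UG V) (H : UG V') (A : V → V' → Prop)
    (hA : ∀ x ∈ G.s, ∀ x' ∈ G.s, G.adj x x' → ∀ w, A x w → ¬ A x' w)
    (hne : ∃ w ∈ H.s, H.col w = false) :
    ∃ (U : Type) (S : UG U), S.s.card ≤ G.s.card * H.s.card ∧ ∀ v ∈ S.s,
      (∃ x ∈ G.s, ∃ w ∈ H.s, H.col w = false ∧ S.deg v = G.deg x + H.cnt w (A x)) ∨
        ∃ y ∈ H.s, H.col y = true ∧ S.deg v = H.deg y := by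
  obtain ⟨x₀, hx₀⟩ := G.ne
  obtain ⟨w₀, hw₀, hc₀⟩ := hne
  refine ⟨_, (G.prod H).sub (fun q => H.col q.2 = false ∨ A q.1 q.2)
    ⟨(x₀, w₀), by simp [UG.mem_prod, hx₀, hw₀], Or.inl hc₀⟩,
    (UG.card_sub _ _ _).trans (UG.card_prod _ _).le, ?_⟩
  rintro ⟨x, w⟩ hv
  rw [UG.mem_sub, UG.mem_prod] at hv
  obtain ⟨⟨hx, hw⟩, hp⟩ := hv
  simp only at hx hw hp
  rw [UG.sub_deg, UG.prod_cnt G H x hx w hw]
  have hc : ∀ w' ∈ H.s, H.adj w w' → H.col w' = !H.col w := fun w' hw' h => by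
    have := H.bip w hw w' hw' h
    revert this
    cases H.col w <;> cases H.col w' <;> simp
  cases e : H.col w
  · refine Or.inl ⟨x, hx, w, hw, e, ?_⟩
    rw [G.cnt_congr x (q := fun _ => True) fun _ _ _ => by simp [e],
      H.cnt_congr w (q := A x) fun w' hw' h => by simp [hc w' hw' h, e]]
    rfl
  · refine Or.inr ⟨w, hw, e, ?_⟩
    have ha : A x w := by simpa [e] using hp
    rw [G.cnt_zero x fun x' hx' h => by simpa [e] using hA x hx x' hx' h w ha,
      H.cnt_congr w (q := fun _ => True) fun w' hw' h => by simp [hc w' hw' h, e], zero_add]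
    rfl

theorem improve' {D g g' s κ : ℕ} {σ σ' Γ : ℝ} (h : Nr D σ g) (hs : σ < s + 1) (hσ : σ ≤ s)
    (hsD : s ≤ D) (h' : Bi D D (2 * D - σ') (2 * D) g') (hσ' : 0 ≤ σ') (hσD : σ' < 2 * D)
    (hκ : s + 1 ≤ 2 ^ κ) (hΓ : (g' : ℝ) + κ + 2 ≤ Γ) :
    Nr D (σ' * s / (2 * D) + 4 * Real.sqrt (s * Γ) + 2) (g + g') := by
  have hΓ0 : 0 ≤ Γ := le_trans (by positivity) hΓ
  have hDr : (0 : ℝ) < D := by linarith
  set l : ℕ := ⌈2 * Real.sqrt (s * Γ)⌉₊ with hl
  have hl1 : 2 * Real.sqrt (s * Γ) ≤ l := Nat.le_ceil _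
  have hl2 : (l : ℝ) < 2 * Real.sqrt (s * Γ) + 1 := Nat.ceil_lt_add_one (by positivity)
  have hq : 0 ≤ σ' * s / (2 * D) := by positivity
  by_cases hbig : s ≤ 2 * l
  · refine h.mono ?_ (by omega)
    have : (s : ℝ) ≤ 2 * l := by exact_mod_cast hbig
    linarith
  have hs0 : 0 < s := by omega
  have hsr : (0 : ℝ) < s := by exact_mod_cast hs0
  have hΓ1 : 0 < Γ := lt_of_lt_of_le (by positivity) hΓ
  have hl0 : (0 : ℝ) < l := lt_of_lt_of_le (by positivity) hl1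
  obtain ⟨V, G, hc, hd⟩ := h
  obtain ⟨V', W, hc', hd'⟩ := h'
  have : Nonempty (Bool × Fin D) := ⟨(true, ⟨0, by omega⟩)⟩
  have hcard : (Fintype.card (Bool × Fin D) : ℝ) = 2 * D := by simp
  obtain ⟨φ, hφ⟩ := exists_label (Λ := Bool × Fin D) W.s
    (W.s.filter (fun w => W.col w = false) ×ˢ
      ((Finset.univ : Finset Bool) ×ˢ Finset.range (s + 1)))
    (fun i => W.s.filter (W.adj i.1)) (fun i _ => Finset.filter_subset _ _)
    (fun i => lab D i.2.1 i.2.2) s l hl0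
    (by have : l ≤ 2 * s := by omega
        exact_mod_cast this)
    (by
      rintro ⟨w, c, δ⟩ hi
      simp only [Finset.mem_product, Finset.mem_univ, Finset.mem_range, true_and,
        mem_filter] at hi
      simp only
      rw [card_lab c (by omega), hcard, ← deg_eq]
      have a1 := ((hd' w hi.1.1).2 hi.1.2).2
      have a2 : (δ : ℝ) ≤ s := by exact_mod_cast (by omega : δ ≤ s)
      calc (W.deg w : ℝ) * (δ / (2 * D)) ≤ (2 * D) * (s / (2 * D)) := by gcongr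
        _ = s := by field_simp)
    (by
      apply tail_small (g := g' + κ + 1) (Γ := Γ) _ hsr
      · push_cast; linarith
      · have : (2 * Real.sqrt (s * Γ)) ^ 2 ≤ (l : ℝ) ^ 2 := by gcongr
        rw [mul_pow, Real.sq_sqrt (by positivity)] at this
        linarith
      · simp only [Finset.card_product, Finset.card_univ, Fintype.card_bool, Finset.card_range]
        have := (card_filter_le W.s (fun w => W.col w = false)).trans hc'
        calc _ ≤ 2 ^ g' * (2 * 2 ^ κ) := by gcongr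
          _ = _ := by ring)
  obtain ⟨U, S, h1, h2⟩ := alink G W (fun x w => φ w ∈ lab D (G.col x) (D - G.deg x - l)) (by
    intro x hx x' hx' hadj w h1 h2
    exact G.bip x hx x' hx' hadj
      ((Finset.mem_filter.1 h1).2.1.symm.trans (Finset.mem_filter.1 h2).2.1))
    (W.both (fun v hv => by
      have : (0 : ℝ) < W.deg v := by
        cases e : W.col v
        · linarith [((hd' v hv).2 e).1]
        · linarith [((hd' v hv).1 e).1]
      exact_mod_cast this) false)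
  refine ⟨U, S, h1.trans ?_, fun v hv => ?_⟩
  · rw [pow_add]
    gcongr
  rcases h2 v hv with ⟨x, hx, w, hw, hw', e⟩ | ⟨y, hy, hy', e⟩
  · have b1 := (hd x hx).1
    have b2 := def_le (hd x hx).1 (hd x hx).2 hs
    set δ : ℕ := D - G.deg x - l with hδ
    have b3 := hφ (w, G.col x, δ) (by
      simp only [Finset.mem_product, Finset.mem_univ, Finset.mem_range, true_and, mem_filter]
      exact ⟨⟨hw, hw'⟩, by omega⟩)
    simp only at b3
    rw [card_lab _ (by omega), hcard, ← deg_eq, cnt_eq_filter, abs_le] at b3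
    obtain ⟨a3, a1⟩ := (hd' w hw).2 hw'
    have a2 : (δ : ℝ) ≤ s := by exact_mod_cast (by omega : δ ≤ s)
    have a4 : (W.deg w : ℝ) * (δ / (2 * D)) ≤ δ := by
      calc (W.deg w : ℝ) * (δ / (2 * D)) ≤ (2 * D) * (δ / (2 * D)) := by gcongr
        _ = δ := by field_simp
    have a5 : δ - σ' * s / (2 * D) ≤ (W.deg w : ℝ) * (δ / (2 * D)) := by
      have c1 : (2 * D - σ') * (δ / (2 * D)) ≤ (W.deg w : ℝ) * (δ / (2 * D)) := by gcongr
      have c2 : (2 * D - σ') * (δ / (2 * D)) = δ - σ' * δ / (2 * D) := by field_simp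
      have c3 : σ' * δ / (2 * D) ≤ σ' * s / (2 * D) := by gcongr
      linarith
    rw [e]
    constructor
    · by_cases hδ0 : δ = 0
      · rw [W.cnt_zero w]
        · omega
        · intro b _ _ hb
          have := (Finset.mem_filter.1 hb).2.2
          omega
      · have : (W.cnt w (fun w => φ w ∈ lab D (G.col x) δ) : ℝ) ≤ δ + l := by linarith [b3.2]
        have : W.cnt w (fun w => φ w ∈ lab D (G.col x) δ) ≤ δ + l := by exact_mod_cast this
        omega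
    · have c4 : (D : ℝ) ≤ G.deg x + δ + l := by exact_mod_cast (by omega : D ≤ G.deg x + δ + l)
      push_cast
      linarith [b3.1]
  · obtain ⟨a1, a2⟩ := (hd' y hy).1 hy'
    rw [e]
    refine ⟨by exact_mod_cast a2, ?_⟩
    linarith [Real.sqrt_nonneg (s * Γ)]

lemma chain_step {Γ σ : ℝ} {g g' d κ : ℕ}
    (h : Bi d d (2 * d - 16 * Real.sqrt (d * Γ)) (2 * d) g') (hd : 16 * Real.sqrt (d * Γ) < 2 * d)
    (hκ : d + 1 ≤ 2 ^ κ) (hΓ : (g' : ℝ) + κ + 2 ≤ Γ) (hσ : 1 ≤ σ) (h0 : Nr d σ g) :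
    Nr d ((12 * Real.sqrt Γ + 2) * Real.sqrt σ) (g + g') := by
  have hΓ0 : 0 ≤ Γ := le_trans (by positivity) hΓ
  have hD1 : 1 ≤ Real.sqrt σ := Real.one_le_sqrt.2 hσ
  have hdr : (0 : ℝ) < d := by linarith [Real.sqrt_nonneg (d * Γ)]
  have h1 := h0.floor
  set s := min d ⌊σ⌋₊ with hs
  have s1 : s ≤ d := min_le_left _ _
  have s1' : (s : ℝ) ≤ d := by exact_mod_cast s1
  have s2 : (s : ℝ) ≤ σ := by
    have : s ≤ ⌊σ⌋₊ := min_le_right _ _
    exact le_trans (by exact_mod_cast this) (Nat.floor_le (by positivity))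
  have h2 := improve' (κ := κ) (Γ := Γ) h1 (by linarith) le_rfl s1 h (by positivity) hd
    (by omega) hΓ
  refine h2.mono ?_ le_rfl
  have a2 : Real.sqrt (s * Γ) ≤ Real.sqrt Γ * Real.sqrt σ := by
    rw [← Real.sqrt_mul hΓ0]
    apply Real.sqrt_le_sqrt; nlinarith
  have a1 : Real.sqrt (d * Γ) * s ≤ Real.sqrt (s * Γ) * d := by
    apply le_of_pow_le_pow_left₀ two_ne_zero (by positivity)
    rw [mul_pow, mul_pow, Real.sq_sqrt (by positivity), Real.sq_sqrt (by positivity)]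
    have : 0 ≤ (s : ℝ) * d * Γ * (d - s) := mul_nonneg (by positivity) (by linarith)
    nlinarith
  have a3 : 16 * Real.sqrt (d * Γ) * s / (2 * d) ≤ 8 * Real.sqrt (s * Γ) := by
    rw [div_le_iff₀ (by positivity)]
    linarith
  nlinarith

lemma chain {Γ : ℝ} {g' d κ : ℕ}
    (h : Bi d d (2 * d - 16 * Real.sqrt (d * Γ)) (2 * d) g') (hd : 16 * Real.sqrt (d * Γ) < 2 * d)
    (hκ : d + 1 ≤ 2 ^ κ) (hΓ : (g' : ℝ) + κ + 2 ≤ Γ) (m : ℕ) : ∀ g : ℕ,
    Nr d ((12 * Real.sqrt Γ + 2) ^ 2 * 2 ^ (2 ^ m)) g →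
    Nr d ((12 * Real.sqrt Γ + 2) ^ 2 * 2) (g + m * g') := by
  have hK : 1 ≤ 12 * Real.sqrt Γ + 2 := by linarith [Real.sqrt_nonneg Γ]
  set K := 12 * Real.sqrt Γ + 2 with hKdef
  induction m with
  | zero => intro g h0; exact h0.mono (by simp) (by omega)
  | succ m ih =>
    intro g h0
    have h1 := chain_step h hd hκ hΓ (one_le_mul_of_one_le_of_one_le (one_le_pow₀ hK)
      (one_le_pow₀ (by norm_num))) h0
    have e : Real.sqrt (K ^ 2 * 2 ^ (2 ^ (m + 1))) = K * 2 ^ (2 ^ m) := by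
      rw [Real.sqrt_eq_iff_eq_sq (by positivity) (by positivity), pow_succ 2 m, pow_mul]; ring
    rw [e, ← hKdef] at h1
    exact (ih (g + g') (h1.mono (le_of_eq (by ring)) le_rfl)).mono le_rfl (le_of_eq (by ring))

/-- A graph that is exactly regular on one side and nearly regular on the other side. -/
theorem half_exact {D D₁ E g : ℕ} {Γ : ℝ} (hD₁ : D₁ = 4 * D * (D + 2) ^ 6)
    (hE : E = D * (D₁ + 2) ^ 6) (h : Nr E (E / 8) g) (hΓ : ((36 * g + 5 : ℕ) : ℝ) ≤ Γ)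
    (hD : 10 ^ 4 * Γ ≤ D) : Bi D D (2 * D - 16 * Real.sqrt (D * Γ)) (2 * D) (36 * g) := by
  have g0 : (0 : ℝ) ≤ g := Nat.cast_nonneg g
  push_cast at hΓ
  have d0 : (2 : ℝ) ≤ D := by linarith
  have e1 : (D₁ : ℝ) = 4 * D * (D + 2) ^ 6 := by rw [hD₁]; push_cast; ring
  have e2 : (E : ℝ) = D * (D₁ + 2) ^ 6 := by rw [hE]; push_cast; ring
  have p1 : (1 : ℝ) ≤ (D + 2) ^ 6 := one_le_pow₀ (by linarith)
  have d1 : (D : ℝ) ≤ D₁ := by nlinarith
  have p2 : (D₁ : ℝ) + 2 ≤ (D₁ + 2) ^ 6 := le_self_pow₀ (by linarith) (by norm_num)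
  have d2 : (D₁ : ℝ) ≤ E := by nlinarith
  have E0 : (0 : ℝ) < E := by linarith
  have D0 : (0 : ℝ) < D₁ := by linarith
  have b0 : Bi (7 / 8 * E) E (7 / 8 * E) E g := by
    obtain ⟨V, G, a, b⟩ := h
    refine ⟨V, G, a, fun v hv => ?_⟩
    have : 7 / 8 * (E : ℝ) ≤ G.deg v ∧ (G.deg v : ℝ) ≤ E :=
      ⟨by linarith [(b v hv).2], by exact_mod_cast (b v hv).1⟩
    exact ⟨fun _ => this, fun _ => this⟩
  have f1 : 9 / 20 * (D₁ : ℝ) / E * E = 9 / 20 * D₁ := by field_simp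
  have f2 : 9 / 20 * (D : ℝ) / E * E = 9 / 20 * D := by field_simp
  have b1 := thin (ρ := 9 / 20 * D₁ / E) (l := D₁ / 25) (μ := D₁ / 2) (Γ := Γ) b0 (by positivity)
    (by positivity) (by positivity) (by rw [div_le_one E0]; linarith) (by positivity)
    (by linarith) (by linarith) (by linarith) (by nlinarith)
  have b2 := exact_step (D := D₁) (c := 9 / 20 * D / E) (l := D / 50) (μ := D / 2) (Γ := Γ)
    (b1.mono (by linarith) (by linarith) le_rfl le_rfl) (by exact_mod_cast d0.trans d1)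
    (by positivity) (by positivity)
    (by rw [show 2 * (9 / 20 * (D : ℝ) / E) * (D₁ + 2) ^ 6 = 9 / 10 * (D * (D₁ + 2) ^ 6) / E by ring,
      ← e2, div_le_one E0]; linarith)
    (by positivity) (by linarith) (by linarith) (by push_cast; linarith) (by nlinarith)
  have q0 : 0 < Real.sqrt (D * Γ) := Real.sqrt_pos.2 (by nlinarith)
  have q1 : Real.sqrt (D * Γ) ^ 2 = D * Γ := Real.sq_sqrt (by nlinarith)
  have q2 : 4 * Real.sqrt (D * Γ) ≤ D := by
    apply le_of_pow_le_pow_left₀ two_ne_zero (by positivity)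
    rw [mul_pow, q1]
    nlinarith
  have f3 : (2 * D - 8 * Real.sqrt (D * Γ)) / D₁ * D₁ = 2 * D - 8 * Real.sqrt (D * Γ) := by
    field_simp
  have b3 := exact_step (D := D) (c := (2 * D - 8 * Real.sqrt (D * Γ)) / D₁)
    (l := 4 * Real.sqrt (D * Γ)) (μ := 2 * D) (Γ := Γ)
    (b2.swap.mono (by linarith) (by linarith) le_rfl le_rfl) (by exact_mod_cast d0) D0
    (div_nonneg (by linarith) D0.le)
    (by rw [show 2 * ((2 * D - 8 * Real.sqrt (D * Γ)) / D₁) * ((D : ℝ) + 2) ^ 6 =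
      2 * (2 * D - 8 * Real.sqrt (D * Γ)) * (D + 2) ^ 6 / D₁ by ring, div_le_one D0, e1]
        nlinarith)
    (by positivity) (by linarith) (by linarith) (by push_cast; linarith) (by nlinarith)
  rw [show 6 * (6 * g) = 36 * g by ring] at b3
  exact b3.mono le_rfl le_rfl (by linarith) (by linarith)

end Pool.Agent.P.MP_44bffd_co
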