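import Pool.Agent.P.MP_44bffd_co.Geom

/-! The lattice section with many unit distances. -/

namespace Pool.Agent.P.MP_44bffd_co

open Finset
open scoped Classical

lemma many_units (n : ℕ) : ∀ m : ℕ, ∃ (N : ℕ) (T : Finset ℂ), Odd N ∧
    N ≤ 2 ^ (n * (4 * (m + n) + 1)) ∧ T.card = 2 ^ n ∧
    ∀ z ∈ T, ‖z‖ = 1 ∧ ‖z - 1‖ ≤ (2 / 3) / 4 ^ m ∧ ∃ u v : ℤ, (N : ℂ) * z = u + v * Complex.I := by
  induction n with
  | zero =>
    intro m
    refine ⟨1, {1}, odd_one, by simp, by simp, fun z hz => ?_⟩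
    rw [Finset.mem_singleton] at hz
    subst hz
    exact ⟨by simp, by simp; positivity, 1, 0, by simp⟩
  | succ n ih =>
    intro m
    obtain ⟨N, T, hN, hNb, hT, hz⟩ := ih (m + 1)
    set x : ℕ := 4 ^ (m + 1) with hx
    have hx4 : (4 : ℝ) ≤ x := by
      have : 4 ^ 1 ≤ 4 ^ (m + 1) := Nat.pow_le_pow_right (by norm_num) (by omega)
      exact_mod_cast this
    have hxr : (x : ℝ) = 4 ^ (m + 1) := by rw [hx]; push_cast; ring
    have hx0 : (0 : ℝ) < x := by linarith
    have hden : ((x : ℂ) ^ 2 + 1) ≠ 0 := by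
      have : ((x : ℝ) ^ 2 + 1) ≠ 0 := by positivity
      exact_mod_cast this
    let ω : ℂ := ((x : ℂ) + Complex.I) ^ 2 / ((x : ℂ) ^ 2 + 1)
    have hn1 : ‖(x : ℂ) + Complex.I‖ ^ 2 = (x : ℝ) ^ 2 + 1 := by
      rw [← Complex.normSq_eq_norm_sq, Complex.normSq_apply]; simp; ring
    have hn2 : ‖(x : ℂ) ^ 2 + 1‖ = (x : ℝ) ^ 2 + 1 := by
      have : ((x : ℂ) ^ 2 + 1) = (((x : ℝ) ^ 2 + 1 : ℝ) : ℂ) := by push_cast; ring
      rw [this, Complex.norm_real, Real.norm_of_nonneg (by positivity)]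
    have hω : ‖ω‖ = 1 := by
      simp only [ω]
      rw [norm_div, norm_pow, hn1, hn2, div_self (by positivity)]
    have hω1 : ‖ω - 1‖ ^ 2 = 4 / ((x : ℝ) ^ 2 + 1) := by
      have : ω - 1 = 2 * Complex.I * ((x : ℂ) + Complex.I) / ((x : ℂ) ^ 2 + 1) := by
        simp only [ω]
        field_simp
        ring_nf
        simp only [Complex.I_sq]
        ring
      rw [this, norm_div, norm_mul, norm_mul, div_pow, mul_pow, hn1, hn2]
      simp only [Complex.norm_ofNat, Complex.norm_I]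
      field_simp
      norm_num
    have hωu : ‖ω - 1‖ ≤ 2 / x := by
      apply le_of_pow_le_pow_left₀ (two_ne_zero) (by positivity)
      rw [hω1, div_pow, div_le_div_iff₀ (by positivity) (by positivity)]
      nlinarith
    have hωl : (4 / 3) / x < ‖ω - 1‖ := by
      apply lt_of_pow_lt_pow_left₀ 2 (norm_nonneg _)
      rw [hω1, div_pow, div_lt_div_iff₀ (by positivity) (by positivity)]
      nlinarith
    have hω0 : ω ≠ 0 := by rintro h; rw [h] at hω; simp at hω
    refine ⟨N * (x ^ 2 + 1), T ∪ T.image (fun z => ω * z), ?_, ?_, ?_, ?_⟩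
    · refine hN.mul ?_
      refine Even.add_one ?_
      rw [hx, Nat.even_pow, Nat.even_pow]
      exact ⟨⟨by decide, by omega⟩, by omega⟩
    · have h1 : x ^ 2 + 1 ≤ 2 ^ (4 * (m + 1) + 1) := by
        have : x ^ 2 = 2 ^ (4 * (m + 1)) := by
          rw [hx, ← pow_mul, show (4 : ℕ) = 2 ^ 2 by norm_num, ← pow_mul]; congr 1; ring
        rw [this, pow_succ]
        have := Nat.one_le_two_pow (n := 4 * (m + 1))
        omega
      calc N * (x ^ 2 + 1) ≤ 2 ^ (n * (4 * (m + 1 + n) + 1)) * 2 ^ (4 * (m + 1) + 1) := by gcongr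
        _ = 2 ^ (n * (4 * (m + 1 + n) + 1) + (4 * (m + 1) + 1)) := by rw [← pow_add]
        _ ≤ _ := Nat.pow_le_pow_right (by norm_num) (by nlinarith)
    · rw [Finset.card_union_of_disjoint, Finset.card_image_of_injective _
        (mul_right_injective₀ hω0), hT, pow_succ]
      · ring
      · rw [Finset.disjoint_left]
        intro z h1 h2
        obtain ⟨z', h3, rfl⟩ := Finset.mem_image.1 h2
        obtain ⟨-, a1, -⟩ := hz _ h1
        obtain ⟨b0, b1, -⟩ := hz _ h3
        have e : ‖ω - 1‖ = ‖(ω * z' - 1) - (z' - 1)‖ := by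
          rw [show (ω * z' - 1) - (z' - 1) = (ω - 1) * z' by ring, norm_mul, b0, mul_one]
        have := norm_sub_le (ω * z' - 1) (z' - 1)
        rw [← hxr] at a1 b1
        have e2 : (4 / 3 : ℝ) / x = (2 / 3) / x + (2 / 3) / x := by ring
        linarith
    · intro z hz'
      have hm : (2 / 3 : ℝ) / 4 ^ m = (2 / 3) / x + 2 / x := by
        rw [hxr, pow_succ]; field_simp; norm_num
      rcases Finset.mem_union.1 hz' with h | h
      · obtain ⟨a0, a1, u, v, a2⟩ := hz _ h
        refine ⟨a0, ?_, u * (x ^ 2 + 1), v * (x ^ 2 + 1), ?_⟩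
        · rw [← hxr] at a1
          have : (0 : ℝ) ≤ 2 / x := by positivity
          linarith
        · push_cast
          linear_combination ((x : ℂ) ^ 2 + 1) * a2
      · obtain ⟨z', h3, rfl⟩ := Finset.mem_image.1 h
        obtain ⟨a0, a1, u, v, a2⟩ := hz _ h3
        refine ⟨by rw [norm_mul, hω, a0, mul_one], ?_, u * (x ^ 2 - 1) - 2 * x * v,
          v * (x ^ 2 - 1) + 2 * x * u, ?_⟩
        · rw [← hxr] at a1
          have e : ω * z' - 1 = ω * (z' - 1) + (ω - 1) := by ring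
          have := norm_add_le (ω * (z' - 1)) (ω - 1)
          rw [norm_mul, hω, one_mul, ← e] at this
          linarith
        · push_cast
          have e : ((x : ℂ) ^ 2 + 1) * ω = ((x : ℂ) + Complex.I) ^ 2 := by
            simp only [ω]; field_simp
          linear_combination ((N : ℂ) * z') * e + ((x : ℂ) + Complex.I) ^ 2 * a2 +
            (u + v * Complex.I + 2 * x * v) * Complex.I_sq

/-- Lattice points of the first quadrant on the circle of radius `N`. -/
noncomputable def quad (N : ℕ) : Finset (ℤ × ℤ) :=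
  (Finset.Icc (0 : ℤ) N ×ˢ Finset.Icc (0 : ℤ) N).filter (fun a => a.1 ^ 2 + a.2 ^ 2 = (N : ℤ) ^ 2)

lemma mem_quad {N : ℕ} {a : ℤ × ℤ} :
    a ∈ quad N ↔ 0 ≤ a.1 ∧ 0 ≤ a.2 ∧ a.1 ^ 2 + a.2 ^ 2 = (N : ℤ) ^ 2 := by
  simp only [quad, Finset.mem_filter, Finset.mem_product, Finset.mem_Icc]
  constructor
  · tauto
  · rintro ⟨h1, h2, h3⟩
    have hN : (0 : ℤ) ≤ N := by positivity
    refine ⟨⟨⟨h1, ?_⟩, h2, ?_⟩, h3⟩ <;> nlinarith [sq_nonneg a.1, sq_nonneg a.2]

lemma card_le_four (N : ℕ) (T : Finset (ℤ × ℤ)) (h : ∀ a ∈ T, a.1 ^ 2 + a.2 ^ 2 = (N : ℤ) ^ 2) :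
    T.card ≤ 4 * (quad N).card := by
  apply Finset.card_le_mul_card_image_of_maps_to (f := fun a : ℤ × ℤ => (|a.1|, |a.2|))
  · intro a ha
    rw [mem_quad]
    exact ⟨abs_nonneg _, abs_nonneg _, by simpa using h a ha⟩
  · rintro ⟨u, v⟩ _
    calc _ ≤ ({(u, v), (u, -v), (-u, v), (-u, -v)} : Finset (ℤ × ℤ)).card := by
          apply Finset.card_le_card
          rintro ⟨a, b⟩ hab
          have := (Finset.mem_filter.1 hab).2
          simp only [Prod.mk.injEq] at this
          obtain ⟨rfl, rfl⟩ := this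
          simp only [Finset.mem_insert, Finset.mem_singleton, Prod.mk.injEq]
          rcases abs_cases a with ⟨h1, -⟩ | ⟨h1, -⟩ <;> rcases abs_cases b with ⟨h2, -⟩ | ⟨h2, -⟩ <;>
            simp [h1, h2]
      _ ≤ 4 := Finset.card_le_four

/-- The lattice section. -/
noncomputable def latt (N : ℕ) (hN : Odd N) : UG (ℤ × ℤ) where
  s := Finset.Icc (-(N : ℤ)) N ×ˢ Finset.Icc (-(N : ℤ)) N
  adj := fun a b => (b.1 - a.1) ^ 2 + (b.2 - a.2) ^ 2 = (N : ℤ) ^ 2
  col := fun a => decide (Even (a.1 + a.2))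
  real := by
    have hN0 : (N : ℝ) ≠ 0 := by exact_mod_cast hN.pos.ne'
    have hN1 : (N : ℂ) ≠ 0 := by exact_mod_cast hN.pos.ne'
    refine ⟨fun a => ((a.1 : ℂ) + a.2 * Complex.I) / N, ?_, ?_⟩
    · intro a _ b _ hab
      simp only at hab
      rw [div_left_inj' hN1] at hab
      have h1 := congrArg Complex.re hab
      have h2 := congrArg Complex.im hab
      simp at h1 h2
      exact Prod.ext h1 h2
    · intro a _ b _
      rw [dist_comm, dist_eq_norm, ← sub_div, norm_div, Complex.norm_natCast,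
        div_eq_one_iff_eq hN0]
      have e : ((b.1 : ℂ) + b.2 * Complex.I) - (a.1 + a.2 * Complex.I) =
          (((b.1 - a.1 : ℤ) : ℝ) : ℂ) + (((b.2 - a.2 : ℤ) : ℝ) : ℂ) * Complex.I := by
        push_cast; ring
      rw [e, Complex.norm_add_mul_I, Real.sqrt_eq_iff_eq_sq (by positivity) (by positivity)]
      exact_mod_cast Iff.rfl
  bip := by
    intro a _ b _ h hc
    have h1 : Even (a.1 + a.2) ↔ Even (b.1 + b.2) := by simpa using hc
    have h2 : Odd ((N : ℤ) ^ 2) := (Int.odd_coe_nat N |>.2 hN).pow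
    rw [← h, ← Int.not_even_iff_odd] at h2
    apply h2
    simp only [Int.even_add, Int.even_pow, Int.even_sub] at h1 ⊢
    tauto
  ne := ⟨(0, 0), by simp⟩

theorem base_lattice (t : ℕ) : ∃ (G : UG (ℤ × ℤ)) (q : ℕ), 2 ^ t ≤ 4 * q ∧
    G.s.card ≤ 2 ^ (2 * (t * (4 * t + 1)) + 4) ∧ ∀ v ∈ G.s, q ≤ G.deg v ∧ G.deg v ≤ 4 * q := by
  obtain ⟨N, T, hN, hNb, hT, hz⟩ := many_units t 0
  have hN1 : (N : ℂ) ≠ 0 := by exact_mod_cast hN.pos.ne'
  refine ⟨latt N hN, (quad N).card, ?_, ?_, ?_⟩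
  · choose! u v huv using fun z hz' => (hz z hz').2.2
    rw [← hT, ← Finset.card_image_of_injOn (f := fun z => (u z, v z))]
    · apply card_le_four
      intro a ha
      obtain ⟨z, hz', rfl⟩ := Finset.mem_image.1 ha
      have h1 := congrArg Complex.normSq (huv z hz')
      rw [Complex.normSq_mul, Complex.normSq_eq_norm_sq z, (hz z hz').1, Complex.normSq_natCast,
        Complex.normSq_apply] at h1
      simp at h1
      have : ((u z : ℝ)) ^ 2 + (v z : ℝ) ^ 2 = (N : ℝ) ^ 2 := by linarith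
      exact_mod_cast this
    · intro z h1 z' h2 h
      simp only [Prod.mk.injEq] at h
      apply mul_left_cancel₀ hN1
      rw [huv z h1, huv z' h2, h.1, h.2]
  · have : (latt N hN).s.card = (2 * N + 1) ^ 2 := by
      simp only [latt, Finset.card_product, Int.card_Icc]
      have : ((N : ℤ) + 1 - -(N : ℤ)).toNat = 2 * N + 1 := by omega
      rw [this]; ring
    rw [this]
    simp only [zero_add] at hNb
    have h1 := hN.pos
    calc (2 * N + 1) ^ 2 ≤ (4 * 2 ^ (t * (4 * t + 1))) ^ 2 := by gcongr; omega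
      _ = _ := by ring
  · rintro ⟨a, b⟩ hab
    have hab' : (-(N : ℤ) ≤ a ∧ a ≤ N) ∧ (-(N : ℤ) ≤ b ∧ b ≤ N) := by
      simpa [latt] using hab
    unfold UG.deg UG.cnt
    constructor
    · let σ : ℤ := if 0 ≤ a then -1 else 1
      let τ : ℤ := if 0 ≤ b then -1 else 1
      have hσ : σ ^ 2 = 1 := by simp only [σ]; split_ifs <;> norm_num
      have hτ : τ ^ 2 = 1 := by simp only [τ]; split_ifs <;> norm_num
      apply Finset.card_le_card_of_injOn (fun c : ℤ × ℤ => (a + σ * c.1, b + τ * c.2))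
      · intro c hc
        have hc1 := (Finset.mem_filter.1 (Finset.mem_coe.1 hc))
        simp only [Finset.mem_product, Finset.mem_Icc] at hc1
        obtain ⟨⟨⟨c1, c2⟩, c3, c4⟩, c5⟩ := hc1
        simp only [latt, Finset.coe_filter, Finset.mem_product, Finset.mem_Icc, Set.mem_ofPred_eq,
          and_true]
        refine ⟨⟨?_, ?_⟩, ?_⟩
        · simp only [σ]; split_ifs <;> omega
        · simp only [τ]; split_ifs <;> omega
        · linear_combination c5 + c.1 ^ 2 * hσ + c.2 ^ 2 * hτ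
      · intro c _ c' _ h
        simp only [Prod.mk.injEq, add_right_inj] at h
        have hσ0 : σ ≠ 0 := by rintro h; rw [h] at hσ; simp at hσ
        have hτ0 : τ ≠ 0 := by rintro h; rw [h] at hτ; simp at hτ
        exact Prod.ext (mul_left_cancel₀ hσ0 h.1) (mul_left_cancel₀ hτ0 h.2)
    · rw [← Finset.card_image_of_injective _
        (f := fun c : ℤ × ℤ => (c.1 - a, c.2 - b))]
      · apply card_le_four
        intro c hc
        obtain ⟨c', hc', rfl⟩ := Finset.mem_image.1 hc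
        simp only [Finset.mem_filter] at hc'
        exact hc'.2.1
      · intro c c' h
        simp only [Prod.mk.injEq, sub_left_inj] at h
        exact Prod.ext h.1 h.2

end Pool.Agent.P.MP_44bffd_co
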