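import Pool.Agent.P.MP_44bffd_co.Iter

/-! A lattice section with `2 ^ t` unit distances and only `2 ^ (O (t log t))` points. -/

namespace Pool.Agent.P.MP_44bffd_co

open Finset
open scoped Classical

/-- Gaussian integers inside `ℂ`. -/
def GI (w : ℂ) : Prop := ∃ u v : ℤ, w = u + v * Complex.I

lemma GI.sub {a b : ℂ} (ha : GI a) (hb : GI b) : GI (a - b) := by
  obtain ⟨u, v, rfl⟩ := ha
  obtain ⟨u', v', rfl⟩ := hb
  exact ⟨u - u', v - v', by push_cast; ring⟩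

lemma GI.sq_norm {a : ℂ} {u v : ℤ} (h : a = u + v * Complex.I) :
    ‖a‖ ^ 2 = ((u ^ 2 + v ^ 2 : ℤ) : ℝ) := by
  rw [h, ← Complex.normSq_eq_norm_sq, Complex.normSq_apply]
  simp
  ring

lemma GI.one_le {a : ℂ} (ha : GI a) (h0 : a ≠ 0) : 1 ≤ ‖a‖ := by
  obtain ⟨u, v, h⟩ := ha
  have h1 := GI.sq_norm h
  have h2 : (0 : ℝ) < ‖a‖ ^ 2 := by positivity
  have h3 : (0 : ℤ) < u ^ 2 + v ^ 2 := by rw [h1] at h2; exact_mod_cast h2
  have h4 : (1 : ℝ) ≤ ‖a‖ ^ 2 := by rw [h1]; exact_mod_cast h3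
  nlinarith [norm_nonneg a]

lemma gi_prod (L : ℂ) (n : ℕ) : ∀ z : ℂ, (∀ k : ℕ, k ≤ n → z + 2 * k ≠ 0) →
    (∀ k : ℕ, k ≤ n → GI (L / (z + 2 * k))) →
    GI (2 ^ n * (n.factorial : ℂ) * L / ∏ k ∈ range (n + 1), (z + 2 * (k : ℂ))) := by
  induction n with
  | zero => intro z _ h; simpa using h 0 le_rfl
  | succ n ih =>
    intro z h0 h
    have e : ∀ k : ℕ, z + 2 + 2 * (k : ℂ) = z + 2 * ((k + 1 : ℕ) : ℂ) := by
      intro k; push_cast; ring
    have h1 := ih z (fun k hk => h0 k (by omega)) (fun k hk => h k (by omega))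
    have h2 := ih (z + 2) (fun k hk => by rw [e]; exact h0 _ (by omega))
      (fun k hk => by rw [e]; exact h _ (by omega))
    have h3 := h1.sub h2
    have p1 : ∏ k ∈ range (n + 1 + 1), (z + 2 * (k : ℂ)) =
        (∏ k ∈ range (n + 1), (z + 2 * (k : ℂ))) * (z + 2 * ((n + 1 : ℕ) : ℂ)) :=
      Finset.prod_range_succ _ _
    have p2 : ∏ k ∈ range (n + 1 + 1), (z + 2 * (k : ℂ)) =
        (∏ k ∈ range (n + 1), (z + 2 + 2 * (k : ℂ))) * z := by
      rw [Finset.prod_range_succ']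
      simp only [e]
      simp
    have n1 : (∏ k ∈ range (n + 1), (z + 2 * (k : ℂ))) ≠ 0 :=
      Finset.prod_ne_zero_iff.2 fun k hk => h0 k (by have := Finset.mem_range.1 hk; omega)
    have n2 : (∏ k ∈ range (n + 1), (z + 2 + 2 * (k : ℂ))) ≠ 0 :=
      Finset.prod_ne_zero_iff.2 fun k hk => by
        rw [e]; exact h0 _ (by have := Finset.mem_range.1 hk; omega)
    have n3 : z + 2 * ((n + 1 : ℕ) : ℂ) ≠ 0 := h0 _ le_rfl
    have n4 : z ≠ 0 := by simpa using h0 0 (by omega)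
    set P := ∏ k ∈ range (n + 1 + 1), (z + 2 * (k : ℂ)) with hP
    have n5 : P ≠ 0 := by rw [p1]; exact mul_ne_zero n1 n3
    have q1 : (∏ k ∈ range (n + 1), (z + 2 * (k : ℂ))) = P / (z + 2 * ((n + 1 : ℕ) : ℂ)) := by
      rw [p1, mul_div_cancel_right₀ _ n3]
    have q2 : (∏ k ∈ range (n + 1), (z + 2 + 2 * (k : ℂ))) = P / z := by
      rw [p2, mul_div_cancel_right₀ _ n4]
    rw [q1, q2] at h3
    convert h3 using 1
    rw [Nat.factorial_succ]
    field_simp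
    push_cast
    ring

lemma prod_lower (X : ℕ) (hX : 1 ≤ X) (m : ℕ) : m ≤ X →
    (4 : ℝ) ^ m * m.factorial ≤ ∏ k ∈ range (m + 1), ‖(2 * (X : ℂ) + Complex.I) + 2 * (k : ℂ)‖ := by
  have key : ∀ k : ℕ, 2 * (X : ℝ) + 2 * k ≤ ‖(2 * (X : ℂ) + Complex.I) + 2 * (k : ℂ)‖ := by
    intro k
    have := Complex.re_le_norm ((2 * (X : ℂ) + Complex.I) + 2 * (k : ℂ))
    simpa using this
  have hX' : (1 : ℝ) ≤ X := by exact_mod_cast hX
  induction m with
  | zero =>
    intro _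
    have := key 0
    simp only [zero_add, Finset.prod_range_one]
    simp only [Nat.cast_zero] at this ⊢
    norm_num at this ⊢
    linarith
  | succ m ih =>
    intro hm
    rw [Finset.prod_range_succ, Nat.factorial_succ]
    have h1 := ih (by omega)
    have h2 := key (m + 1)
    have h3 : ((m + 1 : ℕ) : ℝ) ≤ X := by exact_mod_cast hm
    calc (4 : ℝ) ^ (m + 1) * (((m + 1) * m.factorial : ℕ) : ℝ)
        = (4 ^ m * m.factorial) * (4 * ((m + 1 : ℕ) : ℝ)) := by push_cast; ring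
      _ ≤ _ := mul_le_mul h1 (by linarith) (by positivity) (by positivity)

lemma lcm_lower (X L : ℕ) (hX : 1 ≤ X) (hL : 0 < L)
    (h : ∀ k, X ≤ k → k ≤ 2 * X → (2 * k) ^ 2 + 1 ∣ L) : 2 ^ X ≤ L := by
  have h0 : ∀ k : ℕ, (2 * (X : ℂ) + Complex.I) + 2 * (k : ℂ) ≠ 0 := by
    intro k hk
    have := congrArg Complex.im hk
    simp at this
  have h1 := gi_prod (L : ℂ) X (2 * (X : ℂ) + Complex.I) (fun k _ => h0 k) (fun k hk => by
    obtain ⟨c, hc⟩ := h (X + k) (by omega) (by omega)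
    refine ⟨c * (2 * (X + k)), -c, ?_⟩
    rw [div_eq_iff (h0 k), hc]
    push_cast
    linear_combination (c : ℂ) * Complex.I_sq)
  have hP : (∏ k ∈ range (X + 1), ((2 * (X : ℂ) + Complex.I) + 2 * (k : ℂ))) ≠ 0 :=
    Finset.prod_ne_zero_iff.2 fun k _ => h0 k
  have hf : (0 : ℝ) < X.factorial := by exact_mod_cast X.factorial_pos
  have h2 := h1.one_le (div_ne_zero (mul_ne_zero (mul_ne_zero (by simp)
    (by exact_mod_cast X.factorial_ne_zero)) (by exact_mod_cast hL.ne')) hP)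
  rw [norm_div, one_le_div (norm_pos_iff.2 hP), norm_prod] at h2
  have h3 := (prod_lower X hX X le_rfl).trans h2
  simp only [norm_mul, norm_pow, Complex.norm_ofNat, Complex.norm_natCast] at h3
  have h4 : (4 : ℝ) ^ X = 2 ^ X * 2 ^ X := by rw [← mul_pow]; norm_num
  have h5 : (0 : ℝ) < 2 ^ X * X.factorial := by positivity
  have h6 : (2 : ℝ) ^ X ≤ L := by
    apply le_of_mul_le_mul_left _ h5
    rw [h4] at h3
    linarith
  exact_mod_cast h6

lemma many_units2 (t u : ℕ) (ht : t ≤ 2 ^ u) (n : ℕ) : n ≤ t → ∃ (N : ℕ) (T : Finset ℂ), Odd N ∧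
    N ≤ 2 ^ (n * (4 * u + 17)) ∧ T.card = 2 ^ n ∧ ∀ z ∈ T, ‖z‖ = 1 ∧ GI ((N : ℂ) * z) := by
  induction n with
  | zero =>
    intro _
    refine ⟨1, {1}, odd_one, by simp, by simp, fun z hz => ?_⟩
    rw [Finset.mem_singleton] at hz
    subst hz
    exact ⟨by simp, 1, 0, by simp⟩
  | succ n ih =>
    intro hn
    obtain ⟨N, T, hN, hNb, hT, hz⟩ := ih (by omega)
    set X := 2 * (t * (4 * u + 17)) + 1 with hXd
    have hX : X ≤ 2 ^ (2 * u + 6) := by
      have a1 : u < 2 ^ u := Nat.lt_two_pow_self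
      have a2 : 2 ^ (2 * u + 6) = 64 * (2 ^ u * 2 ^ u) := by ring
      have a3 : t * (4 * u + 17) ≤ 2 ^ u * (21 * 2 ^ u) := Nat.mul_le_mul ht (by omega)
      have a4 : 1 ≤ 2 ^ u * 2 ^ u := Nat.one_le_iff_ne_zero.2 (by positivity)
      have a5 : 2 ^ u * (21 * 2 ^ u) = 21 * (2 ^ u * 2 ^ u) := by ring
      omega
    obtain ⟨k, hk1, hk2, hk⟩ : ∃ k, X ≤ k ∧ k ≤ 2 * X ∧ ¬ ((2 * k) ^ 2 + 1 ∣ N ^ 2) := by
      by_contra hcon
      push Not at hcon
      have a1 := lcm_lower X (N ^ 2) (by omega) (pow_pos hN.pos 2) hcon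
      have a2 : N ^ 2 ≤ (2 ^ (t * (4 * u + 17))) ^ 2 :=
        Nat.pow_le_pow_left (hNb.trans (Nat.pow_le_pow_right (by norm_num)
          (Nat.mul_le_mul_right _ (by omega)))) 2
      have a3 : 2 ^ X = 2 * (2 ^ (t * (4 * u + 17))) ^ 2 := by rw [hXd]; ring
      have a4 : 0 < (2 ^ (t * (4 * u + 17))) ^ 2 := by positivity
      omega
    set x : ℕ := 2 * k with hx
    have hden : ((x : ℂ) ^ 2 + 1) ≠ 0 := by
      have : ((x : ℝ) ^ 2 + 1) ≠ 0 := by positivity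
      exact_mod_cast this
    let ω : ℂ := ((x : ℂ) + Complex.I) ^ 2 / ((x : ℂ) ^ 2 + 1)
    have hn1 : ‖(x : ℂ) + Complex.I‖ ^ 2 = (x : ℝ) ^ 2 + 1 := by
      rw [← Complex.normSq_eq_norm_sq, Complex.normSq_apply]; simp; ring
    have hn2 : ‖(x : ℂ) ^ 2 + 1‖ = (x : ℝ) ^ 2 + 1 := by
      have : ((x : ℂ) ^ 2 + 1) = (((x : ℝ) ^ 2 + 1 : ℝ) : ℂ) := by push_cast; ring
      rw [this, Complex.norm_real, Real.norm_of_nonneg (by positivity)]
    have hω : ‖ω‖ = 1 := by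
      simp only [ω]
      rw [norm_div, norm_pow, hn1, hn2, div_self (by positivity)]
    have hω0 : ω ≠ 0 := by rintro h; rw [h] at hω; simp at hω
    have e : ((x : ℂ) ^ 2 + 1) * ω = ((x : ℂ) + Complex.I) ^ 2 := by
      simp only [ω]; field_simp
    refine ⟨N * (x ^ 2 + 1), T ∪ T.image (fun z => ω * z), ?_, ?_, ?_, ?_⟩
    · refine hN.mul (Even.add_one ?_)
      rw [hx, Nat.even_pow]
      exact ⟨even_two_mul k, by omega⟩
    · have h1 : x ^ 2 + 1 ≤ 2 ^ (4 * u + 17) := by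
        have a1 : x ≤ 4 * 2 ^ (2 * u + 6) := by omega
        have a2 : x ^ 2 ≤ (4 * 2 ^ (2 * u + 6)) ^ 2 := Nat.pow_le_pow_left a1 2
        have a3 : 2 ^ (4 * u + 17) = 2 * (4 * 2 ^ (2 * u + 6)) ^ 2 := by ring
        have a4 : 0 < (4 * 2 ^ (2 * u + 6)) ^ 2 := by positivity
        omega
      calc N * (x ^ 2 + 1) ≤ 2 ^ (n * (4 * u + 17)) * 2 ^ (4 * u + 17) := by gcongr
        _ = _ := by rw [← pow_add]; congr 1; ring
    · rw [Finset.card_union_of_disjoint, Finset.card_image_of_injective _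
        (mul_right_injective₀ hω0), hT, pow_succ]
      · ring
      · rw [Finset.disjoint_left]
        intro z h1 h2
        obtain ⟨z', h3, rfl⟩ := Finset.mem_image.1 h2
        obtain ⟨-, u2, v2, a2⟩ := hz _ h1
        obtain ⟨b0, u1, v1, a1⟩ := hz _ h3
        have c1 := GI.sq_norm a1
        rw [norm_mul, b0, mul_one, Complex.norm_natCast] at c1
        have c2 : (N : ℤ) ^ 2 = u1 ^ 2 + v1 ^ 2 := by exact_mod_cast c1
        have c3 : ((((x : ℤ) ^ 2 - 1) * u1 - 2 * x * v1 : ℤ) : ℂ) +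
            ((((x : ℤ) ^ 2 - 1) * v1 + 2 * x * u1 : ℤ) : ℂ) * Complex.I =
            ((((x : ℤ) ^ 2 + 1) * u2 : ℤ) : ℂ) + ((((x : ℤ) ^ 2 + 1) * v2 : ℤ) : ℂ) * Complex.I := by
          push_cast
          linear_combination ((x : ℂ) ^ 2 + 1) * a2 - ((N : ℂ) * z') * e -
            ((x : ℂ) + Complex.I) ^ 2 * a1 - (u1 + v1 * Complex.I + 2 * x * v1) * Complex.I_sq
        have c4 := congrArg Complex.re c3
        have c5 := congrArg Complex.im c3
        simp only [Complex.add_re, Complex.intCast_re, Complex.mul_re, Complex.I_re, mul_zero,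
          Complex.intCast_im, Complex.I_im, mul_one, sub_self, add_zero, Complex.add_im,
          Complex.mul_im, zero_add, Int.cast_inj] at c4 c5
        have c6 : ((x : ℤ) ^ 2 + 1) ∣ 2 * (N : ℤ) ^ 2 :=
          ⟨(N : ℤ) ^ 2 - (u1 * u2 + v1 * v2), by
            linear_combination (1 - (x : ℤ) ^ 2) * c2 - u1 * c4 - v1 * c5⟩
        have c7 : IsCoprime ((x : ℤ) ^ 2 + 1) 2 :=
          ⟨1, -(2 * (k : ℤ) ^ 2), by rw [hx]; push_cast; ring⟩
        apply hk
        have c8 := c7.dvd_of_dvd_mul_left c6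
        exact_mod_cast c8
    · intro z hz'
      rcases Finset.mem_union.1 hz' with h | h
      · obtain ⟨a0, u1, v1, a2⟩ := hz _ h
        refine ⟨a0, u1 * (x ^ 2 + 1), v1 * (x ^ 2 + 1), ?_⟩
        push_cast
        linear_combination ((x : ℂ) ^ 2 + 1) * a2
      · obtain ⟨z', h3, rfl⟩ := Finset.mem_image.1 h
        obtain ⟨a0, u1, v1, a2⟩ := hz _ h3
        refine ⟨by rw [norm_mul, hω, a0, mul_one], u1 * (x ^ 2 - 1) - 2 * x * v1,
          v1 * (x ^ 2 - 1) + 2 * x * u1, ?_⟩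
        push_cast
        linear_combination ((N : ℂ) * z') * e + ((x : ℂ) + Complex.I) ^ 2 * a2 +
          (u1 + v1 * Complex.I + 2 * x * v1) * Complex.I_sq

theorem base_lattice2 (t u : ℕ) (ht : t ≤ 2 ^ u) : ∃ (G : UG (ℤ × ℤ)) (q : ℕ), 2 ^ t ≤ 4 * q ∧
    G.s.card ≤ 2 ^ (2 * (t * (4 * u + 17)) + 4) ∧ ∀ v ∈ G.s, q ≤ G.deg v ∧ G.deg v ≤ 4 * q := by
  obtain ⟨N, T, hN, hNb, hT, hz⟩ := many_units2 t u ht t le_rfl
  have hN1 : (N : ℂ) ≠ 0 := by exact_mod_cast hN.pos.ne'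
  refine ⟨latt N hN, (quad N).card, ?_, ?_, ?_⟩
  · choose! u v huv using fun z hz' => (hz z hz').2
    rw [← hT, ← Finset.card_image_of_injOn (f := fun z => (u z, v z))]
    · apply card_le_four
      intro a ha
      obtain ⟨z, hz', rfl⟩ := Finset.mem_image.1 ha
      have c1 := GI.sq_norm (huv z hz')
      rw [norm_mul, (hz z hz').1, mul_one, Complex.norm_natCast] at c1
      exact_mod_cast c1.symm
    · intro z h1 z' h2 h
      simp only [Prod.mk.injEq] at h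
      apply mul_left_cancel₀ hN1
      rw [huv z h1, huv z' h2, h.1, h.2]
  · have : (latt N hN).s.card = (2 * N + 1) ^ 2 := by
      simp only [latt, Finset.card_product, Int.card_Icc]
      have : ((N : ℤ) + 1 - -(N : ℤ)).toNat = 2 * N + 1 := by omega
      rw [this]; ring
    rw [this]
    have h1 := hN.pos
    calc (2 * N + 1) ^ 2 ≤ (4 * 2 ^ (t * (4 * u + 17))) ^ 2 := by gcongr; omega
      _ = _ := by ring
  · rintro ⟨a, b⟩ hab
    have hab' : (-(N : ℤ) ≤ a ∧ a ≤ N) ∧ (-(N : ℤ) ≤ b ∧ b ≤ N) := by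
      simpa [latt] using hab
    unfold UG.deg UG.cnt
    constructor
    · let σ : ℤ := if 0 ≤ a then -1 else 1
      let τ : ℤ := if 0 ≤ b then -1 else 1
      have hσ : σ ^ 2 = 1 := by simp only [σ]; split_ifs <;> norm_num
      have hτ : τ ^ 2 = 1 := by simp only [τ]; split_ifs <;> norm_num
      apply Finset.card_le_card_of_injOn (fun c : ℤ × ℤ => (a + σ * c.1, b + τ * c.2))
      · intro c hc
        have hc1 := (Finset.mem_filter.1 (Finset.mem_coe.1 hc))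
        simp only [Finset.mem_product, Finset.mem_Icc] at hc1
        obtain ⟨⟨⟨c1, c2⟩, c3, c4⟩, c5⟩ := hc1
        simp only [latt, Finset.coe_filter, Finset.mem_product, Finset.mem_Icc, Set.mem_ofPred_eq,
          and_true]
        refine ⟨⟨?_, ?_⟩, ?_⟩
        · simp only [σ]; split_ifs <;> omega
        · simp only [τ]; split_ifs <;> omega
        · linear_combination c5 + c.1 ^ 2 * hσ + c.2 ^ 2 * hτ
      · intro c _ c' _ h
        simp only [Prod.mk.injEq, add_right_inj] at h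
        have hσ0 : σ ≠ 0 := by rintro h; rw [h] at hσ; simp at hσ
        have hτ0 : τ ≠ 0 := by rintro h; rw [h] at hτ; simp at hτ
        exact Prod.ext (mul_left_cancel₀ hσ0 h.1) (mul_left_cancel₀ hτ0 h.2)
    · rw [← Finset.card_image_of_injective _
        (f := fun c : ℤ × ℤ => (c.1 - a, c.2 - b))]
      · apply card_le_four
        intro c hc
        obtain ⟨c', hc', rfl⟩ := Finset.mem_image.1 hc
        simp only [Finset.mem_filter] at hc'
        exact hc'.2.1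
      · intro c c' h
        simp only [Prod.mk.injEq, sub_left_inj] at h
        exact Prod.ext h.1 h.2

/-- The starting step from any base graph with degrees in `[q, 4 q]`. -/
theorem start_of {V : Type} (G : UG V) {q D t g : ℕ} {Γ : ℝ} (hq : 2 ^ t ≤ 4 * q)
    (hc : G.s.card ≤ 2 ^ g) (hd : ∀ v ∈ G.s, q ≤ G.deg v ∧ G.deg v ≤ 4 * q) (hD : D ≤ 2 ^ t)
    (hΓ : (g : ℝ) + 1 ≤ Γ) :
    Nr D (3 / 4 * D + (4 * Real.sqrt Γ + 2) * Real.sqrt D) g := by
  have hΓ1 : 0 < Γ := lt_of_lt_of_le (by positivity) hΓ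
  rcases Nat.eq_zero_or_pos D with rfl | hD0
  · exact (nr_point 0).mono (by simp) (by omega)
  have hDr : (1 : ℝ) ≤ D := by exact_mod_cast hD0
  have hD1 : 1 ≤ Real.sqrt D := Real.one_le_sqrt.2 hDr
  set l : ℕ := ⌈2 * Real.sqrt (D * Γ)⌉₊ with hl
  have hl1 : 2 * Real.sqrt (D * Γ) ≤ l := Nat.le_ceil _
  have hl2 : (l : ℝ) < 2 * Real.sqrt (D * Γ) + 1 := Nat.ceil_lt_add_one (by positivity)
  have hl3 : 5 / 4 * (l : ℝ) ≤ (4 * Real.sqrt Γ + 2) * Real.sqrt D := by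
    rw [Real.sqrt_mul (by positivity)] at hl2
    have := Real.sqrt_nonneg Γ
    nlinarith
  by_cases hbig : D ≤ 5 * l
  · refine (nr_point D).mono ?_ (by omega)
    have : (D : ℝ) ≤ 5 * l := by exact_mod_cast hbig
    linarith
  have hl0 : (0 : ℝ) < l := lt_of_lt_of_le (by positivity) hl1
  have hq0 : 0 < 4 * q := by omega
  have hqr : (0 : ℝ) < q := by exact_mod_cast (by omega : 0 < q)
  have : Nonempty (Fin (4 * q)) := ⟨⟨0, hq0⟩⟩
  have hcard : (Fintype.card (Fin (4 * q)) : ℝ) = 4 * q := by simp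
  let L : Finset (Fin (4 * q)) := Finset.univ.filter (fun a => a.val < D - l)
  have hL : (L.card : ℝ) = D - l := by
    simp only [L]
    rw [Fin.card_filter_val_lt, min_eq_right (by omega), Nat.cast_sub (by omega)]
  have hlD : (l : ℝ) ≤ D := by exact_mod_cast (by omega : l ≤ D)
  have hup : ∀ w ∈ G.s, (G.deg w : ℝ) * ((D - l) / (4 * q)) ≤ D - l := by
    intro w hw
    have a1 : (G.deg w : ℝ) ≤ 4 * q := by exact_mod_cast (hd w hw).2
    have : (0 : ℝ) ≤ D - l := by linarith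
    calc (G.deg w : ℝ) * ((D - l) / (4 * q)) ≤ (4 * q) * ((D - l) / (4 * q)) := by gcongr
      _ = D - l := by field_simp
  have hlow : ∀ w ∈ G.s, (D - l) / 4 ≤ (G.deg w : ℝ) * ((D - l) / (4 * q)) := by
    intro w hw
    have a1 : (q : ℝ) ≤ G.deg w := by exact_mod_cast (hd w hw).1
    have : (0 : ℝ) ≤ D - l := by linarith
    calc ((D : ℝ) - l) / 4 = q * ((D - l) / (4 * q)) := by field_simp
      _ ≤ _ := by gcongr
  obtain ⟨φ, hφ⟩ := exists_label (Λ := Fin (4 * q)) G.s G.s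
    (fun i => G.s.filter (G.adj i)) (fun i _ => Finset.filter_subset _ _)
    (fun _ => L) D l hl0 (by linarith)
    (by
      intro w hw
      rw [hL, hcard, ← deg_eq]
      linarith [hup w hw])
    (by
      apply tail_small (Γ := Γ) hc (by linarith) hΓ
      have : (2 * Real.sqrt (D * Γ)) ^ 2 ≤ (l : ℝ) ^ 2 := by gcongr
      rw [mul_pow, Real.sq_sqrt (by positivity)] at this
      linarith)
  have hb : ∀ w ∈ G.s, (G.cnt w (fun v => φ v ∈ L) : ℝ) ≤ D ∧
      (D - l) / 4 - l ≤ (G.cnt w (fun v => φ v ∈ L) : ℝ) := by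
    intro w hw
    have b3 := hφ w hw
    rw [hL, hcard, ← deg_eq, cnt_eq_filter, abs_le] at b3
    constructor <;> linarith [hup w hw, hlow w hw, b3.1, b3.2]
  have hne : ∃ v ∈ G.s, φ v ∈ L := by
    by_contra hcon
    obtain ⟨w, hw⟩ := G.ne
    have h0 := (hb w hw).2
    rw [G.cnt_zero w (fun b hb _ h => hcon ⟨b, hb, h⟩)] at h0
    have : (5 * l : ℝ) < D := by exact_mod_cast (by omega : 5 * l < D)
    push_cast at h0
    linarith
  refine ⟨_, G.sub (fun v => φ v ∈ L) hne, (UG.card_sub _ _ _).trans hc, fun v hv => ?_⟩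
  rw [UG.mem_sub] at hv
  rw [UG.sub_deg]
  refine ⟨by exact_mod_cast (hb v hv.1).1, ?_⟩
  linarith [(hb v hv.1).2]

theorem near_reg (t u E : ℕ) (Γ : ℝ) (h1 : E ≤ 2 ^ t) (h2 : t + 3 ≤ 2 ^ u)
    (hΓ : ((27 * (2 * ((t + 3) * (4 * u + 17)) + 4) + t + 8 : ℕ) : ℝ) ≤ Γ)
    (hE : 10 ^ 8 * Γ ≤ E) : Nr E (E / 8) (27 * (2 * ((t + 3) * (4 * u + 17)) + 4)) := by
  obtain ⟨G, q, hq, hc, hd⟩ := base_lattice2 (t + 3) u h2
  set g := 2 * ((t + 3) * (4 * u + 17)) + 4 with hg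
  have hΓb : ∀ g' : ℕ, g' ≤ 27 * g → (g' : ℝ) + ((t + 3 : ℕ) : ℝ) + 2 ≤ Γ := by
    intro g' h
    refine le_trans ?_ hΓ
    exact_mod_cast (by omega : g' + (t + 3) + 2 ≤ 27 * g + t + 8)
  have hΓ1 : 1 ≤ Γ := by
    have := hΓb 0 (by omega)
    have a : (0 : ℝ) ≤ ((t + 3 : ℕ) : ℝ) := by positivity
    push_cast at this a
    linarith
  have hs : 1 ≤ Real.sqrt Γ := Real.one_le_sqrt.2 hΓ1
  set β : ℝ := 4 * Real.sqrt Γ + 2 with hβ
  have hβ0 : 0 ≤ β := by positivity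
  have p0 := Nat.one_le_two_pow (n := t)
  have e1 : 2 ^ (t + 3) = 8 * 2 ^ t := by ring
  have s0 : ∀ D ≤ 2 * (4 * 2 ^ t), Nr D (3 / 4 * D + β * Real.sqrt D) g := fun D hD =>
    start_of G hq hc hd (by omega) (by
      have := hΓb g (by omega)
      have a : (0 : ℝ) ≤ ((t + 3 : ℕ) : ℝ) := by positivity
      linarith)
  have s1 := phase_one (Γ := Γ) (κ := t + 3) (by norm_num) hβ0 s0 (by omega) (hΓb _ (by omega))
  have s2 := phase_one (Γ := Γ) (κ := t + 3) (M := 2 * 2 ^ t) (by norm_num) (by positivity)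
    (fun D hD => s1 D (by omega)) (by omega) (hΓb _ (by omega))
  have s3 := phase_one (Γ := Γ) (κ := t + 3) (M := 2 ^ t) (by norm_num) (by positivity)
    (fun D hD => s2 D (by omega)) (by omega) (hΓb _ (by omega))
  refine (s3 E h1).mono ?_ (by omega)
  rw [← hβ]
  have a1 : 10 ^ 4 * Real.sqrt Γ ≤ Real.sqrt E := by
    apply Real.le_sqrt_of_sq_le
    rw [mul_pow, Real.sq_sqrt (by linarith)]
    linarith
  have a2 : Real.sqrt E * Real.sqrt E = E := Real.mul_self_sqrt (by positivity)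
  have a3 : β ≤ 6 * Real.sqrt Γ := by rw [hβ]; linarith
  have a4 : β * Real.sqrt E ≤ (6 / 10 ^ 4) * E := by
    have : β ≤ (6 / 10 ^ 4) * Real.sqrt E := by linarith
    calc β * Real.sqrt E ≤ ((6 / 10 ^ 4) * Real.sqrt E) * Real.sqrt E := by gcongr
      _ = _ := by rw [mul_assoc, a2]
  have a5 : (0 : ℝ) ≤ E := by positivity
  nlinarith

end Pool.Agent.P.MP_44bffd_co
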