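import Mathlib

/-! An exchangeable random set with flat traces, and an explicit coupling with constant sum. -/

namespace Pool.Agent.P.MP_44bffd_co

open Finset
open scoped Classical

/-- The weight of a set of size `t` among `M` points. -/
noncomputable def bw (t M : ℕ) : ℝ :=
  (t.factorial : ℝ) * (M - t).factorial / (M + 1).factorial

lemma bw_add {t M : ℕ} (h : t ≤ M) : bw t (M + 1) + bw (t + 1) (M + 1) = bw t M := by
  obtain ⟨r, rfl⟩ := Nat.exists_eq_add_of_le h
  unfold bw
  rw [show t + r + 1 - t = r + 1 by omega, show t + r + 1 - (t + 1) = r by omega,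
    show t + r - t = r by omega, Nat.factorial_succ (t + r + 1), Nat.factorial_succ r,
    Nat.factorial_succ t]
  have : ((t + r + 1).factorial : ℝ) ≠ 0 := by positivity
  push_cast
  field_simp
  ring

lemma flat_aux {Z : Type} (N R : Finset Z) (hd : Disjoint R N) {v : ℕ} (hv : v ≤ N.card) :
    ∑ T ∈ (R ∪ N).powerset, (if (T ∩ N).card = v then bw T.card (R ∪ N).card else 0) =
      1 / (N.card + 1) := by
  induction R using Finset.induction_on with
  | empty =>
    rw [Finset.empty_union, ← Finset.sum_filter, Finset.sum_congr (s₂ := N.powersetCard v)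
      (g := fun _ => bw v N.card)]
    · rw [Finset.sum_const, Finset.card_powersetCard, nsmul_eq_mul, bw, Nat.factorial_succ,
        ← Nat.choose_mul_factorial_mul_factorial hv]
      have h1 : (N.card.choose v : ℝ) ≠ 0 := by exact_mod_cast (Nat.choose_pos hv).ne'
      have h2 : (v.factorial : ℝ) ≠ 0 := by positivity
      have h3 : ((N.card - v).factorial : ℝ) ≠ 0 := by positivity
      push_cast
      field_simp
    · ext T
      rw [Finset.mem_filter, Finset.mem_powerset, Finset.mem_powersetCard]
      exact and_congr_right fun h => by rw [Finset.inter_eq_left.2 h]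
    · intro T hT
      rw [(Finset.mem_powersetCard.1 hT).2]
  | insert z R hz ih =>
    rw [Finset.disjoint_insert_left] at hd
    have hz' : z ∉ R ∪ N := by simp [hz, hd.1]
    rw [Finset.insert_union, Finset.sum_powerset_insert hz', ← Finset.sum_add_distrib,
      ← ih hd.2, Finset.card_insert_of_notMem hz']
    refine Finset.sum_congr rfl fun T hT => ?_
    have hT' := Finset.mem_powerset.1 hT
    rw [Finset.insert_inter_of_notMem hd.1, Finset.card_insert_of_notMem fun h => hz' (hT' h)]
    split_ifs
    · exact bw_add (Finset.card_le_card hT')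
    · simp

theorem flat (Z : Type) [Fintype Z] {β : ℝ} (h0 : 0 ≤ β) (h1 : β ≤ 1) :
    ∃ μ : Finset Z → ℝ, (∀ T, 0 ≤ μ T) ∧ ∑ T, μ T = 1 ∧ ∀ (N : Finset Z) (v : ℕ), v ≤ N.card →
      ∑ T, μ T * (if (T ∩ N).card = v then 1 else 0) =
        β / (N.card + 1) + if v = N.card then 1 - β else 0 := by
  have key : ∀ (N : Finset Z) (v : ℕ), v ≤ N.card →
      ∑ T : Finset Z, (β * bw T.card (Fintype.card Z) + if T = univ then 1 - β else 0) *
        (if (T ∩ N).card = v then 1 else 0) =
        β / (N.card + 1) + if v = N.card then 1 - β else 0 := by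
    intro N v hv
    have h := flat_aux N Nᶜ disjoint_compl_left hv
    rw [Finset.union_comm, Finset.union_compl, Finset.powerset_univ, Finset.card_univ] at h
    simp only [add_mul, Finset.sum_add_distrib, ite_mul, zero_mul, Finset.sum_ite_eq',
      Finset.mem_univ, if_true, Finset.univ_inter, mul_assoc, ← Finset.mul_sum]
    simp only [mul_ite, mul_one, mul_zero, h, eq_comm (a := v)]
    ring
  refine ⟨fun T => β * bw T.card (Fintype.card Z) + if T = univ then 1 - β else 0,
    fun T => ?_, ?_, key⟩
  · have : 0 ≤ bw T.card (Fintype.card Z) := by unfold bw; positivity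
    have : 0 ≤ 1 - β := by linarith
    positivity
  · simpa using key ∅ 0 le_rfl

/-- The number of points below `x` on the arc of length `R` starting at `s` on a cycle of length
`L`. -/
def arcF (L R s x : ℕ) : ℕ := min x (s + R - L) + (min x (s + R) - s)

lemma arc_count {L R p m v : ℕ} (h1 : p + m ≤ L) (h2 : m ≤ R) (h3 : R + m ≤ L) (h4 : 1 ≤ v)
    (h5 : v ≤ m) : ((range L).filter (fun s => arcF L R s (p + m) - arcF L R s p = v)).card =
      if v = m then R - m + 1 else 2 := by
  split_ifs with e
  · subst e
    by_cases h : R ≤ p + v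
    · rw [show (range L).filter (fun s => arcF L R s (p + v) - arcF L R s p = v) =
        Icc (p + v - R) p by ext s; rw [mem_filter]; simp only [mem_range, mem_Icc, arcF]; omega,
        Nat.card_Icc]
      omega
    · rw [show (range L).filter (fun s => arcF L R s (p + v) - arcF L R s p = v) =
        Icc 0 p ∪ Ico (p + v + L - R) L by
          ext s; rw [mem_filter]; simp only [mem_range, mem_Icc, mem_Ico, mem_union, arcF]; omega,
        card_union_of_disjoint, Nat.card_Icc, Nat.card_Ico]
      · omega
      · rw [disjoint_left]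
        intro s
        simp only [mem_Icc, mem_Ico]
        omega
  · by_cases h : R ≤ p + v
    · rw [show (range L).filter (fun s => arcF L R s (p + m) - arcF L R s p = v) =
        {p + m - v, p + v - R} by
          ext s; rw [mem_filter]; simp only [mem_range, mem_insert, mem_singleton, arcF]; omega,
        card_pair (by omega)]
    · rw [show (range L).filter (fun s => arcF L R s (p + m) - arcF L R s p = v) =
        {p + m - v, p + v + L - R} by
          ext s; rw [mem_filter]; simp only [mem_range, mem_insert, mem_singleton, arcF]; omega,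
        card_pair (by omega)]

lemma arcs {k : ℕ} (m : Fin k → ℕ) (R : ℕ) (h0 : R ≤ ∑ i, m i) (hR : ∀ i, m i ≤ R)
    (hL : ∀ i, R + m i ≤ ∑ i, m i) : ∃ c : ℕ → Fin k → ℕ, (∀ s < ∑ i, m i, ∑ i, c s i = R) ∧
      (∀ s i, c s i ≤ m i) ∧ ∀ i v, 1 ≤ v → v ≤ m i →
        ((range (∑ i, m i)).filter (fun s => c s i = v)).card =
          if v = m i then R - m i + 1 else 2 := by
  set L := ∑ i, m i with hLdef
  let m' : ℕ → ℕ := fun i => if h : i < k then m ⟨i, h⟩ else 0
  let P : ℕ → ℕ := fun i => ∑ j ∈ range i, m' j
  have hm : ∀ i : Fin k, m' i = m i := fun i => dif_pos i.2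
  have hP : ∀ i : Fin k, P (i + 1) = P i + m i := fun i => by
    simp only [P, sum_range_succ, hm]
  have hk : P k = L := by
    simp only [P, hLdef, ← Fin.sum_univ_eq_sum_range, hm]
  have mono : Monotone P := fun a b h => sum_le_sum_of_subset (range_subset_range.2 h)
  refine ⟨fun s i => arcF L R s (P i + m i) - arcF L R s (P i), fun s hs => ?_, fun s i => ?_,
    fun i v a b => arc_count ?_ (hR i) (hL i) a b⟩
  · simp only [← hP]
    rw [Fin.sum_univ_eq_sum_range (fun i => arcF L R s (P (i + 1)) - arcF L R s (P i)) k,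
      sum_range_tsub (f := fun i => arcF L R s (P i)), hk]
    · simp only [P, range_zero, sum_empty, arcF]
      omega
    · intro a b h
      have := mono h
      simp only [arcF]
      omega
  · simp only [arcF]
    omega
  · rw [← hP, ← hk]
    exact mono i.2

theorem mix (n : Fin 6 → ℕ) (D : ℕ) (hD : 1 ≤ D) (h1 : ∀ i, D ≤ 3 * n i) (h2 : ∀ i, 2 * n i ≤ D) :
    ∃ (Θ : Finset (Σ _ : Fin 6, ℕ × ℕ)) (ω : (Σ _ : Fin 6, ℕ × ℕ) → ℝ)
      (α : (Σ _ : Fin 6, ℕ × ℕ) → Fin 6 → ℕ),
      (∀ θ ∈ Θ, 0 ≤ ω θ ∧ ∑ i, α θ i = D ∧ ∀ i, α θ i ≤ n i) ∧ ∑ θ ∈ Θ, ω θ ≤ 15 * D ∧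
      ∀ i v, 1 ≤ v → v ≤ n i → ∑ θ ∈ Θ, (if α θ i = v then ω θ else 0) =
        5 * (D + 2) / (n i + 1) + if v = n i then 5 * ((D : ℝ) - 2) / 2 else 0 := by
  let m : Fin 6 → Fin 6 → ℕ := fun j => Function.update n j 0
  let L : Fin 6 → ℕ := fun j => ∑ i, m j i
  have hL : ∀ j, L j = ∑ i ∈ univ.erase j, n i := fun j => by
    simp only [L, m]
    rw [sum_update_of_mem (mem_univ j), zero_add, sdiff_singleton_eq_erase]
  have hL1 : ∀ j, 5 * D ≤ 3 * L j := fun j => by
    have := card_nsmul_le_sum (univ.erase j) (fun i => 3 * n i) D fun i _ => h1 i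
    rw [← mul_sum, ← hL] at this
    simpa using this
  have hL2 : ∀ j, 2 * L j ≤ 5 * D := fun j => by
    have := sum_le_card_nsmul (univ.erase j) (fun i => 2 * n i) D fun i _ => h2 i
    rw [← mul_sum, ← hL] at this
    simpa using this
  have hm : ∀ j i, 2 * m j i ≤ D := fun j i => by
    by_cases e : i = j
    · simp [m, e]
    · simp [m, e, h2 i]
  have ex : ∀ j b, ∃ c : ℕ → Fin 6 → ℕ, b ≤ n j → (∀ s < L j, ∑ i, c s i = D - b) ∧
      (∀ s i, c s i ≤ m j i) ∧ ∀ i v, 1 ≤ v → v ≤ m j i →
        ((range (L j)).filter (fun s => c s i = v)).card =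
          if v = m j i then D - b - m j i + 1 else 2 := by
    intro j b
    by_cases hb : b ≤ n j
    · have a1 := hL1 j
      have a2 := h2 j
      obtain ⟨c, hc⟩ := arcs (m j) (D - b) (show _ ≤ L j by omega)
        (fun i => by have := hm j i; omega) (fun i => show _ ≤ L j by have := hm j i; omega)
      exact ⟨c, fun _ => hc⟩
    · exact ⟨fun _ _ => 0, fun h => absurd h hb⟩
  choose c hc using ex
  let γ : Fin 6 → ℕ → ℝ := fun j b => (5 * ((D : ℝ) - 2 * n j) / (n j + 1) +
    (L j - 5 * ((D : ℝ) - 2 * n j)) / 2 *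
      ((if b = 0 then 1 else 0) + if b = n j then 1 else 0)) / L j
  have hL0 : ∀ j, (0 : ℝ) < L j := fun j => by
    have := hL1 j
    exact_mod_cast (by omega : 0 < L j)
  have g1 : ∀ j, ∑ b ∈ range (n j + 1), γ j b = 1 := fun j => by
    have := hL0 j
    simp only [γ, ← sum_div, sum_add_distrib, ← mul_sum, sum_const, card_range, sum_ite_eq',
      mem_range, Nat.succ_pos, Nat.lt_succ_self, if_true, nsmul_eq_mul]
    push_cast
    field_simp
    ring
  have g2 : ∀ j, ∑ b ∈ range (n j + 1), γ j b * b = n j / 2 := fun j => by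
    have := hL0 j
    have e : ∑ b ∈ range (n j + 1), (b : ℝ) = (n j + 1) * n j / 2 := by
      have := sum_range_id_mul_two (n j + 1)
      rw [Nat.add_sub_cancel] at this
      rw [eq_div_iff two_ne_zero, ← Nat.cast_sum]
      exact_mod_cast this
    simp only [γ, div_mul_eq_mul_div, ← sum_div, add_mul, sum_add_distrib, mul_assoc, ← mul_sum,
      ite_mul, sum_ite_eq', mem_range, Nat.succ_pos, Nat.lt_succ_self, if_true, zero_mul, e]
    push_cast
    field_simp
    ring
  refine ⟨univ.sigma fun j => range (n j + 1) ×ˢ range (L j), fun θ => γ θ.1 θ.2.1,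
    fun θ => Function.update (c θ.1 θ.2.1 θ.2.2) θ.1 θ.2.1, ?_, ?_, ?_⟩
  · rintro ⟨j, b, s⟩ hθ
    simp only [mem_sigma, mem_univ, mem_product, mem_range, true_and] at hθ
    obtain ⟨c1, c2, -⟩ := hc j b (by omega)
    have c3 : c j b s j = 0 := by simpa [m] using c2 s j
    refine ⟨?_, ?_, fun i => ?_⟩
    · have a1 : (2 * n j : ℝ) ≤ D := by exact_mod_cast h2 j
      have a2 : (D : ℝ) ≤ 3 * n j := by exact_mod_cast h1 j
      have a3 : (5 * D : ℝ) ≤ 3 * L j := by exact_mod_cast hL1 j
      have a4 : (0 : ℝ) ≤ (D : ℝ) - 2 * n j := by linarith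
      have a5 : (0 : ℝ) ≤ L j - 5 * ((D : ℝ) - 2 * n j) := by linarith
      simp only [γ]
      positivity
    · have := c1 s hθ.2
      rw [← add_sum_erase _ _ (mem_univ j), c3] at this
      have a := h2 j
      simp only
      rw [sum_update_of_mem (mem_univ j), sdiff_singleton_eq_erase]
      omega
    · by_cases e : i = j
      · subst e; simp only [Function.update_self]; omega
      · simpa [m, e] using c2 s i
  · rw [sum_sigma]
    simp only [sum_product, sum_const, card_range, nsmul_eq_mul, ← mul_sum, g1, mul_one]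
    have := sum_le_card_nsmul univ (fun j => (L j : ℝ)) (5 * D / 2) fun j _ => by
      have : (2 * L j : ℝ) ≤ 5 * D := by exact_mod_cast hL2 j
      linarith
    simp only [card_univ, Fintype.card_fin, nsmul_eq_mul] at this
    push_cast at this
    linarith
  · intro i v v1 v2
    have t1 : ∑ x ∈ range (n i + 1) ×ˢ range (L i),
        (if Function.update (c i x.1 x.2) i x.1 i = v then γ i x.1 else 0) = L i * γ i v := by
      simp only [Function.update_self, sum_product, sum_const, card_range, nsmul_eq_mul,
        ← mul_sum, sum_ite_eq', mem_range]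
      rw [if_pos (by omega)]
    have t2 : ∀ j ∈ univ.erase i, ∑ x ∈ range (n j + 1) ×ˢ range (L j),
        (if Function.update (c j x.1 x.2) j x.1 i = v then γ j x.1 else 0) =
        2 + if v = n i then (D : ℝ) - n i - 1 - n j / 2 else 0 := by
      intro j hj
      have e : i ≠ j := (ne_of_mem_erase hj).symm
      have e' : m j i = n i := by simp [m, e]
      have : ∀ b ∈ range (n j + 1), ∑ s ∈ range (L j), (if c j b s i = v then γ j b else 0) =
          γ j b * 2 + if v = n i then γ j b * ((D : ℝ) - n i - 1) - γ j b * b else 0 := by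
        intro b hb
        rw [mem_range] at hb
        rw [← sum_filter, sum_const, (hc j b (by omega)).2.2 i v v1 (e' ▸ v2), e', nsmul_eq_mul]
        have a1 := h2 i
        have a2 := h2 j
        split_ifs
        · rw [Nat.cast_add, Nat.cast_sub (by omega), Nat.cast_sub (by omega)]
          push_cast; ring
        · push_cast; ring
      simp only [Function.update_of_ne e, sum_product]
      rw [sum_congr rfl this, sum_add_distrib, ← sum_mul, g1]
      split_ifs
      · rw [sum_sub_distrib, ← sum_mul, g1, g2]; ring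
      · simp
    rw [sum_sigma, ← add_sum_erase _ _ (mem_univ i)]
    simp only
    rw [t1, sum_congr rfl t2, sum_add_distrib]
    have := hL0 i
    have e : (L i : ℝ) = ∑ j ∈ univ.erase i, (n j : ℝ) := by rw [hL]; push_cast; rfl
    simp only [γ, if_neg (show v ≠ 0 by omega)]
    split_ifs
    · rw [sum_sub_distrib, ← sum_div, ← e]
      simp only [sum_const, card_erase_of_mem (mem_univ i), card_univ, Fintype.card_fin,
        nsmul_eq_mul]
      push_cast
      field_simp
      ring
    · simp only [sum_const, card_erase_of_mem (mem_univ i), card_univ, Fintype.card_fin,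
        nsmul_eq_mul]
      push_cast
      field_simp
      ring

end Pool.Agent.P.MP_44bffd_co
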