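import Mathlib

/-! Finite product measures: block independence and a concentration lemma. -/

namespace Pool.Agent.P.MP_44bffd_co

open Finset
open scoped Classical

variable {V Λ : Type} [Fintype V] [Fintype Λ]

/-- A family of probability vectors. -/
structure PV (V Λ : Type) [Fintype Λ] where
  μ : V → Λ → ℝ
  nonneg : ∀ v a, 0 ≤ μ v a
  sum : ∀ v, ∑ a, μ v a = 1

namespace PV

variable (P : PV V Λ)

/-- The weight of a configuration. -/
noncomputable def wt (h : V → Λ) : ℝ := ∏ v, P.μ v (h v)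

/-- The expectation. -/
noncomputable def ex (F : (V → Λ) → ℝ) : ℝ := ∑ h, P.wt h * F h

lemma wt_nonneg (h : V → Λ) : 0 ≤ P.wt h := Finset.prod_nonneg fun v _ => P.nonneg v _

lemma ex_prod_fun (φ : V → Λ → ℝ) :
    P.ex (fun h => ∏ v, φ v (h v)) = ∏ v, ∑ a, P.μ v a * φ v a := by
  unfold ex wt
  rw [Finset.prod_univ_sum]
  simp only [← Finset.prod_mul_distrib, Fintype.piFinset_univ]

lemma ex_const (c : ℝ) : P.ex (fun _ => c) = c := by
  have := P.ex_prod_fun (fun _ _ => 1)
  simp only [Finset.prod_const_one, mul_one, P.sum] at this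
  unfold ex at this ⊢
  simp only [mul_one] at this
  rw [← Finset.sum_mul, this, one_mul]

lemma ex_mono {F G : (V → Λ) → ℝ} (h : ∀ x, F x ≤ G x) : P.ex F ≤ P.ex G :=
  Finset.sum_le_sum fun x _ => mul_le_mul_of_nonneg_left (h x) (P.wt_nonneg x)

lemma ex_add (F G : (V → Λ) → ℝ) : P.ex (fun h => F h + G h) = P.ex F + P.ex G := by
  unfold ex
  simp only [mul_add, Finset.sum_add_distrib]

lemma ex_mul (c : ℝ) (F : (V → Λ) → ℝ) : P.ex (fun h => c * F h) = c * P.ex F := by
  unfold ex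
  rw [Finset.mul_sum]
  exact Finset.sum_congr rfl fun h _ => by ring

lemma ex_sum {ι : Type} (I : Finset ι) (F : ι → (V → Λ) → ℝ) :
    P.ex (fun h => ∑ i ∈ I, F i h) = ∑ i ∈ I, P.ex (F i) := by
  unfold ex
  simp only [Finset.mul_sum]
  exact Finset.sum_comm

/-- A product of functions of distinct coordinates. -/
lemma ex_prod_inj {ι : Type} (I : Finset ι) (e : ι → V) (he : Set.InjOn e I) (φ : ι → Λ → ℝ) :
    P.ex (fun h => ∏ i ∈ I, φ i (h (e i))) = ∏ i ∈ I, ∑ a, P.μ (e i) a * φ i a := by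
  have key : ∀ ψ : V → ℝ, (∀ v, v ∉ I.image e → ψ v = 1) → ∏ v, ψ v = ∏ i ∈ I, ψ (e i) := by
    intro ψ hψ
    rw [← Finset.prod_image (f := ψ) he]
    exact (Finset.prod_subset (Finset.subset_univ _) fun v _ hv => hψ v hv).symm
  have e1 : ∀ i ∈ I, ∀ a, ∏ j ∈ I.filter (fun j => e j = e i), φ j a = φ i a := by
    intro i hi a
    have : I.filter (fun j => e j = e i) = {i} := by
      ext j
      simp only [Finset.mem_filter, Finset.mem_singleton]
      exact ⟨fun h => he h.1 hi h.2, fun h => by rw [h]; exact ⟨hi, rfl⟩⟩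
    rw [this, Finset.prod_singleton]
  have e2 : ∀ v, v ∉ I.image e → ∀ a, ∏ j ∈ I.filter (fun j => e j = v), φ j a = 1 := by
    intro v hv a
    rw [Finset.filter_eq_empty_iff.2 fun j hj h => hv (Finset.mem_image.2 ⟨j, hj, h⟩),
      Finset.prod_empty]
  have := P.ex_prod_fun (fun v a => ∏ j ∈ I.filter (fun j => e j = v), φ j a)
  rw [key _ (fun v hv => by simp only [e2 v hv, mul_one, P.sum])] at this
  rw [Finset.prod_congr rfl fun i hi => Finset.sum_congr rfl fun a _ => by rw [← e1 i hi a],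
    ← this]
  congr 1
  funext h
  rw [key _ (fun v hv => e2 v hv _)]
  exact Finset.prod_congr rfl fun i hi => (e1 i hi _).symm

lemma resample (B : Finset V) (F : (V → Λ) → ℝ) :
    P.ex F = P.ex (fun h => P.ex (fun g => F (B.piecewise g h))) := by
  have hw : ∀ g h, P.wt (B.piecewise g h) * P.wt (B.piecewise h g) = P.wt h * P.wt g := by
    intro g h
    unfold wt
    rw [← Finset.prod_mul_distrib, ← Finset.prod_mul_distrib]
    refine Finset.prod_congr rfl fun v _ => ?_
    by_cases hv : v ∈ B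
    · simp [hv, mul_comm]
    · simp [hv]
  let σ : (V → Λ) × (V → Λ) ≃ (V → Λ) × (V → Λ) := Function.Involutive.toPerm
    (fun x => (B.piecewise x.2 x.1, B.piecewise x.1 x.2)) (by
      rintro ⟨h, g⟩
      refine Prod.ext (funext fun v => ?_) (funext fun v => ?_) <;>
        by_cases hv : v ∈ B <;> simp [hv])
  have e1 : P.ex F = ∑ x : (V → Λ) × (V → Λ), P.wt x.1 * P.wt x.2 * F x.1 := by
    rw [Fintype.sum_prod_type]
    refine Finset.sum_congr rfl fun h _ => ?_
    have := P.ex_const (P.wt h * F h)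
    rw [← this]
    exact Finset.sum_congr rfl fun g _ => by ring
  rw [e1, ← σ.sum_comp, Fintype.sum_prod_type]
  refine Finset.sum_congr rfl fun h _ => ?_
  unfold ex
  rw [Finset.mul_sum]
  refine Finset.sum_congr rfl fun g _ => ?_
  change P.wt (B.piecewise g h) * P.wt (B.piecewise h g) * F (B.piecewise g h) = _
  rw [hw]; ring

lemma ex_prod_le {K : Type} (N : Finset K) (φ : K → (V → Λ) → ℝ) (B : K → Finset V) (m : K → ℝ)
    (h0 : ∀ i h, 0 ≤ φ i h) (hm : ∀ i, 0 ≤ m i)
    (hi : ∀ i ∈ N, ∀ j ∈ N, i ≠ j → ∀ g h, φ j ((B i).piecewise g h) = φ j h)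
    (hc : ∀ i ∈ N, ∀ h, P.ex (fun g => φ i ((B i).piecewise g h)) ≤ m i) :
    P.ex (fun h => ∏ i ∈ N, φ i h) ≤ ∏ i ∈ N, m i := by
  induction N using Finset.induction_on with
  | empty => simp [ex_const]
  | insert a s ha ih =>
    have ih' := ih (fun i hi' j hj => hi i (mem_insert_of_mem hi') j (mem_insert_of_mem hj))
      (fun i hi' => hc i (mem_insert_of_mem hi'))
    simp only [Finset.prod_insert ha]
    rw [P.resample (B a)]
    refine le_trans (P.ex_mono (G := fun h => m a * ∏ i ∈ s, φ i h) fun h => ?_) ?_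
    · have e : ∀ g, ∏ i ∈ s, φ i ((B a).piecewise g h) = ∏ i ∈ s, φ i h := fun g =>
        Finset.prod_congr rfl fun i hi' => hi a (mem_insert_self _ _) i (mem_insert_of_mem hi')
          (fun e => ha (e ▸ hi')) g h
      simp only [e, mul_comm (φ a _)]
      rw [ex_mul, mul_comm (m a)]
      exact mul_le_mul_of_nonneg_left (hc a (mem_insert_self _ _) h)
        (Finset.prod_nonneg fun i _ => h0 i h)
    · rw [ex_mul]
      exact mul_le_mul_of_nonneg_left ih' (hm a)

lemma moment {f : (V → Λ) → ℝ} {p t : ℝ} (h0 : ∀ h, 0 ≤ f h) (h1 : ∀ h, f h ≤ 1)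
    (hp : P.ex f = p) (ht : |t| ≤ 1) :
    P.ex (fun h => Real.exp (t * (f h - p))) ≤ Real.exp (t ^ 2 * p) := by
  have p0 : 0 ≤ p := by rw [← hp, ← P.ex_const 0]; exact P.ex_mono h0
  have p1 : p ≤ 1 := by rw [← hp, ← P.ex_const 1]; exact P.ex_mono h1
  refine le_trans (P.ex_mono
    (G := fun h => (1 - t * p + t ^ 2 * p ^ 2) + (t + t ^ 2 * (1 - 2 * p)) * f h) fun h => ?_) ?_
  · have hy : |t * (f h - p)| ≤ 1 := by
      rw [abs_mul]
      refine mul_le_one₀ ht (abs_nonneg _) ?_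
      rw [abs_le]
      constructor <;> linarith [h0 h, h1 h]
    have h2 := (abs_le.1 (Real.abs_exp_sub_one_sub_id_le hy)).2
    have h3 : 0 ≤ t ^ 2 * (f h * (1 - f h)) :=
      mul_nonneg (sq_nonneg _) (mul_nonneg (h0 h) (by linarith [h1 h]))
    nlinarith
  · rw [ex_add, ex_const, ex_mul, hp]
    have := Real.add_one_le_exp (t ^ 2 * p)
    nlinarith [sq_nonneg (t * p)]

/-- Concentration of sums of bounded functions on disjoint blocks, inside a given event. -/
theorem conc {ι K : Type} (I : Finset ι) (N : ι → Finset K) (f : ι → K → (V → Λ) → ℝ)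
    (B : ι → K → Finset V) (p : ι → K → ℝ) (E : (V → Λ) → Prop) (μ l : ℝ) (hl0 : 0 < l)
    (hl : l ≤ 2 * μ) (h0 : ∀ i k h, 0 ≤ f i k h) (h1 : ∀ i k h, f i k h ≤ 1)
    (hi : ∀ i ∈ I, ∀ k ∈ N i, ∀ j ∈ N i, k ≠ j → ∀ g h, f i j ((B i k).piecewise g h) = f i j h)
    (hc : ∀ i ∈ I, ∀ k ∈ N i, ∀ h, P.ex (fun g => f i k ((B i k).piecewise g h)) = p i k)
    (hμ : ∀ i ∈ I, ∑ k ∈ N i, p i k ≤ μ)
    (hI : 2 * I.card * Real.exp (-(l ^ 2 / (4 * μ))) < P.ex (fun h => if E h then 1 else 0)) :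
    ∃ h, E h ∧ ∀ i ∈ I, |∑ k ∈ N i, f i k h - ∑ k ∈ N i, p i k| ≤ l := by
  have hμ0 : 0 < μ := by linarith
  set t : ℝ := l / (2 * μ) with ht
  have ht0 : 0 < t := by positivity
  have ht1 : t ≤ 1 := by rw [ht, div_le_one (by positivity)]; exact hl
  have hta : |t| ≤ 1 := by rw [abs_of_pos ht0]; exact ht1
  have hta' : |-t| ≤ 1 := by rwa [abs_neg]
  let X : (V → Λ) → ι → ℝ := fun h i => ∑ k ∈ N i, f i k h - ∑ k ∈ N i, p i k
  have mom : ∀ i ∈ I, ∀ s : ℝ, |s| ≤ 1 →
      P.ex (fun h => Real.exp (s * X h i)) ≤ Real.exp (s ^ 2 * μ) := by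
    intro i hi' s hs
    have a := P.ex_prod_le (N i) (fun k h => Real.exp (s * (f i k h - p i k))) (B i)
      (fun k => Real.exp (s ^ 2 * p i k)) (fun _ _ => by positivity) (fun _ => by positivity)
      (fun k hk j hj e g h => by rw [hi i hi' k hk j hj e g h])
      (fun k hk h => P.moment (fun _ => h0 _ _ _) (fun _ => h1 _ _ _) (hc i hi' k hk h) hs)
    simp only [← Real.exp_sum, ← Finset.mul_sum, Finset.sum_sub_distrib] at a
    refine a.trans ?_
    gcongr
    exact hμ i hi'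
  have key : P.ex (fun h => ∑ i ∈ I, (Real.exp (t * X h i) + Real.exp (-t * X h i))) <
      P.ex (fun h => Real.exp (t * l) * if E h then 1 else 0) := by
    rw [ex_sum, ex_mul]
    calc _ ≤ ∑ _i ∈ I, 2 * Real.exp (t ^ 2 * μ) := by
          refine Finset.sum_le_sum fun i hi' => ?_
          rw [ex_add]
          have a1 := mom i hi' t hta
          have a2 := mom i hi' (-t) hta'
          rw [neg_sq] at a2
          linarith
      _ = Real.exp (t * l) * (2 * I.card * Real.exp (-(l ^ 2 / (4 * μ)))) := by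
          have : t ^ 2 * μ = t * l + -(l ^ 2 / (4 * μ)) := by
            rw [ht]; field_simp; ring
          rw [Finset.sum_const, nsmul_eq_mul, this, Real.exp_add]; ring
      _ < _ := by gcongr
  obtain ⟨h, -, hh⟩ := Finset.exists_lt_of_sum_lt key
  have hh' := lt_of_mul_lt_mul_left hh (P.wt_nonneg h)
  beta_reduce at hh'
  have hs : ∀ j ∈ I, 0 ≤ Real.exp (t * X h j) + Real.exp (-t * X h j) := fun j _ => by positivity
  have hE : E h := by
    by_contra hE
    rw [if_neg hE, mul_zero] at hh'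
    exact absurd (Finset.sum_nonneg hs) (not_le.2 hh')
  rw [if_pos hE, mul_one] at hh'
  refine ⟨h, hE, fun i hi => ?_⟩
  have h2 : Real.exp (t * X h i) + Real.exp (-t * X h i) < Real.exp (t * l) :=
    lt_of_le_of_lt (Finset.single_le_sum hs hi) hh'
  have h3 : t * X h i < t * l := by
    rw [← Real.exp_lt_exp]; linarith [Real.exp_pos (-t * X h i)]
  have h4 : -t * X h i < t * l := by
    rw [← Real.exp_lt_exp]; linarith [Real.exp_pos (t * X h i)]
  change |X h i| ≤ l
  rw [abs_le]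
  constructor <;> nlinarith

end PV

/-- Independent coins. -/
theorem coin {ι : Type} (p : V → ℝ) (h0 : ∀ v, 0 ≤ p v) (h1 : ∀ v, p v ≤ 1) (I : Finset ι)
    (N : ι → Finset V) (μ l : ℝ) (hl0 : 0 < l) (hl : l ≤ 2 * μ)
    (hμ : ∀ i ∈ I, ∑ v ∈ N i, p v ≤ μ) (hI : 2 * I.card * Real.exp (-(l ^ 2 / (4 * μ))) < 1) :
    ∃ K : V → Prop, (∀ v, K v → p v ≠ 0) ∧
      ∀ i ∈ I, |(((N i).filter K).card : ℝ) - ∑ v ∈ N i, p v| ≤ l := by
  let P : PV V Bool := ⟨fun v a => if a then p v else 1 - p v,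
    fun v a => by cases a <;> simp [h0 v, h1 v], fun v => by simp⟩
  obtain ⟨h, -, hh⟩ := P.conc I N (fun _ v h => if h v = true ∧ p v ≠ 0 then 1 else 0)
    (fun _ v => {v}) (fun _ v => p v) (fun _ => True) μ l hl0 hl
    (fun _ _ _ => by positivity) (fun _ _ _ => by split_ifs <;> norm_num)
    (fun i _ k _ j _ e g h => by simp [Finset.piecewise, e.symm])
    (fun i _ k _ h => by
      have := P.ex_prod_inj {k} id (Set.injOn_id _)
        (fun _ a => if a = true ∧ p k ≠ 0 then 1 else 0)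
      simp only [Finset.prod_singleton, id] at this
      simp only [Finset.piecewise, Finset.mem_singleton, if_true]
      rw [this]
      by_cases e : p k = 0 <;> simp [P, e]) hμ (by simpa [P.ex_const] using hI)
  refine ⟨fun v => h v = true ∧ p v ≠ 0, fun v hv => hv.2, fun i hi => ?_⟩
  have := hh i hi
  rw [Finset.card_filter]
  push_cast
  convert this

end Pool.Agent.P.MP_44bffd_co
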