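import Pool.Agent.P.MP_44bffd_co.Pow
import Pool.Agent.P.MP_44bffd_co.Prob
import Pool.Agent.P.MP_44bffd_co.Mix

/-! One side is made exactly regular inside the sixth box power. -/

namespace Pool.Agent.P.MP_44bffd_co

open Finset
open scoped Classical

/-- The mixing ratio. -/
noncomputable def bt (D : ℕ) : ℝ := 2 * (D + 2) / (3 * D + 2)

/-- The law of the size of the trace of the random set on a set of size `n`. -/
noncomputable def piF (D n v : ℕ) : ℝ := bt D / (n + 1) + if v = n then 1 - bt D else 0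

lemma bt_bd {D : ℕ} (hD : 2 ≤ D) : 2 / 3 ≤ bt D ∧ bt D ≤ 1 := by
  have : (2 : ℝ) ≤ D := by exact_mod_cast hD
  unfold bt
  rw [div_le_div_iff₀ (by norm_num) (by positivity), div_le_one (by positivity)]
  constructor <;> linarith

lemma piF_ge {D n : ℕ} (hD : 2 ≤ D) (hn : 2 * n ≤ D) (v : ℕ) : ((D : ℝ) + 2)⁻¹ ≤ piF D n v := by
  have h1 := bt_bd hD
  have h2 : (2 * n : ℝ) ≤ D := by exact_mod_cast hn
  have h3 : ((D : ℝ) + 2)⁻¹ ≤ bt D / (n + 1) := by
    rw [inv_eq_one_div, div_le_div_iff₀ (by positivity) (by positivity)]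
    nlinarith [h1.1, Nat.cast_nonneg (α := ℝ) n]
  unfold piF
  split_ifs <;> linarith [h1.2]

lemma weights {D : ℕ} (hD : 2 ≤ D) {c : ℝ} (h0 : 0 ≤ c) (hc : 2 * c * (D + 2) ^ 6 ≤ 1) :
    ∃ w : (Fin 6 → ℕ) → (Fin 6 → ℕ) → ℝ,
      (∀ n a, 0 ≤ w n a ∧ w n a ≤ 1 ∧ (w n a ≠ 0 → ∑ i, a i = D)) ∧
      ∀ (Z X : Type) [Fintype Z] [Fintype X] (P : PV X (Finset Z)) (N : Fin 6 → Finset Z)
        (e : Fin 6 → X) (j : Fin 6) (v : ℕ), (∀ i, D ≤ 3 * (N i).card ∧ 2 * (N i).card ≤ D) →
        (∀ x (M : Finset Z) u, u ≤ M.card →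
          ∑ T, P.μ x T * (if (T ∩ M).card = u then 1 else 0) = piF D M.card u) →
        Set.InjOn e (univ.erase j) → 1 ≤ v → v ≤ (N j).card →
        P.ex (fun g => w (fun i => (N i).card)
          (fun i => if i = j then v else (g (e i) ∩ N i).card)) = c := by
  have hDr : (2 : ℝ) ≤ D := by exact_mod_cast hD
  choose Θ ω α h1 h2 h3 using fun (n : Fin 6 → ℕ) (h : ∀ i, D ≤ 3 * n i ∧ 2 * n i ≤ D) =>
    mix n D (by omega) (fun i => (h i).1) fun i => (h i).2
  have hp : ∀ (n : Fin 6 → ℕ) (h : ∀ i, D ≤ 3 * n i ∧ 2 * n i ≤ D) i v, 0 < piF D (n i) v :=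
    fun n h i v => lt_of_lt_of_le (by positivity) (piF_ge hD (h i).2 v)
  refine ⟨fun n a => if h : ∀ i, D ≤ 3 * n i ∧ 2 * n i ≤ D then
    ∑ θ ∈ Θ n h, 2 * c / (15 * D + 10) * ω n h θ *
      ∏ i, (if a i = α n h θ i then (piF D (n i) (α n h θ i))⁻¹ else 0) else 0, fun n a => ?_, ?_⟩
  · by_cases h : ∀ i, D ≤ 3 * n i ∧ 2 * n i ≤ D
    swap
    · simp [h]
    have b0 : ∀ θ i, 0 ≤ (if a i = α n h θ i then (piF D (n i) (α n h θ i))⁻¹ else 0) :=
      fun θ i => by have := hp n h i (α n h θ i); positivity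
    have b1 : ∀ θ i, (if a i = α n h θ i then (piF D (n i) (α n h θ i))⁻¹ else 0) ≤ D + 2 :=
      fun θ i => by
        split_ifs
        · exact inv_le_of_inv_le₀ (by positivity) (piF_ge hD (h i).2 _)
        · positivity
    simp only [dif_pos h]
    refine ⟨sum_nonneg fun θ hθ => ?_, ?_, fun hw => ?_⟩
    · have := (h1 n h θ hθ).1
      have := prod_nonneg (s := univ) fun i _ => b0 θ i
      positivity
    · calc _ ≤ ∑ θ ∈ Θ n h, 2 * c / (15 * D + 10) * (D + 2) ^ 6 * ω n h θ := by
            refine sum_le_sum fun θ hθ => ?_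
            have := (h1 n h θ hθ).1
            have b2 := prod_le_prod (s := univ) (fun i _ => b0 θ i) fun i _ => b1 θ i
            rw [prod_const, card_univ, Fintype.card_fin] at b2
            rw [mul_right_comm _ _ (ω n h θ)]
            gcongr
        _ ≤ 2 * c / (15 * D + 10) * (D + 2) ^ 6 * (15 * D) := by
            rw [← mul_sum]
            gcongr
            exact h2 n h
        _ = 2 * c * (D + 2) ^ 6 * (15 * D / (15 * D + 10)) := by ring
        _ ≤ 1 * 1 := by
            gcongr
            rw [div_le_one (by positivity)]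
            linarith
        _ = 1 := by ring
    · obtain ⟨θ, hθ, hw'⟩ := exists_ne_zero_of_sum_ne_zero hw
      rw [← (h1 n h θ hθ).2.1]
      refine sum_congr rfl fun i _ => ?_
      by_contra hi
      exact hw' (mul_eq_zero_of_right _ (prod_eq_zero (mem_univ i) (if_neg hi)))
  · intro Z X _ _ P N e j v h hP he v1 v2
    simp only [dif_pos h]
    set n : Fin 6 → ℕ := fun i => (N i).card with hn
    rw [P.ex_sum]
    have key : ∀ θ ∈ Θ n h, P.ex (fun g => 2 * c / (15 * D + 10) * ω n h θ *
        ∏ i, (if (if i = j then v else (g (e i) ∩ N i).card) = α n h θ i then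
          (piF D (n i) (α n h θ i))⁻¹ else 0)) =
        2 * c / (15 * D + 10) * (piF D (n j) v)⁻¹ * (if α n h θ j = v then ω n h θ else 0) := by
      intro θ hθ
      have e1 : ∀ g : X → Finset Z, ∏ i, (if (if i = j then v else (g (e i) ∩ N i).card) =
          α n h θ i then (piF D (n i) (α n h θ i))⁻¹ else 0) =
          (if α n h θ j = v then (piF D (n j) v)⁻¹ else 0) * ∏ i ∈ univ.erase j,
            (if (g (e i) ∩ N i).card = α n h θ i then (piF D (n i) (α n h θ i))⁻¹ else 0) := by
        intro g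
        rw [← mul_prod_erase _ _ (mem_univ j), if_pos rfl]
        congr 1
        · by_cases hv : v = α n h θ j
          · rw [if_pos hv, if_pos hv.symm, ← hv]
          · rw [if_neg hv, if_neg (Ne.symm hv)]
        · exact prod_congr rfl fun i hi => by rw [if_neg (ne_of_mem_erase hi)]
      simp only [e1]
      rw [P.ex_mul, P.ex_mul, P.ex_prod_inj _ e he (fun i T => if (T ∩ N i).card = α n h θ i then
        (piF D (n i) (α n h θ i))⁻¹ else 0), prod_eq_one]
      · split_ifs <;> ring
      · intro i _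
        have := hP (e i) (N i) _ ((h1 n h θ hθ).2.2 i)
        rw [← mul_inv_cancel₀ (hp n h i (α n h θ i)).ne']
        conv_rhs => rw [← this]
        rw [sum_mul, this]
        exact sum_congr rfl fun T _ => by split_ifs <;> ring
    rw [sum_congr rfl key, ← mul_sum, h3 n h j v v1 v2]
    have e2 : 5 * ((D : ℝ) + 2) / (n j + 1) + (if v = n j then 5 * ((D : ℝ) - 2) / 2 else 0) =
        (15 * D + 10) / 2 * piF D (n j) v := by
      unfold piF bt
      split_ifs
      · field_simp; ring
      · field_simp; ring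
    have := hp n h j v
    rw [e2]
    field_simp

section

variable {V : Type} [Fintype V] {r : V → V → Prop} {col : V → Bool}

/-- The vertices kept in the sixth power. -/
def kept (col : V → Bool) (y₀ : V) (T : Fin 6 × (Fin 6 → V) → Finset V)
    (K : (Fin 6 → V) → Prop) (a : Fin 6 → V) : Prop :=
  ((∀ i, col (a i) = true) ∧ K a) ∨ ∃ j, col (a j) = false ∧ (∀ i, i ≠ j → col (a i) = true) ∧
    a j ∈ T (j, Function.update a j y₀)

lemma bi_of_kept (hR : Realises univ r) (hb : ∀ a b, r a b → r b a ∧ col b = !col a) (y₀ : V)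
    (T : Fin 6 × (Fin 6 → V) → Finset V) (K : (Fin 6 → V) → Prop) {D g : ℕ} {b₁ b₂ : ℝ}
    (hg : Fintype.card V ≤ 2 ^ g) (hne : ∃ a, kept col y₀ T K a)
    (h1 : ∀ y, K y → ∑ i, (T (i, Function.update y i y₀) ∩ univ.filter (r (y i))).card = D)
    (h2 : ∀ j a, col (a j) = false → (∀ i, i ≠ j → col (a i) = true) →
      a j ∈ T (j, Function.update a j y₀) →
      b₁ ≤ (univ.filter (fun z => r (a j) z ∧ K (Function.update a j z))).card ∧
      (univ.filter (fun z => r (a j) z ∧ K (Function.update a j z))).card ≤ b₂) :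
    Bi D D b₁ b₂ (6 * g) := by
  have hr : ∀ v, ¬ r v v := fun v h => by simpa using (hb v v h).2
  have two : ∀ (a : Fin 6 → V) i j, i ≠ j → col (a i) = false → col (a j) = false →
      ¬ kept col y₀ T K a := by
    rintro a i j hij hi hj (⟨h, -⟩ | ⟨k, -, h, -⟩)
    · simp [h i] at hi
    · by_cases e : i = k
      · simp [h j (fun e' => hij (e.trans e'.symm))] at hj
      · simp [h i e] at hi
  let G : UG (Fin 6 → V) :=
    { s := univ.filter (kept col y₀ T K)
      adj := adjK r
      col := fun a => decide (∀ i, col (a i) = true)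
      real := (realises_pow hR 6).mono (filter_subset _ _)
      bip := by
        rintro a ha b hb' ⟨j, e1, e2⟩ hc
        have e3 := (hb _ _ e1).2
        have hc' : (∀ i, col (a i) = true) ↔ ∀ i, col (b i) = true := by simpa using hc
        have ex : ∀ x : Fin 6 → V, col (x j) = true → ¬ (∀ i, col (x i) = true) →
            ∃ i, i ≠ j ∧ col (x i) = false := fun x h h' => by
          obtain ⟨i, hi⟩ := not_forall.1 h'
          exact ⟨i, fun e => hi (e ▸ h), by simpa using hi⟩
        cases e : col (a j)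
        · rw [e] at e3
          obtain ⟨i, h, h'⟩ := ex b e3 fun h => by simp [hc'.2 h j] at e
          exact two a i j h (e2 i h ▸ h') e (mem_filter.1 ha).2
        · rw [e] at e3
          obtain ⟨i, h, h'⟩ := ex a e fun h => by simp [hc'.1 h j] at e3
          exact two b i j h (e2 i h ▸ h') e3 (mem_filter.1 hb').2
      ne := by obtain ⟨a, ha⟩ := hne; exact ⟨a, mem_filter.2 ⟨mem_univ _, ha⟩⟩ }
  have hd : ∀ a, G.deg a = ∑ j, (univ.filter (fun z => r (a j) z ∧
      kept col y₀ T K (Function.update a j z))).card := by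
    intro a
    rw [deg_eq, ← card_pow_nbr hr]
    congr 1
    ext b
    simp only [G, mem_filter, mem_univ, true_and, and_comm]
  refine ⟨_, G, (card_filter_le _ _).trans ?_, fun a ha => ⟨fun e => ?_, fun e => ?_⟩⟩
  · rw [card_univ, Fintype.card_fun, Fintype.card_fin, mul_comm, pow_mul]
    gcongr
  · have e' : ∀ i, col (a i) = true := by simpa [G] using e
    have hK : K a := by
      rcases (mem_filter.1 ha).2 with h | ⟨j, h, -⟩
      · exact h.2
      · simp [e' j] at h
    have : G.deg a = D := by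
      rw [hd, ← h1 a hK]
      refine sum_congr rfl fun j _ => congrArg card ?_
      ext z
      simp only [mem_filter, mem_univ, true_and, mem_inter]
      rw [and_comm]
      refine and_congr_left fun hz => ?_
      have hz' : col z = false := by simpa [e' j] using (hb _ _ hz).2
      constructor
      · rintro (⟨h, -⟩ | ⟨k, k1, -, k2⟩)
        · simpa [hz'] using h j
        · by_cases e : k = j
          · subst e; simpa using k2
          · simp [e, e' k] at k1
      · exact fun h => Or.inr ⟨j, by simpa using hz', fun i hi => by simp [hi, e' i],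
          by simpa using h⟩
    rw [this]
    exact ⟨le_rfl, le_rfl⟩
  · rcases (mem_filter.1 ha).2 with h | ⟨j, j1, j2, j3⟩
    · simp [G, h.1] at e
    have : G.deg a = (univ.filter (fun z => r (a j) z ∧ K (Function.update a j z))).card := by
      rw [hd, sum_eq_single j]
      · congr 1
        ext z
        simp only [mem_filter, mem_univ, true_and]
        refine and_congr_right fun hz => ?_
        have hz' : col z = true := by simpa [j1] using (hb _ _ hz).2
        have all : ∀ i, col (Function.update a j z i) = true := fun i => by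
          by_cases e : i = j
          · simp [e, hz']
          · simp [e, j2 i e]
        constructor
        · rintro (⟨-, h⟩ | ⟨k, k1, -⟩)
          · exact h
          · simp [all k] at k1
        · exact fun h => Or.inl ⟨all, h⟩
      · intro i _ hi
        rw [card_eq_zero, filter_eq_empty_iff]
        rintro z - ⟨hz, hk⟩
        exact two _ i j hi (by simpa [j2 i hi] using (hb _ _ hz).2) (by simpa [hi.symm] using j1) hk
      · simp
    rw [this]
    exact h2 j a j1 j2 j3

end

lemma pw_out {α β : Type} {B : Finset α} {i : ∀ j, Decidable (j ∈ B)} {g h : α → β} {v : α}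
    (hv : v ∉ B) : @Finset.piecewise α (fun _ => β) B g h i v = h v :=
  piecewise_eq_of_notMem _ _ _ hv

lemma pw_in {α β : Type} {B : Finset α} {i : ∀ j, Decidable (j ∈ B)} {g h : α → β} {v : α}
    (hv : v ∈ B) : @Finset.piecewise α (fun _ => β) B g h i v = g v :=
  piecewise_eq_of_mem _ _ _ hv

theorem exact_step {D g : ℕ} {b₁ b₂ c l Γ μ : ℝ} (h : Bi (D / 3) (D / 2) b₁ b₂ g) (hD : 2 ≤ D)
    (hb : 0 < b₁) (h0 : 0 ≤ c) (hc : 2 * c * (D + 2) ^ 6 ≤ 1) (hl0 : 0 < l) (hl : l ≤ μ)
    (hμ : c * b₂ ≤ μ) (hΓ : ((6 * g + 4 : ℕ) : ℝ) + 1 ≤ Γ) (hlΓ : 8 * μ * Γ ≤ l ^ 2) :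
    Bi D D (c * b₁ - 2 * l) (c * b₂ + 2 * l) (6 * g) := by
  have hDr : (2 : ℝ) ≤ D := by exact_mod_cast hD
  obtain ⟨V, _, r, col, hR, hs, hboth, hg, hdeg⟩ := h.fin (by positivity) hb
  obtain ⟨x₀, hx₀⟩ := hboth false
  obtain ⟨y₀, hy₀⟩ := hboth true
  obtain ⟨w, w1, w2⟩ := weights hD h0 hc
  obtain ⟨ν, ν1, ν2, ν3⟩ := flat V (β := bt D) (by linarith [(bt_bd hD).1]) (bt_bd hD).2
  let P : PV (Fin 6 × (Fin 6 → V)) (Finset V) := ⟨fun _ => ν, fun _ => ν1, fun _ => ν2⟩
  let var : (Fin 6 → V) → Fin 6 → Fin 6 × (Fin 6 → V) := fun y i => (i, Function.update y i y₀)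
  let W : (Fin 6 × (Fin 6 → V) → Finset V) → (Fin 6 → V) → ℝ := fun h y =>
    w (fun i => (univ.filter (r (y i))).card) (fun i => (h (var y i) ∩ univ.filter (r (y i))).card)
  let I : Finset (Fin 6 × (Fin 6 → V)) :=
    univ.filter (fun x => col (x.2 x.1) = false ∧ ∀ i, i ≠ x.1 → col (x.2 i) = true)
  have hI : 2 * I.card ≤ 2 ^ (6 * g + 4) := by
    have := card_filter_le (univ : Finset (Fin 6 × (Fin 6 → V)))
      (fun x => col (x.2 x.1) = false ∧ ∀ i, i ≠ x.1 → col (x.2 i) = true)
    rw [card_univ, Fintype.card_prod, Fintype.card_fun, Fintype.card_fin] at this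
    have h2 : Fintype.card V ^ 6 ≤ (2 ^ g) ^ 6 := by gcongr
    rw [pow_add, mul_comm 6 g, pow_mul]
    change I.card ≤ _ at this
    omega
  have tail := tail_small (l := l) (μ := 2 * μ) hI (by linarith) hΓ (by linarith)
  push_cast at tail
  have c1 : c ≤ 1 := by
    have : (1 : ℝ) ≤ (D + 2) ^ 6 := one_le_pow₀ (by linarith)
    nlinarith
  have hN : ∀ x ∈ I, c * b₁ ≤ ∑ _z ∈ univ.filter (r (x.2 x.1)), c ∧
      ∑ _z ∈ univ.filter (r (x.2 x.1)), c ≤ c * b₂ := by
    intro x hx
    have := (hdeg _).2 (mem_filter.1 hx).2.1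
    rw [sum_const, nsmul_eq_mul, mul_comm _ c]
    exact ⟨mul_le_mul_of_nonneg_left this.1 h0, mul_le_mul_of_nonneg_left this.2 h0⟩
  have hvj : ∀ (a : Fin 6 → V) j z, var (Function.update a j z) j = var a j := fun a j z => by
    simp [var]
  have hown : ∀ (y y' : Fin 6 → V) j, var y j ∉ (univ.erase j).image (var y') := by
    intro y y' j hm
    obtain ⟨i, hi, e⟩ := mem_image.1 hm
    exact ne_of_mem_erase hi (Prod.mk.inj e).1
  obtain ⟨T, hE, hT⟩ := P.conc I (fun x => univ.filter (r (x.2 x.1)))
    (fun x z h => if x.2 x.1 ∈ h (var x.2 x.1) then W h (Function.update x.2 x.1 z) else c)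
    (fun x z => (univ.erase x.1).image (var (Function.update x.2 x.1 z))) (fun _ _ => c)
    (fun h => x₀ ∈ h (var (fun _ => y₀) 0)) (2 * μ) l hl0 (by linarith)
    (fun x z h => by
      split_ifs
      · exact (w1 _ _).1
      · exact h0)
    (fun x z h => by
      split_ifs
      · exact (w1 _ _).2.1
      · exact c1)
    (by
      rintro ⟨j, a⟩ - z - z' - hz g h
      have e : ∀ i, var (Function.update a j z') i ∉
          (univ.erase j).image (var (Function.update a j z)) := by
        intro i hm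
        obtain ⟨i', hi, e⟩ := mem_image.1 hm
        obtain ⟨rfl, e2⟩ := Prod.mk.inj e
        have := congrFun e2 j
        rw [Function.update_of_ne (ne_of_mem_erase hi).symm,
          Function.update_of_ne (ne_of_mem_erase hi).symm] at this
        exact hz (by simpa using this)
      simp only [W, pw_out (e _), pw_out (hown _ _ _)])
    (by
      rintro ⟨j, a⟩ hx z hz h
      obtain ⟨j1, j2⟩ := (mem_filter.1 hx).2
      have hz' := hs _ _ (mem_filter.1 hz).2
      simp only [pw_out (hown _ _ _)]
      split_ifs with hm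
      swap
      · exact P.ex_const c
      set y := Function.update a j z with hy
      have all : ∀ i, col (y i) = true := fun i => by
        by_cases e : i = j
        · simpa [e, hy, show col (a j) = false from j1] using hz'.2
        · simpa [e, hy] using j2 i e
      rw [← w2 V _ P (fun i => univ.filter (r (y i))) (var y) j
        (h (var y j) ∩ univ.filter (r (y j))).card (fun i => by
          have := (hdeg _).1 (all i)
          constructor
          · exact_mod_cast (by linarith [this.1] : (D : ℝ) ≤ 3 * (univ.filter (r (y i))).card)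
          · exact_mod_cast (by linarith [this.2] : (2 * (univ.filter (r (y i))).card : ℝ) ≤ D))
        (fun _ => ν3) (fun i _ i' _ e => (Prod.mk.inj e).1)
        (card_pos.2 ⟨a j, mem_inter.2 ⟨by rw [hy, hvj]; exact hm, by simpa [hy] using hz'.1⟩⟩)
        (card_le_card inter_subset_right)]
      congr 1
      funext g
      simp only [W]
      congr 1
      funext i
      by_cases e : i = j
      · rw [if_pos e, e, pw_out (hown _ _ _)]
      · rw [if_neg e, pw_in (mem_image_of_mem _ (by simp [e]))])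
    (fun x hx => by linarith [(hN x hx).2])
    (by
      have a := P.ex_prod_inj {var (fun _ => y₀) 0} id (Set.injOn_id _)
        (fun _ T => if (T ∩ {x₀}).card = 1 then 1 else 0)
      simp only [prod_singleton, id] at a
      have b := ν3 {x₀} 1 (by simp)
      have e : ∀ T : Finset V, (T ∩ {x₀}).card = 1 ↔ x₀ ∈ T := fun T => by
        by_cases hx : x₀ ∈ T <;> simp [hx]
      rw [show ∑ T, P.μ (var (fun _ => y₀) 0) T * (if (T ∩ {x₀}).card = 1 then 1 else 0) = _
        from b] at a
      simp only [e, card_singleton, if_true] at a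
      have := (bt_bd hD).2
      refine lt_of_lt_of_le ?_ (le_of_eq (a.symm.trans (by congr; funext h; congr)))
      push_cast
      linarith)
  have hsum : ∀ x ∈ I.filter (fun x => x.2 x.1 ∈ T (var x.2 x.1)),
      |∑ y ∈ (univ.filter (r (x.2 x.1))).image (Function.update x.2 x.1), W T y -
        ∑ _z ∈ univ.filter (r (x.2 x.1)), c| ≤ l := by
    intro x hx
    have := hT x (mem_filter.1 hx).1
    simp only [if_pos (mem_filter.1 hx).2] at this
    rwa [sum_image (Function.update_injective _ _).injOn]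
  obtain ⟨K, K1, K2⟩ := coin (W T) (fun _ => (w1 _ _).1) (fun _ => (w1 _ _).2.1)
    (I.filter (fun x => x.2 x.1 ∈ T (var x.2 x.1)))
    (fun x => (univ.filter (r (x.2 x.1))).image (Function.update x.2 x.1)) (2 * μ) l hl0
    (by linarith)
    (fun x hx => by linarith [(abs_le.1 (hsum x hx)).2, (hN x (mem_filter.1 hx).1).2])
    (by
      have : ((I.filter (fun x => x.2 x.1 ∈ T (var x.2 x.1))).card : ℝ) ≤ 2 * I.card := by
        have := card_filter_le I (fun x => x.2 x.1 ∈ T (var x.2 x.1))
        exact_mod_cast (by omega)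
      refine lt_of_le_of_lt ?_ tail
      gcongr)
  refine bi_of_kept hR hs y₀ T K hg ⟨Function.update (fun _ => y₀) 0 x₀, Or.inr ⟨0, by simpa,
    fun i hi => by simpa [hi], by simpa [var] using hE⟩⟩ (fun y hy => (w1 _ _).2.2 (K1 y hy))
    fun j a j1 j2 j3 => ?_
  have hx : (j, a) ∈ I.filter (fun x => x.2 x.1 ∈ T (var x.2 x.1)) :=
    mem_filter.2 ⟨mem_filter.2 ⟨mem_univ _, j1, j2⟩, j3⟩
  have a1 := abs_le.1 (K2 _ hx)
  have a2 := abs_le.1 (hsum _ hx)
  have a3 := hN _ (mem_filter.1 hx).1
  rw [filter_image, card_image_of_injective _ (Function.update_injective _ _), filter_filter] at a1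
  constructor <;> linarith [a1.1, a1.2, a2.1, a2.2, a3.1, a3.2]

end Pool.Agent.P.MP_44bffd_co
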