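import Mathlib

/-! Strict unit distance graphs in the plane: box products and the link construction. -/

namespace Pool.Agent.P.MP_44bffd_co

open Finset
open scoped Classical

/-- The relation `adj` on `s` is the unit distance graph of an injective placement in the plane. -/
def Realises {V : Type} (s : Finset V) (adj : V → V → Prop) : Prop :=
  ∃ f : V → ℂ, Set.InjOn f s ∧ ∀ a ∈ s, ∀ b ∈ s, (adj a b ↔ dist (f a) (f b) = 1)

lemma finite_bad (α β : ℂ) (hα : α ≠ 0) (hβ : β ≠ 0) (r : ℝ) :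
    {θ : ℂ | ‖θ‖ = 1 ∧ ‖α + θ * β‖ = r}.Finite := by
  let p : Polynomial ℂ := Polynomial.C (starRingEnd ℂ α * β) * Polynomial.X ^ 2 +
    Polynomial.C (α * starRingEnd ℂ α + β * starRingEnd ℂ β - (r : ℂ) ^ 2) * Polynomial.X +
    Polynomial.C (α * starRingEnd ℂ β)
  have hp : p ≠ 0 := by
    intro h
    have h2 : p.coeff 2 = starRingEnd ℂ α * β := by
      simp only [p, Polynomial.coeff_add, Polynomial.coeff_C_mul, Polynomial.coeff_X_pow,
        Polynomial.coeff_X, Polynomial.coeff_C]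
      simp
    rw [h] at h2
    simp only [Polynomial.coeff_zero] at h2
    have : starRingEnd ℂ α * β ≠ 0 := mul_ne_zero (by simpa using hα) hβ
    exact this h2.symm
  refine (Polynomial.finite_setOfPred_isRoot hp).subset ?_
  rintro θ ⟨h1, h2⟩
  have e1 : θ * starRingEnd ℂ θ = 1 := by
    rw [Complex.mul_conj, Complex.normSq_eq_norm_sq, h1]; simp
  have e2 : (α + θ * β) * starRingEnd ℂ (α + θ * β) = (r : ℂ) ^ 2 := by
    rw [Complex.mul_conj, Complex.normSq_eq_norm_sq, h2]; simp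
  simp only [map_add, map_mul] at e2
  simp only [Set.mem_ofPred_eq, Polynomial.IsRoot, p, Polynomial.eval_add, Polynomial.eval_mul,
    Polynomial.eval_C, Polynomial.eval_pow, Polynomial.eval_X]
  linear_combination θ * e2 - (α * starRingEnd ℂ β + θ * β * starRingEnd ℂ β) * e1

lemma infinite_circle : {θ : ℂ | ‖θ‖ = 1}.Infinite := by
  have h : Set.InjOn (fun x : ℝ => ((x : ℂ) + (Real.sqrt (1 - x ^ 2) : ℂ) * Complex.I))
      (Set.Icc 0 1) := by
    intro x _ y _ hxy
    have := congrArg Complex.re hxy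
    simpa using this
  have hi : (Set.Icc (0 : ℝ) 1).Infinite := Set.Icc_infinite (by norm_num)
  refine (hi.image h).mono ?_
  rintro _ ⟨x, hx, rfl⟩
  simp only [Set.mem_ofPred_eq]
  rw [Complex.norm_add_mul_I, Real.sq_sqrt (by nlinarith [hx.1, hx.2])]
  simp

lemma generic_rot (A B : Finset ℂ) : ∃ θ : ℂ, ‖θ‖ = 1 ∧ ∀ a ∈ A, ∀ a' ∈ A, ∀ b ∈ B, ∀ b' ∈ B,
    a ≠ a' → b ≠ b' → (‖(a - a') + θ * (b - b')‖ ≠ 0 ∧ ‖(a - a') + θ * (b - b')‖ ≠ 1) := by
  let bad : Set ℂ := ⋃ q ∈ ((A ×ˢ A) ×ˢ (B ×ˢ B)).filter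
      (fun q => q.1.1 ≠ q.1.2 ∧ q.2.1 ≠ q.2.2),
      ({θ : ℂ | ‖θ‖ = 1 ∧ ‖(q.1.1 - q.1.2) + θ * (q.2.1 - q.2.2)‖ = 0} ∪
       {θ : ℂ | ‖θ‖ = 1 ∧ ‖(q.1.1 - q.1.2) + θ * (q.2.1 - q.2.2)‖ = 1})
  have hb : bad.Finite := by
    refine Set.Finite.biUnion (Finset.finite_toSet _) ?_
    intro q hq
    have hq' := (Finset.mem_filter.1 (Finset.mem_coe.1 hq)).2
    exact (finite_bad _ _ (sub_ne_zero.2 hq'.1) (sub_ne_zero.2 hq'.2) 0).union
      (finite_bad _ _ (sub_ne_zero.2 hq'.1) (sub_ne_zero.2 hq'.2) 1)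
  obtain ⟨θ, h1, h2⟩ := (infinite_circle.sdiff hb).nonempty
  refine ⟨θ, h1, fun a ha a' ha' b hb b' hb' hne hne' => ?_⟩
  have hm : ((a, a'), (b, b')) ∈ ((A ×ˢ A) ×ˢ (B ×ˢ B)).filter
      (fun q => q.1.1 ≠ q.1.2 ∧ q.2.1 ≠ q.2.2) := by
    simp [ha, ha', hb, hb', hne, hne']
  constructor
  · intro h
    exact h2 (Set.mem_biUnion (Finset.mem_coe.2 hm) (Or.inl ⟨h1, h⟩))
  · intro h
    exact h2 (Set.mem_biUnion (Finset.mem_coe.2 hm) (Or.inr ⟨h1, h⟩))

/-- Box product of two relations. -/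
def box {V W : Type} (r : V → V → Prop) (t : W → W → Prop) (a b : V × W) : Prop :=
  (r a.1 b.1 ∧ a.2 = b.2) ∨ (a.1 = b.1 ∧ t a.2 b.2)

lemma Realises.mono {V : Type} {s s' : Finset V} {adj : V → V → Prop} (h : Realises s adj)
    (hs : s' ⊆ s) : Realises s' adj := by
  obtain ⟨f, h1, h2⟩ := h
  exact ⟨f, h1.mono (by exact_mod_cast hs), fun a ha b hb => h2 a (hs ha) b (hs hb)⟩

lemma Realises.prod {V W : Type} {s : Finset V} {s' : Finset W} {r : V → V → Prop}
    {t : W → W → Prop} (h : Realises s r) (h' : Realises s' t) :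
    Realises (s ×ˢ s') (box r t) := by
  obtain ⟨f, f1, f2⟩ := h
  obtain ⟨g, g1, g2⟩ := h'
  obtain ⟨θ, hθ, hg⟩ := generic_rot (s.image f) (s'.image g)
  have hθ0 : θ ≠ 0 := by rintro rfl; simp at hθ
  have key : ∀ a ∈ s ×ˢ s', ∀ b ∈ s ×ˢ s', a.1 ≠ b.1 → a.2 ≠ b.2 →
      (‖(f a.1 - f b.1) + θ * (g a.2 - g b.2)‖ ≠ 0 ∧
        ‖(f a.1 - f b.1) + θ * (g a.2 - g b.2)‖ ≠ 1) := by
    intro a ha b hb h1 h2
    rw [Finset.mem_product] at ha hb
    exact hg _ (mem_image_of_mem _ ha.1) _ (mem_image_of_mem _ hb.1) _ (mem_image_of_mem _ ha.2)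
      _ (mem_image_of_mem _ hb.2) (fun h => h1 (f1 ha.1 hb.1 h)) (fun h => h2 (g1 ha.2 hb.2 h))
  refine ⟨fun a => f a.1 + θ * g a.2, ?_, ?_⟩
  · intro a ha b hb hab
    have ha' := Finset.mem_coe.1 ha
    have hb' := Finset.mem_coe.1 hb
    have hz : (f a.1 - f b.1) + θ * (g a.2 - g b.2) = 0 := by
      simp only at hab
      linear_combination hab
    have ha'' := Finset.mem_product.1 ha'
    have hb'' := Finset.mem_product.1 hb'
    by_cases h1 : a.1 = b.1
    · have : g a.2 = g b.2 := by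
        rw [h1, sub_self, zero_add, mul_eq_zero] at hz
        exact sub_eq_zero.1 (hz.resolve_left hθ0)
      exact Prod.ext h1 (g1 ha''.2 hb''.2 this)
    · by_cases h2 : a.2 = b.2
      · have : f a.1 = f b.1 := by
          rw [h2, sub_self, mul_zero, add_zero] at hz
          exact sub_eq_zero.1 hz
        exact absurd (f1 ha''.1 hb''.1 this) h1
      · exact absurd (by rw [hz]; simp) (key a ha' b hb' h1 h2).1
  · intro a ha b hb
    have ha'' := Finset.mem_product.1 ha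
    have hb'' := Finset.mem_product.1 hb
    have hd : dist (f a.1 + θ * g a.2) (f b.1 + θ * g b.2) =
        ‖(f a.1 - f b.1) + θ * (g a.2 - g b.2)‖ := by
      rw [dist_eq_norm]; congr 1; ring
    simp only [hd, box]
    by_cases h1 : a.1 = b.1
    · have hn : ¬ r a.1 b.1 := by
        rw [f2 _ ha''.1 _ hb''.1, h1]; simp
      rw [h1, sub_self, zero_add, norm_mul, hθ, one_mul, ← dist_eq_norm, ← g2 _ ha''.2 _ hb''.2]
      rw [h1] at hn
      tauto
    · by_cases h2 : a.2 = b.2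
      · rw [h2, sub_self, mul_zero, add_zero, ← dist_eq_norm, ← f2 _ ha''.1 _ hb''.1]
        tauto
      · have := (key a ha b hb h1 h2).2
        tauto

/-- A nonempty properly two-coloured strict unit distance graph. -/
structure UG (V : Type) where
  s : Finset V
  adj : V → V → Prop
  col : V → Bool
  real : Realises s adj
  bip : ∀ a ∈ s, ∀ b ∈ s, adj a b → col a ≠ col b
  ne : s.Nonempty

variable {V V' : Type}

/-- Number of neighbours with a property. -/
noncomputable def UG.cnt (G : UG V) (a : V) (p : V → Prop) : ℕ :=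
  (G.s.filter (fun b => G.adj a b ∧ p b)).card

/-- Degree. -/
noncomputable def UG.deg (G : UG V) (a : V) : ℕ := G.cnt a (fun _ => True)

lemma UG.cnt_congr (G : UG V) (a : V) {p q : V → Prop}
    (h : ∀ b ∈ G.s, G.adj a b → (p b ↔ q b)) : G.cnt a p = G.cnt a q := by
  unfold UG.cnt
  congr 1
  apply Finset.filter_congr
  intro b hb
  exact and_congr_right (h b hb)

lemma UG.cnt_zero (G : UG V) (a : V) {p : V → Prop}
    (h : ∀ b ∈ G.s, G.adj a b → ¬ p b) : G.cnt a p = 0 := by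
  unfold UG.cnt
  rw [Finset.card_eq_zero, Finset.filter_eq_empty_iff]
  intro b hb h'
  exact h b hb h'.1 h'.2

lemma UG.irrefl (G : UG V) {a : V} (ha : a ∈ G.s) : ¬ G.adj a a := fun h => G.bip a ha a ha h rfl

/-- Box product. -/
def UG.prod (G : UG V) (H : UG V') : UG (V × V') where
  s := G.s ×ˢ H.s
  adj := box G.adj H.adj
  col := fun a => xor (G.col a.1) (H.col a.2)
  real := G.real.prod H.real
  bip := by
    intro a ha b hb h
    rw [Finset.mem_product] at ha hb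
    rcases h with ⟨h1, h2⟩ | ⟨h1, h2⟩
    · have := G.bip _ ha.1 _ hb.1 h1
      rw [h2]
      revert this
      cases G.col a.1 <;> cases G.col b.1 <;> cases H.col b.2 <;> simp
    · have := H.bip _ ha.2 _ hb.2 h2
      rw [h1]
      revert this
      cases H.col a.2 <;> cases H.col b.2 <;> cases G.col b.1 <;> simp
  ne := G.ne.product H.ne

/-- Induced subgraph. -/
noncomputable def UG.sub (G : UG V) (p : V → Prop) (h : ∃ v ∈ G.s, p v) : UG V where
  s := G.s.filter p
  adj := G.adj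
  col := G.col
  real := G.real.mono (Finset.filter_subset _ _)
  bip := fun a ha b hb => G.bip a (Finset.mem_filter.1 ha).1 b (Finset.mem_filter.1 hb).1
  ne := by obtain ⟨v, hv, hp⟩ := h; exact ⟨v, Finset.mem_filter.2 ⟨hv, hp⟩⟩

lemma UG.sub_deg (G : UG V) (p : V → Prop) (h : ∃ v ∈ G.s, p v) (a : V) :
    (G.sub p h).deg a = G.cnt a p := by
  unfold UG.deg UG.cnt
  congr 1
  ext b
  simp only [UG.sub, Finset.mem_filter]
  tauto

lemma UG.mem_sub (G : UG V) (p : V → Prop) (h : ∃ v ∈ G.s, p v) (a : V) :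
    a ∈ (G.sub p h).s ↔ a ∈ G.s ∧ p a := by
  simp only [UG.sub, Finset.mem_filter]

lemma UG.card_sub (G : UG V) (p : V → Prop) (h : ∃ v ∈ G.s, p v) :
    (G.sub p h).s.card ≤ G.s.card := Finset.card_le_card (Finset.filter_subset _ _)

lemma UG.mem_prod (G : UG V) (H : UG V') (a : V × V') :
    a ∈ (G.prod H).s ↔ a.1 ∈ G.s ∧ a.2 ∈ H.s := Finset.mem_product

lemma UG.card_prod (G : UG V) (H : UG V') : (G.prod H).s.card = G.s.card * H.s.card :=
  Finset.card_product _ _

/-- Counting neighbours with a property in a box product. -/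
lemma UG.prod_cnt (G : UG V) (H : UG V') (x : V) (hx : x ∈ G.s) (y : V') (hy : y ∈ H.s)
    (p : V × V' → Prop) :
    (G.prod H).cnt (x, y) p = G.cnt x (fun x' => p (x', y)) + H.cnt y (fun y' => p (x, y')) := by
  unfold UG.cnt
  have e : (G.prod H).s.filter (fun b => (G.prod H).adj (x, y) b ∧ p b) =
      ((G.s.filter (fun x' => G.adj x x' ∧ p (x', y))).image (fun x' => (x', y))) ∪
      ((H.s.filter (fun y' => H.adj y y' ∧ p (x, y'))).image (fun y' => (x, y'))) := by
    ext ⟨a, b⟩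
    simp only [UG.prod, box, Finset.mem_product, Finset.mem_union, Finset.mem_image,
      Finset.mem_filter, Prod.mk.injEq]
    constructor
    · rintro ⟨⟨ha, hb⟩, ⟨h1, rfl⟩ | ⟨rfl, h2⟩, hp⟩
      · exact Or.inl ⟨a, ⟨ha, h1, hp⟩, rfl, rfl⟩
      · exact Or.inr ⟨b, ⟨hb, h2, hp⟩, rfl, rfl⟩
    · rintro (⟨a', ⟨ha, h1, hp⟩, rfl, rfl⟩ | ⟨b', ⟨hb, h2, hp⟩, rfl, rfl⟩)
      · exact ⟨⟨ha, hy⟩, Or.inl ⟨h1, rfl⟩, hp⟩
      · exact ⟨⟨hx, hb⟩, Or.inr ⟨rfl, h2⟩, hp⟩
  rw [e, Finset.card_union_of_disjoint, Finset.card_image_of_injective,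
    Finset.card_image_of_injective]
  · intro a b h; exact (Prod.mk.inj h).2
  · intro a b h; exact (Prod.mk.inj h).1
  · rw [Finset.disjoint_left]
    intro q h1 h2
    obtain ⟨a, ha, rfl⟩ := Finset.mem_image.1 h1
    obtain ⟨b, hb, h⟩ := Finset.mem_image.1 h2
    obtain ⟨rfl, rfl⟩ := Prod.mk.inj h
    exact G.irrefl hx (Finset.mem_filter.1 ha).2.1

/-- The link construction: each vertex `x` of `G` gains the neighbours of some vertex of `W`
that lie in the set `A x`. -/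
theorem link (G : UG V) (W : UG V') (A : V → V' → Prop)
    (hA : ∀ x ∈ G.s, ∀ x' ∈ G.s, G.adj x x' → ∀ w ∈ W.s, A x w → ¬ A x' w) :
    ∃ (U : Type) (S : UG U), S.s.card ≤ G.s.card ^ 2 * W.s.card ∧
      ∀ v ∈ S.s, ∃ x ∈ G.s, ∃ w ∈ W.s, S.deg v = G.deg x + W.cnt w (A x) := by
  by_cases hne : ∃ x ∈ G.s, ∃ w ∈ W.s, A x w
  swap
  · refine ⟨V, G, ?_, fun v hv => ?_⟩
    · have h1 : 1 ≤ G.s.card := G.ne.card_pos
      have h2 : 1 ≤ W.s.card := W.ne.card_pos
      calc G.s.card = G.s.card * 1 * 1 := by ring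
        _ ≤ G.s.card * G.s.card * W.s.card := by gcongr
        _ = _ := by ring
    · obtain ⟨w, hw⟩ := W.ne
      refine ⟨v, hv, w, hw, ?_⟩
      rw [W.cnt_zero w (fun w' hw' _ h => hne ⟨v, hv, w', hw', h⟩)]
      simp
  let p : V × (V' × V) → Prop := fun q =>
    (W.col q.2.1 = false ∧ A q.2.2 q.2.1) ∨ (W.col q.2.1 = true ∧ A q.1 q.2.1)
  have hp : ∃ v ∈ (G.prod (W.prod G)).s, p v := by
    obtain ⟨x, hx, w, hw, h⟩ := hne
    refine ⟨(x, (w, x)), ?_, ?_⟩
    · simp [UG.mem_prod, hx, hw]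
    · simp only [p]
      cases W.col w <;> simp [h]
  refine ⟨_, (G.prod (W.prod G)).sub p hp, ?_, ?_⟩
  · refine (UG.card_sub _ _ _).trans ?_
    rw [UG.card_prod, UG.card_prod]
    exact le_of_eq (by ring)
  · rintro ⟨x, w, y⟩ hv
    rw [UG.mem_sub, UG.mem_prod, UG.mem_prod] at hv
    obtain ⟨⟨hx, hw, hy⟩, hpv⟩ := hv
    simp only at hx hw hy
    have hwy : (w, y) ∈ (W.prod G).s := by simp [UG.mem_prod, hw, hy]
    rw [UG.sub_deg, UG.prod_cnt G (W.prod G) x hx (w, y) hwy p,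
      UG.prod_cnt W G w hw y hy (fun q => p (x, q))]
    rcases hpv with ⟨hc, ha⟩ | ⟨hc, ha⟩
    · simp only at hc ha
      refine ⟨x, hx, w, hw, ?_⟩
      have e1 : G.cnt x (fun x' => p (x', (w, y))) = G.deg x :=
        G.cnt_congr x (fun x' _ _ => iff_of_true (Or.inl ⟨hc, ha⟩) trivial)
      have e2 : G.cnt y (fun y' => p (x, (w, y'))) = 0 := by
        apply G.cnt_zero
        rintro y' hy' hadj (⟨-, h⟩ | ⟨h, -⟩)
        · exact hA y hy y' hy' hadj w hw ha h
        · simp only at h; rw [hc] at h; exact Bool.false_ne_true h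
      have e3 : W.cnt w (fun w' => p (x, (w', y))) = W.cnt w (A x) := by
        apply W.cnt_congr
        intro w' hw' hadj
        have := W.bip w hw w' hw' hadj
        rw [hc] at this
        have h' : W.col w' = true := by
          revert this; cases W.col w' <;> simp
        simp [p, h']
      rw [e1, e2, e3]; simp
    · simp only at hc ha
      refine ⟨y, hy, w, hw, ?_⟩
      have e1 : G.cnt y (fun y' => p (x, (w, y'))) = G.deg y :=
        G.cnt_congr y (fun x' _ _ => iff_of_true (Or.inr ⟨hc, ha⟩) trivial)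
      have e2 : G.cnt x (fun x' => p (x', (w, y))) = 0 := by
        apply G.cnt_zero
        rintro x' hx' hadj (⟨h, -⟩ | ⟨-, h⟩)
        · simp only at h; rw [hc] at h; exact Bool.false_ne_true h.symm
        · exact hA x hx x' hx' hadj w hw ha h
      have e3 : W.cnt w (fun w' => p (x, (w', y))) = W.cnt w (A y) := by
        apply W.cnt_congr
        intro w' hw' hadj
        have := W.bip w hw w' hw' hadj
        rw [hc] at this
        have h' : W.col w' = false := by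
          revert this; cases W.col w' <;> simp
        simp [p, h']
      rw [e1, e2, e3]; simp [add_comm]

end Pool.Agent.P.MP_44bffd_co
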