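import Pool.Agent.P.MP_44bffd_co.Steps

/-! The two iterations. -/

namespace Pool.Agent.P.MP_44bffd_co

open Finset
open scoped Classical

lemma Nr.floor {D g : ℕ} {σ : ℝ} (h : Nr D σ g) : Nr D ((min D ⌊σ⌋₊ : ℕ) : ℝ) g := by
  obtain ⟨V, G, a, b⟩ := h
  refine ⟨V, G, a, fun v hv => ⟨(b v hv).1, ?_⟩⟩
  have h1 := def_le (b v hv).1 (b v hv).2 (Nat.lt_floor_add_one σ)
  have h2 : D - G.deg v ≤ min D ⌊σ⌋₊ := le_min (by omega) h1
  rw [← Nat.cast_sub (b v hv).1]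
  exact_mod_cast h2

lemma phase_one {ε B Γ : ℝ} {g M κ : ℕ} (hε : 0 ≤ ε) (hB : 0 ≤ B)
    (h : ∀ D ≤ 2 * M, Nr D (ε * D + B * Real.sqrt D) g) (hκ : M + 1 ≤ 2 ^ κ)
    (hΓ : (g : ℝ) + κ + 2 ≤ Γ) : ∀ D ≤ M,
    Nr D (ε ^ 2 * D + ((ε + 0.7072) * B + (4 * Real.sqrt Γ + 2)) * Real.sqrt D) (3 * g) := by
  intro D hD
  have hΓ0 : 0 ≤ Γ := le_trans (by positivity) hΓ
  rcases Nat.eq_zero_or_pos D with rfl | hD0
  · exact (nr_point 0).mono (by simp) (by omega)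
  have hDr : (1 : ℝ) ≤ D := by exact_mod_cast hD0
  have hD1 : 1 ≤ Real.sqrt D := Real.one_le_sqrt.2 hDr
  have h1 := (h D (by omega)).floor
  set s := min D ⌊ε * D + B * Real.sqrt D⌋₊ with hs
  have s1 : s ≤ D := min_le_left _ _
  have s1' : (s : ℝ) ≤ D := by exact_mod_cast s1
  have s2 : (s : ℝ) ≤ ε * D + B * Real.sqrt D := by
    have : s ≤ ⌊ε * D + B * Real.sqrt D⌋₊ := min_le_right _ _
    exact le_trans (by exact_mod_cast this) (Nat.floor_le (by positivity))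
  have h2 := improve (κ := κ) (Γ := Γ) h1 (by linarith) le_rfl (h (2 * s) (by omega))
    (by omega) hΓ
  refine h2.mono ?_ (by omega)
  have a1 : Real.sqrt ((2 * s : ℕ) : ℝ) ≤ 1.4144 * Real.sqrt D := by
    rw [Real.sqrt_le_iff]
    refine ⟨by positivity, ?_⟩
    rw [mul_pow, Real.sq_sqrt (by positivity)]
    push_cast; nlinarith
  have a2 : Real.sqrt (s * Γ) ≤ Real.sqrt Γ * Real.sqrt D := by
    rw [← Real.sqrt_mul hΓ0]
    apply Real.sqrt_le_sqrt; nlinarith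
  have a3 : ε * s ≤ ε * (ε * D + B * Real.sqrt D) := by gcongr
  have a4 : B * Real.sqrt ((2 * s : ℕ) : ℝ) ≤ B * (1.4144 * Real.sqrt D) := by gcongr
  push_cast at a4 ⊢
  nlinarith

lemma phase_two {B Γ σ : ℝ} {g g' d κ : ℕ} (hB : 0 ≤ B)
    (h : ∀ D ≤ 2 * d, Nr D (B * Real.sqrt D) g') (hκ : d + 1 ≤ 2 ^ κ)
    (hΓ : (g' : ℝ) + κ + 2 ≤ Γ) (hσ : 1 ≤ σ) (h0 : Nr d σ g) :
    Nr d ((B + (4 * Real.sqrt Γ + 2)) * Real.sqrt σ) (2 * g + g') := by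
  have hΓ0 : 0 ≤ Γ := le_trans (by positivity) hΓ
  have hD1 : 1 ≤ Real.sqrt σ := Real.one_le_sqrt.2 hσ
  have h1 := h0.floor
  set s := min d ⌊σ⌋₊ with hs
  have s1 : s ≤ d := min_le_left _ _
  have s2 : (s : ℝ) ≤ σ := by
    have : s ≤ ⌊σ⌋₊ := min_le_right _ _
    exact le_trans (by exact_mod_cast this) (Nat.floor_le (by positivity))
  have h2 := improve (κ := κ) (Γ := Γ) h1 (by linarith) le_rfl (h (2 * s) (by omega))
    (by omega) hΓ
  refine h2.mono ?_ le_rfl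
  have a1 : Real.sqrt ((2 * s : ℕ) : ℝ) ≤ 2 * Real.sqrt σ := by
    rw [Real.sqrt_le_iff]
    refine ⟨by positivity, ?_⟩
    rw [mul_pow, Real.sq_sqrt (by positivity)]
    push_cast; nlinarith
  have a2 : Real.sqrt (s * Γ) ≤ Real.sqrt Γ * Real.sqrt σ := by
    rw [← Real.sqrt_mul hΓ0]
    apply Real.sqrt_le_sqrt; nlinarith
  have a4 : B * Real.sqrt ((2 * s : ℕ) : ℝ) ≤ B * (2 * Real.sqrt σ) := by gcongr
  nlinarith

lemma phase_two_iter {B Γ : ℝ} {g' d κ : ℕ} (hB : 0 ≤ B)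
    (h : ∀ D ≤ 2 * d, Nr D (B * Real.sqrt D) g') (hκ : d + 1 ≤ 2 ^ κ)
    (hΓ : (g' : ℝ) + κ + 2 ≤ Γ) (m : ℕ) : ∀ g : ℕ,
    Nr d ((B + (4 * Real.sqrt Γ + 2)) ^ 2 * 2 ^ (2 ^ m)) g →
    Nr d ((B + (4 * Real.sqrt Γ + 2)) ^ 2 * 2) (2 ^ m * (g + g')) := by
  have hK : 1 ≤ B + (4 * Real.sqrt Γ + 2) := by linarith [Real.sqrt_nonneg Γ]
  set K := B + (4 * Real.sqrt Γ + 2) with hKdef
  induction m with
  | zero => intro g h0; exact h0.mono (by simp) (by omega)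
  | succ m ih =>
    intro g h0
    have h1 := phase_two hB h hκ hΓ (one_le_mul_of_one_le_of_one_le (one_le_pow₀ hK)
      (one_le_pow₀ (by norm_num))) h0
    have e : Real.sqrt (K ^ 2 * 2 ^ (2 ^ (m + 1))) = K * 2 ^ (2 ^ m) := by
      rw [Real.sqrt_eq_iff_eq_sq (by positivity) (by positivity), pow_succ 2 m, pow_mul]; ring
    rw [e, ← hKdef] at h1
    exact (ih (2 * g + g') (h1.mono (le_of_eq (by ring)) le_rfl)).mono le_rfl
      (le_of_eq (by ring))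

lemma exists_pow_between (s : ℕ) : ∃ j : ℕ, s ≤ 2 ^ j ∧ 2 ^ j ≤ 2 * s + 1 := by
  refine ⟨Nat.clog 2 s, Nat.le_pow_clog (by norm_num) s, ?_⟩
  rcases Nat.lt_or_ge 1 s with h | h
  · have h1 := Nat.pow_pred_clog_lt_self (b := 2) (by norm_num) h
    have h2 := Nat.clog_pos (b := 2) (by norm_num) h
    obtain ⟨c, hc⟩ : ∃ c, Nat.clog 2 s = c + 1 := ⟨Nat.clog 2 s - 1, by omega⟩
    rw [hc] at h1 ⊢
    simp only [Nat.pred_eq_sub_one, Nat.add_sub_cancel] at h1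
    rw [pow_succ]; omega
  · rw [Nat.clog_of_right_le_one h]; omega

theorem regular_exists (d k J : ℕ) (hd : d ≤ 2 ^ k) (hJ : 3 * (k + 1) ≤ 2 ^ J) :
    ∃ (V : Type) (G : UG V), G.s.card ≤ 2 ^ (2400000 * (2 ^ J) ^ 5) ∧ ∀ v ∈ G.s, G.deg v = d := by
  set n := 2 ^ J with hn
  have hJn : J < n := Nat.lt_two_pow_self
  have hn1 : 1 ≤ n := by omega
  have hnr : (1 : ℝ) ≤ n := by exact_mod_cast hn1
  set Γ : ℝ := 49 * (n : ℝ) ^ 4 with hΓ
  have hsq : Real.sqrt Γ = 7 * (n : ℝ) ^ 2 := by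
    rw [Real.sqrt_eq_iff_eq_sq (by positivity) (by positivity), hΓ]; ring
  set β : ℝ := 4 * Real.sqrt Γ + 2 with hβ
  have hβ0 : 0 ≤ β := by positivity
  have hn2 : (1 : ℝ) ≤ (n : ℝ) ^ 2 := one_le_pow₀ hnr
  have hβ1 : β ≤ 30 * (n : ℝ) ^ 2 := by rw [hβ, hsq]; linarith
  have hβ2 : 1 ≤ β := by rw [hβ, hsq]; linarith
  have hΓb : ∀ g κ : ℕ, g ≤ 40 * n ^ 4 → κ ≤ 2 * n + 1 → (g : ℝ) + κ + 2 ≤ Γ := by
    intro g κ h1 h2
    have h3 : n ≤ n ^ 4 := Nat.le_self_pow (by norm_num) n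
    have : g + κ + 2 ≤ 49 * n ^ 4 := by omega
    rw [hΓ]; exact_mod_cast this
  have h3 : ∀ j ≤ J, 3 ^ j * (40 * n ^ 2) ≤ 40 * n ^ 4 := by
    intro j hj
    have : 3 ^ j ≤ n ^ 2 := by
      calc 3 ^ j ≤ 4 ^ J := by gcongr <;> norm_num
        _ = n ^ 2 := by rw [hn, ← pow_mul, mul_comm, pow_mul]; norm_num
    nlinarith [Nat.zero_le (n ^ 2)]
  have one : ∀ j ≤ J, ∀ D ≤ 2 ^ (k + 1 + (J - j)),
      Nr D ((3 / 4) ^ (2 ^ j) * D + ((16 - 20 * (3 / 4) ^ (2 ^ j)) * β) * Real.sqrt D)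
        (3 ^ j * (40 * n ^ 2)) := by
    intro j
    induction j with
    | zero =>
      intro _ D hD
      have ht : k + 1 + (J - 0) ≤ 2 * n := by omega
      set t := k + 1 + (J - 0)
      have hg : 2 * (t * (4 * t + 1)) + 4 ≤ 40 * n ^ 2 := by nlinarith
      have hg' : 40 * n ^ 2 ≤ 40 * n ^ 4 := by simpa using h3 0 (Nat.zero_le _)
      have := start (Γ := Γ) hD (by
        have := hΓb _ 0 (hg.trans hg') (by omega)
        linarith [Nat.cast_zero (R := ℝ)])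
      refine this.mono (le_of_eq ?_) (by omega)
      rw [← hβ]; norm_num
    | succ j ih =>
      intro hj D hD
      have hε1 : ((3 : ℝ) / 4) ^ (2 ^ j) ≤ 3 / 4 :=
        pow_le_of_le_one (by norm_num) (by norm_num) (by positivity)
      have hε0 : (0 : ℝ) ≤ (3 / 4) ^ (2 ^ j) := by positivity
      have := phase_one (Γ := Γ) (M := 2 ^ (k + 1 + (J - (j + 1)))) (κ := k + 1 + J + 1) hε0
        (mul_nonneg (by linarith) hβ0)
        (fun D hD => ih (by omega) D (by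
          rw [show k + 1 + (J - j) = (k + 1 + (J - (j + 1))) + 1 by omega, pow_succ]; omega))
        (by
          have a1 : 2 ^ (k + 1 + (J - (j + 1))) ≤ 2 ^ (k + 1 + J) :=
            Nat.pow_le_pow_right (by norm_num) (by omega)
          have a2 := Nat.one_le_two_pow (n := k + 1 + J)
          rw [pow_succ]; omega)
        (hΓb _ _ (h3 j (by omega)) (by omega)) D hD
      refine this.mono ?_ (le_of_eq (by ring))
      rw [← hβ, pow_succ 2 j, pow_mul]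
      set ε : ℝ := (3 / 4) ^ (2 ^ j)
      have : (ε + 0.7072) * ((16 - 20 * ε) * β) + β ≤ (16 - 20 * ε ^ 2) * β := by nlinarith
      gcongr
  have two : ∀ D ≤ 2 * d, Nr D ((16 * β + 1) * Real.sqrt D) (40 * n ^ 4) := by
    intro D hD
    have hD' : D ≤ 2 ^ (k + 1) := by rw [pow_succ]; omega
    rcases Nat.eq_zero_or_pos D with rfl | hD0
    · exact (nr_point 0).mono (by simp) (by omega)
    have hDr : (1 : ℝ) ≤ D := by exact_mod_cast hD0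
    have hD1 : 1 ≤ Real.sqrt D := Real.one_le_sqrt.2 hDr
    refine (one J le_rfl D (by simpa using hD')).mono ?_ (h3 J le_rfl)
    have a1 : ((3 : ℝ) / 4) ^ (2 ^ J) * D ≤ 1 := by
      have b1 : ((3 : ℝ) / 4) ^ (2 ^ J) ≤ (1 / 2) ^ (k + 1) := by
        calc ((3 : ℝ) / 4) ^ (2 ^ J) ≤ (3 / 4) ^ (3 * (k + 1)) :=
              pow_le_pow_of_le_one (by norm_num) (by norm_num) hJ
          _ = ((3 / 4) ^ 3) ^ (k + 1) := by rw [pow_mul]
          _ ≤ _ := by gcongr; norm_num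
      have b2 : (D : ℝ) ≤ 2 ^ (k + 1) := by exact_mod_cast hD'
      calc ((3 : ℝ) / 4) ^ (2 ^ J) * D ≤ (1 / 2) ^ (k + 1) * 2 ^ (k + 1) := by gcongr
        _ = 1 := by rw [← mul_pow]; norm_num
    have a2 : (0 : ℝ) ≤ (3 / 4) ^ (2 ^ J) * β * Real.sqrt D := by positivity
    nlinarith
  have hK1 : 1 ≤ (16 * β + 1) + β := by linarith
  have three := phase_two_iter (Γ := Γ) (κ := k + 1) (by positivity) two
    (by have := Nat.one_le_two_pow (n := k); rw [pow_succ]; omega)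
    (hΓb _ _ le_rfl (by omega)) J 0 ((nr_point d).mono (by
      rw [← hβ]
      have b1 : (d : ℝ) ≤ 2 ^ (2 ^ J) := by
        have : d ≤ 2 ^ (2 ^ J) := hd.trans (Nat.pow_le_pow_right (by norm_num) (by omega))
        exact_mod_cast this
      have b2 : (1 : ℝ) ≤ (16 * β + 1 + β) ^ 2 := one_le_pow₀ hK1
      calc (d : ℝ) ≤ 1 * 2 ^ (2 ^ J) := by linarith
        _ ≤ _ := by gcongr) le_rfl)
  rw [← hβ] at three
  obtain ⟨j, hj1, hj2⟩ := exists_pow_between (2 * (583200 * n ^ 4))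
  have hK2 : ((16 * β + 1) + β) ^ 2 * 2 ≤ 583200 * (n : ℝ) ^ 4 := by
    have : (16 * β + 1) + β ≤ 540 * (n : ℝ) ^ 2 := by linarith
    have : ((16 * β + 1) + β) ^ 2 ≤ (540 * (n : ℝ) ^ 2) ^ 2 := by gcongr
    nlinarith
  obtain ⟨V, G, hc, hG⟩ := finish (s := 583200 * n ^ 4) three (by push_cast; linarith) hj1
  refine ⟨V, G, hc.trans (Nat.pow_le_pow_right (by norm_num) ?_), hG⟩
  rw [← hn]
  have b1 : n ^ 4 ≤ n ^ 5 := Nat.pow_le_pow_right hn1 (by norm_num)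
  have b2 : 1 ≤ n ^ 5 := Nat.one_le_pow _ _ hn1
  have b3 : 2 * (n * (0 + 40 * n ^ 4)) = 80 * n ^ 5 := by ring
  omega

end Pool.Agent.P.MP_44bffd_co
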