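import Mathlib

/-! A random labelling lemma (exponential moment bound, written as a finite average). -/

namespace Pool.Agent.P.MP_44bffd_co

open Finset
open scoped Classical

lemma moment_one {Λ : Type} [Fintype Λ] [Nonempty Λ] (L : Finset Λ) (t : ℝ) (ht : |t| ≤ 1) :
    ∑ a : Λ, Real.exp (t * ((if a ∈ L then 1 else 0) - (L.card : ℝ) / Fintype.card Λ)) ≤
      Fintype.card Λ * Real.exp (t ^ 2 * ((L.card : ℝ) / Fintype.card Λ)) := by
  have hQ : (0 : ℝ) < Fintype.card Λ := by exact_mod_cast Fintype.card_pos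
  set Q : ℝ := (Fintype.card Λ : ℝ) with hQdef
  set p : ℝ := (L.card : ℝ) / Q with hp
  have hp0 : 0 ≤ p := by positivity
  have hp1 : p ≤ 1 := by
    rw [hp, div_le_one hQ, hQdef]; exact_mod_cast Finset.card_le_univ L
  have hL : (L.card : ℝ) = p * Q := by rw [hp]; field_simp
  have hsum : ∑ a : Λ, (if a ∈ L then (1 : ℝ) else 0) = p * Q := by
    rw [← hL]; simp
  have h1 : ∀ a : Λ, Real.exp (t * ((if a ∈ L then 1 else 0) - p)) ≤
      1 + t * ((if a ∈ L then 1 else 0) - p) +
        t ^ 2 * ((1 - 2 * p) * (if a ∈ L then 1 else 0) + p ^ 2) := by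
    intro a
    have hy : |t * ((if a ∈ L then 1 else 0) - p)| ≤ 1 := by
      rw [abs_mul]
      have : |(if a ∈ L then (1 : ℝ) else 0) - p| ≤ 1 := by
        split_ifs <;> rw [abs_le] <;> constructor <;> linarith
      exact mul_le_one₀ ht (abs_nonneg _) this
    have h2 := (abs_le.1 (Real.abs_exp_sub_one_sub_id_le hy)).2
    have h3 : (t * ((if a ∈ L then 1 else 0) - p)) ^ 2 =
        t ^ 2 * ((1 - 2 * p) * (if a ∈ L then 1 else 0) + p ^ 2) := by
      split_ifs <;> ring
    linarith
  calc _ ≤ ∑ a : Λ, (1 + t * ((if a ∈ L then 1 else 0) - p) +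
        t ^ 2 * ((1 - 2 * p) * (if a ∈ L then 1 else 0) + p ^ 2)) := Finset.sum_le_sum fun a _ => h1 a
    _ = Q * (1 + t ^ 2 * (p - p ^ 2)) := by
      simp only [Finset.sum_add_distrib, ← Finset.mul_sum, Finset.sum_sub_distrib, hsum,
        Finset.sum_const, Finset.card_univ, nsmul_eq_mul, ← hQdef]
      ring
    _ ≤ Q * Real.exp (t ^ 2 * p) := by
      gcongr
      have := Real.add_one_le_exp (t ^ 2 * p)
      nlinarith [sq_nonneg (t * p)]

lemma moment_all {V Λ : Type} [Fintype V] [Fintype Λ] [Nonempty Λ] (N : Finset V) (L : Finset Λ)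
    (t : ℝ) (ht : |t| ≤ 1) :
    ∑ h : V → Λ, Real.exp (t * (((N.filter (fun v => h v ∈ L)).card : ℝ) -
        N.card * ((L.card : ℝ) / Fintype.card Λ))) ≤
      (Fintype.card Λ : ℝ) ^ Fintype.card V *
        Real.exp (t ^ 2 * (N.card * ((L.card : ℝ) / Fintype.card Λ))) := by
  set p : ℝ := (L.card : ℝ) / Fintype.card Λ with hp
  let φ : V → Λ → ℝ := fun v a =>
    if v ∈ N then Real.exp (t * ((if a ∈ L then 1 else 0) - p)) else 1
  have e1 : ∀ h : V → Λ, Real.exp (t * (((N.filter (fun v => h v ∈ L)).card : ℝ) - N.card * p)) =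
      ∏ v, φ v (h v) := by
    intro h
    simp only [φ]
    rw [Finset.prod_ite_mem, Finset.univ_inter, ← Real.exp_sum, ← Finset.mul_sum,
      Finset.sum_sub_distrib, Finset.sum_const, nsmul_eq_mul, Finset.card_filter]
    push_cast
    rfl
  simp only [e1]
  have e2 : ∑ h : V → Λ, ∏ v, φ v (h v) = ∏ v, ∑ a, φ v a := by
    rw [Finset.prod_univ_sum]; simp
  rw [e2]
  have e3 : ∀ v, ∑ a, φ v a ≤
      (Fintype.card Λ : ℝ) * (if v ∈ N then Real.exp (t ^ 2 * p) else 1) := by
    intro v
    simp only [φ]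
    split_ifs
    · exact moment_one L t ht
    · simp
  calc ∏ v, ∑ a, φ v a ≤ ∏ v, ((Fintype.card Λ : ℝ) * (if v ∈ N then Real.exp (t ^ 2 * p) else 1)) := by
        apply Finset.prod_le_prod
        · intro v _
          apply Finset.sum_nonneg
          intro a _
          simp only [φ]
          split_ifs <;> positivity
        · intro v _; exact e3 v
    _ = _ := by
      rw [Finset.prod_mul_distrib, Finset.prod_const, Finset.card_univ, Finset.prod_ite_mem,
        Finset.univ_inter, Finset.prod_const, ← Real.exp_nat_mul]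
      congr 2; ring

theorem exists_label_fin {V Λ ι : Type} [Fintype V] [Fintype Λ] [Nonempty Λ] (I : Finset ι)
    (N : ι → Finset V) (L : ι → Finset Λ) (μ l : ℝ) (hl0 : 0 < l) (hl : l ≤ 2 * μ)
    (hμ : ∀ i ∈ I, (N i).card * (((L i).card : ℝ) / Fintype.card Λ) ≤ μ)
    (hI : 2 * I.card * Real.exp (-(l ^ 2 / (4 * μ))) < 1) :
    ∃ h : V → Λ, ∀ i ∈ I, |((((N i).filter (fun v => h v ∈ L i)).card : ℝ) -
        (N i).card * (((L i).card : ℝ) / Fintype.card Λ))| ≤ l := by
  have hμ0 : 0 < μ := by linarith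
  set t : ℝ := l / (2 * μ) with ht
  have ht0 : 0 < t := by positivity
  have ht1 : t ≤ 1 := by rw [ht, div_le_one (by positivity)]; exact hl
  have hta : |t| ≤ 1 := by rw [abs_of_pos ht0]; exact ht1
  have hta' : |-t| ≤ 1 := by rwa [abs_neg]
  let X : (V → Λ) → ι → ℝ := fun h i => (((N i).filter (fun v => h v ∈ L i)).card : ℝ) -
        (N i).card * (((L i).card : ℝ) / Fintype.card Λ)
  have hQ : (0 : ℝ) < (Fintype.card Λ : ℝ) ^ Fintype.card V := by
    have : (0 : ℝ) < Fintype.card Λ := by exact_mod_cast Fintype.card_pos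
    positivity
  have key : ∑ h : V → Λ, ∑ i ∈ I, (Real.exp (t * X h i) + Real.exp (-t * X h i)) <
      ∑ _h : V → Λ, Real.exp (t * l) := by
    rw [Finset.sum_comm]
    have h1 : ∀ i ∈ I, ∑ h : V → Λ, (Real.exp (t * X h i) + Real.exp (-t * X h i)) ≤
        2 * ((Fintype.card Λ : ℝ) ^ Fintype.card V * Real.exp (t ^ 2 * μ)) := by
      intro i hi
      rw [Finset.sum_add_distrib]
      have a1 := moment_all (N i) (L i) t hta
      have a2 := moment_all (N i) (L i) (-t) hta'
      have a3 : Real.exp (t ^ 2 * ((N i).card * (((L i).card : ℝ) / Fintype.card Λ))) ≤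
          Real.exp (t ^ 2 * μ) := by
        gcongr; exact hμ i hi
      rw [neg_sq] at a2
      have a4 := mul_le_mul_of_nonneg_left a3 hQ.le
      simp only [X]
      linarith
    calc _ ≤ ∑ _i ∈ I, 2 * ((Fintype.card Λ : ℝ) ^ Fintype.card V * Real.exp (t ^ 2 * μ)) :=
          Finset.sum_le_sum h1
      _ = (Fintype.card Λ : ℝ) ^ Fintype.card V *
            ((2 * I.card * Real.exp (-(l ^ 2 / (4 * μ)))) * Real.exp (t * l)) := by
          rw [Finset.sum_const, nsmul_eq_mul, mul_assoc (2 * (I.card : ℝ)), ← Real.exp_add]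
          have : -(l ^ 2 / (4 * μ)) + t * l = t ^ 2 * μ := by
            rw [ht]; field_simp; ring
          rw [this]; ring
      _ < (Fintype.card Λ : ℝ) ^ Fintype.card V * (1 * Real.exp (t * l)) := by
          gcongr
      _ = _ := by
          rw [Finset.sum_const, Finset.card_univ, Fintype.card_fun, nsmul_eq_mul]
          push_cast; ring
  obtain ⟨h, -, hh⟩ := Finset.exists_lt_of_sum_lt key
  refine ⟨h, fun i hi => ?_⟩
  have h2 : Real.exp (t * X h i) + Real.exp (-t * X h i) < Real.exp (t * l) := by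
    refine lt_of_le_of_lt ?_ hh
    apply Finset.single_le_sum (f := fun i => Real.exp (t * X h i) + Real.exp (-t * X h i)) _ hi
    intro j _; positivity
  have h3 : t * X h i < t * l := by
    rw [← Real.exp_lt_exp]; linarith [Real.exp_pos (-t * X h i)]
  have h4 : -t * X h i < t * l := by
    rw [← Real.exp_lt_exp]; linarith [Real.exp_pos (t * X h i)]
  change |X h i| ≤ l
  rw [abs_le]
  constructor <;> nlinarith

theorem exists_label {V Λ ι : Type} [Fintype Λ] [Nonempty Λ] (s : Finset V) (I : Finset ι)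
    (N : ι → Finset V) (hN : ∀ i ∈ I, N i ⊆ s) (L : ι → Finset Λ) (μ l : ℝ) (hl0 : 0 < l)
    (hl : l ≤ 2 * μ)
    (hμ : ∀ i ∈ I, (N i).card * (((L i).card : ℝ) / Fintype.card Λ) ≤ μ)
    (hI : 2 * I.card * Real.exp (-(l ^ 2 / (4 * μ))) < 1) :
    ∃ h : V → Λ, ∀ i ∈ I, |((((N i).filter (fun v => h v ∈ L i)).card : ℝ) -
        (N i).card * (((L i).card : ℝ) / Fintype.card Λ))| ≤ l := by
  have hc : ∀ i ∈ I, ((N i).subtype (· ∈ s)).card = (N i).card := by
    intro i hi
    rw [Finset.card_subtype, Finset.filter_true_of_mem (fun v hv => hN i hi hv)]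
  obtain ⟨h, hh⟩ := exists_label_fin (V := {v // v ∈ s}) I (fun i => (N i).subtype (· ∈ s)) L μ l
    hl0 hl (fun i hi => by rw [hc i hi]; exact hμ i hi) hI
  refine ⟨fun v => if hv : v ∈ s then h ⟨v, hv⟩ else Classical.arbitrary Λ, fun i hi => ?_⟩
  have h1 := hh i hi
  rw [hc i hi] at h1
  have h2 : (((N i).subtype (· ∈ s)).filter (fun v => h v ∈ L i)).card =
      ((N i).filter (fun v => (if hv : v ∈ s then h ⟨v, hv⟩ else Classical.arbitrary Λ) ∈ L i)).card := by
    apply Finset.card_bij (fun v _ => v.1)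
    · intro v hv
      rw [Finset.mem_filter, Finset.mem_subtype] at hv
      rw [Finset.mem_filter, dif_pos v.2]
      exact hv
    · intro v _ w _ hvw; exact Subtype.ext hvw
    · intro v hv
      rw [Finset.mem_filter] at hv
      have hs := hN i hi hv.1
      rw [dif_pos hs] at hv
      exact ⟨⟨v, hs⟩, by rw [Finset.mem_filter, Finset.mem_subtype]; exact hv, rfl⟩
  rw [← h2]; exact h1

end Pool.Agent.P.MP_44bffd_co
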