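import Pool.Agent.P.MP_44bffd_co.Asym
import Pool.Agent.P.MP_44bffd_co.Erdos

/-! The choice of the parameters. -/

namespace Pool.Agent.P.MP_44bffd_co

open Finset
open scoped Classical

lemma size_bd {d k : ℕ} (hd : d ≤ 2 ^ k) :
    d * (4 * d * (d + 2) ^ 6 + 2) ^ 6 ≤ 2 ^ (43 * k + 90) := by
  have h0 := Nat.one_le_two_pow (n := k)
  have h1 : d + 2 ≤ 2 ^ (k + 2) := by rw [pow_add]; omega
  have h2 : 4 * d * (d + 2) ^ 6 ≤ 2 ^ (7 * k + 14) := by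
    calc 4 * d * (d + 2) ^ 6 ≤ 4 * 2 ^ k * (2 ^ (k + 2)) ^ 6 := by gcongr
      _ = _ := by ring
  have h3 : 4 * d * (d + 2) ^ 6 + 2 ≤ 2 ^ (7 * k + 15) := by
    have : 2 ^ 1 ≤ 2 ^ (7 * k + 14) := Nat.pow_le_pow_right (by norm_num) (by omega)
    rw [pow_succ 2 (7 * k + 14)]
    omega
  calc _ ≤ 2 ^ k * (2 ^ (7 * k + 15)) ^ 6 := by gcongr
    _ = _ := by ring

theorem regular_exists' (d k J : ℕ) (hd : d ≤ 2 ^ k) (hJ : k + 1 ≤ 2 ^ J) :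
    ∃ (V : Type) (G : UG V), G.s.card ≤ 2 ^ (4 * 10 ^ 11 * (2 ^ J * (J + 1) ^ 2)) ∧
      ∀ v ∈ G.s, G.deg v = d := by
  obtain ⟨n, hn⟩ : ∃ n, n = 2 ^ J := ⟨_, rfl⟩
  obtain ⟨m, hm⟩ : ∃ m, m = n * (J + 1) := ⟨_, rfl⟩
  rw [← hn] at hJ ⊢
  have hnm : n ≤ m := hm ▸ Nat.le_mul_of_pos_right _ (by omega)
  have hm2 : n * (J + 1) ^ 2 = m + J * m := by rw [hm]; ring
  rw [hm2]
  by_cases hs : d ≤ 10 ^ 4 * (9 * 10 ^ 6 * m)
  · obtain ⟨j, j1, j2⟩ := exists_pow_between (2 * d)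
    obtain ⟨V, G, hc, hG⟩ := finish (s := d) (nr_point d) (by linarith) j1
    exact ⟨V, G, hc.trans (Nat.pow_le_pow_right (by norm_num) (by omega)), hG⟩
  obtain ⟨M, hM⟩ : ∃ M, M = 9 * 10 ^ 6 * m := ⟨_, rfl⟩
  obtain ⟨Γ, hΓ⟩ : ∃ Γ : ℝ, Γ = M := ⟨_, rfl⟩
  obtain ⟨g, hg⟩ : ∃ g, g = 27 * (2 * ((43 * k + 90 + 3) * (4 * (J + 7) + 17)) + 4) := ⟨_, rfl⟩
  have g1 : g ≤ 226100 * m := by
    have : (43 * k + 90 + 3) * (4 * (J + 7) + 17) ≤ (93 * n) * (45 * (J + 1)) :=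
      Nat.mul_le_mul (by omega) (by omega)
    have e : (93 * n) * (45 * (J + 1)) = 4185 * m := by rw [hm]; ring
    omega
  have hD : 10 ^ 4 * Γ ≤ d := by rw [hΓ]; exact_mod_cast (by omega)
  have Γ1 : 1 ≤ Γ := by rw [hΓ]; exact_mod_cast (by omega)
  have h1 := near_reg (43 * k + 90) (J + 7) _ Γ (size_bd hd) (by rw [pow_add, ← hn]; omega)
    (by rw [hΓ, ← hg]; exact_mod_cast (by omega)) (by
      have a : 5 ^ 6 ≤ (4 * d * (d + 2) ^ 6 + 2) ^ 6 := by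
        have : 1 * 1 ≤ d * (d + 2) ^ 6 := Nat.mul_le_mul (by omega) (Nat.one_le_pow _ _ (by omega))
        rw [mul_assoc]
        exact Nat.pow_le_pow_left (by omega) 6
      have b : (d : ℝ) * 5 ^ 6 ≤ ((d * (4 * d * (d + 2) ^ 6 + 2) ^ 6 : ℕ) : ℝ) := by
        exact_mod_cast Nat.mul_le_mul_left d a
      linarith)
  rw [← hg] at h1
  have h2 := half_exact rfl rfl h1 (Γ := Γ) (by rw [hΓ]; exact_mod_cast (by omega)) hD
  have q : Real.sqrt Γ ^ 2 = Γ := Real.sq_sqrt (by linarith)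
  have q1 : 1 ≤ Real.sqrt Γ := Real.one_le_sqrt.2 Γ1
  have h3 := chain (κ := k + 1) h2 (by
      apply lt_of_pow_lt_pow_left₀ 2 (by positivity)
      rw [mul_pow, Real.sq_sqrt (by positivity)]
      nlinarith)
    (by have := Nat.one_le_two_pow (n := k); rw [pow_succ]; omega)
    (by rw [hΓ]; exact_mod_cast (by omega)) J 0 ((nr_point d).mono (by
      have b1 : (d : ℝ) ≤ 2 ^ (2 ^ J) := by
        have : d ≤ 2 ^ (2 ^ J) := hd.trans (Nat.pow_le_pow_right (by norm_num) (by omega))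
        exact_mod_cast this
      have b2 : (1 : ℝ) ≤ (12 * Real.sqrt Γ + 2) ^ 2 := one_le_pow₀ (by linarith)
      calc (d : ℝ) ≤ 1 * 2 ^ (2 ^ J) := by linarith
        _ ≤ _ := by gcongr) le_rfl)
  obtain ⟨j, j1, j2⟩ := exists_pow_between (2 * (392 * M))
  obtain ⟨V, G, hc, hG⟩ := finish (s := 392 * M) h3 (by
    rw [Nat.cast_mul 392, ← hΓ]
    push_cast
    nlinarith) j1
  refine ⟨V, G, hc.trans (Nat.pow_le_pow_right (by norm_num) ?_), hG⟩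
  have : J * (36 * g) ≤ J * (36 * (226100 * m)) := by gcongr
  have e : J * (36 * (226100 * m)) = 8139600 * (J * m) := by ring
  omega

end Pool.Agent.P.MP_44bffd_co
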