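import Pool.Agent.P.MP_44bffd_co.Iter

/-! Box powers and graphs with prescribed degrees on the two sides. -/

namespace Pool.Agent.P.MP_44bffd_co

open Finset
open scoped Classical

variable {V U : Type}

lemma Realises.comap {s : Finset V} {r : V → V → Prop} (h : Realises s r) (e : U → V)
    {s' : Finset U} {r' : U → U → Prop} (h1 : Set.InjOn e s') (h2 : ∀ a ∈ s', e a ∈ s)
    (h3 : ∀ a ∈ s', ∀ b ∈ s', (r' a b ↔ r (e a) (e b))) : Realises s' r' := by
  obtain ⟨f, f1, f2⟩ := h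
  exact ⟨fun a => f (e a), fun a ha b hb hab => h1 ha hb (f1 (h2 a ha) (h2 b hb) hab),
    fun a ha b hb => (h3 a ha b hb).trans (f2 _ (h2 a ha) _ (h2 b hb))⟩

lemma UG.symm (G : UG V) {a b : V} (ha : a ∈ G.s) (hb : b ∈ G.s) (h : G.adj a b) : G.adj b a := by
  obtain ⟨f, -, f2⟩ := G.real
  rw [f2 b hb a ha, dist_comm]
  exact (f2 a ha b hb).1 h

/-- Adjacency in a box power. -/
def adjK {k : ℕ} (r : V → V → Prop) (a b : Fin k → V) : Prop :=
  ∃ j, r (a j) (b j) ∧ ∀ i, i ≠ j → a i = b i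

lemma realises_pow [Fintype V] {r : V → V → Prop} (h : Realises univ r) (k : ℕ) :
    Realises (univ : Finset (Fin k → V)) (adjK r) := by
  induction k with
  | zero => exact ⟨fun _ => 0, fun a _ b _ _ => Subsingleton.elim _ _, fun a _ b _ => by simp [adjK]⟩
  | succ k ih =>
    refine (h.prod ih).comap (fun a => (a 0, Fin.tail a)) (fun a _ b _ hab => ?_)
      (fun a _ => by simp) fun a _ b _ => ?_
    · obtain ⟨h1, h2⟩ := Prod.mk.inj hab
      rw [← Fin.cons_self_tail a, ← Fin.cons_self_tail b, h1, h2]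
    · simp only [adjK, box, Fin.exists_fin_succ, Fin.forall_fin_succ, funext_iff, Fin.tail]
      simp only [ne_eq, not_true_eq_false, Fin.succ_ne_zero, (Fin.succ_ne_zero _).symm,
        not_false_eq_true, forall_const, IsEmpty.forall_iff, true_and, Fin.succ_inj]
      refine or_congr_right ⟨fun ⟨i, a, b, c⟩ => ⟨b, i, a, c⟩, fun ⟨b, i, a, c⟩ => ⟨i, a, b, c⟩⟩

lemma card_pow_nbr [Fintype V] {k : ℕ} {r : V → V → Prop} (hr : ∀ v, ¬ r v v) (a : Fin k → V)
    (p : (Fin k → V) → Prop) :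
    (univ.filter (fun b => adjK r a b ∧ p b)).card =
      ∑ j, (univ.filter (fun z => r (a j) z ∧ p (Function.update a j z))).card := by
  rw [← card_sigma]
  symm
  refine card_bij (fun x _ => Function.update a x.1 x.2) ?_ ?_ ?_
  · rintro ⟨j, z⟩ hx
    simp only [mem_sigma, mem_filter, mem_univ, true_and] at hx ⊢
    exact ⟨⟨j, by simpa using hx.1, fun i hi => by simp [hi]⟩, hx.2⟩
  · rintro ⟨j, z⟩ hx ⟨j', z'⟩ _ e
    simp only [mem_sigma, mem_filter, mem_univ, true_and] at hx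
    have e1 := congrFun e j
    by_cases hj : j = j'
    · subst hj
      obtain rfl : z = z' := by simpa using e1
      rfl
    · have : z = a j := by simpa [hj] using e1
      exact absurd (this ▸ hx.1) (hr _)
  · intro b hb
    obtain ⟨⟨j, h1, h2⟩, h3⟩ := (mem_filter.1 hb).2
    have e : Function.update a j (b j) = b := by
      funext i
      by_cases hi : i = j
      · simp [hi]
      · simp [hi, h2 i hi]
    exact ⟨⟨j, b j⟩, by simp [h1, e, h3], e⟩

/-- There is a graph on at most `2 ^ g` points with degrees in `[a₁, a₂]` on one side and in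
`[b₁, b₂]` on the other side. -/
def Bi (a₁ a₂ b₁ b₂ : ℝ) (g : ℕ) : Prop :=
  ∃ (V : Type) (G : UG V), G.s.card ≤ 2 ^ g ∧ ∀ v ∈ G.s,
    (G.col v = true → a₁ ≤ G.deg v ∧ G.deg v ≤ a₂) ∧
      (G.col v = false → b₁ ≤ G.deg v ∧ G.deg v ≤ b₂)

lemma Bi.mono {a₁ a₂ b₁ b₂ a₁' a₂' b₁' b₂' : ℝ} {g : ℕ} (h : Bi a₁ a₂ b₁ b₂ g) (h1 : a₁' ≤ a₁)
    (h2 : a₂ ≤ a₂') (h3 : b₁' ≤ b₁) (h4 : b₂ ≤ b₂') : Bi a₁' a₂' b₁' b₂' g := by
  obtain ⟨V, G, a, b⟩ := h
  exact ⟨V, G, a, fun v hv => ⟨fun e => ⟨h1.trans ((b v hv).1 e).1, ((b v hv).1 e).2.trans h2⟩,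
    fun e => ⟨h3.trans ((b v hv).2 e).1, ((b v hv).2 e).2.trans h4⟩⟩⟩

lemma Bi.swap {a₁ a₂ b₁ b₂ : ℝ} {g : ℕ} (h : Bi a₁ a₂ b₁ b₂ g) : Bi b₁ b₂ a₁ a₂ g := by
  obtain ⟨V, G, a, b⟩ := h
  refine ⟨V, ⟨G.s, G.adj, fun v => !G.col v, G.real, fun x hx y hy h e => ?_, G.ne⟩, a,
    fun v hv => ⟨fun e => (b v hv).2 (by simpa using e), fun e => (b v hv).1 (by simpa using e)⟩⟩
  exact G.bip x hx y hy h (by simpa using e)

/-- The same graph on the type of its vertices. -/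
noncomputable def UG.att (G : UG V) : UG {v // v ∈ G.s} where
  s := univ
  adj := fun a b => G.adj a b
  col := fun a => G.col a
  real := G.real.comap Subtype.val Subtype.val_injective.injOn (fun a _ => a.2)
    fun _ _ _ _ => Iff.rfl
  bip := fun a _ b _ => G.bip a a.2 b b.2
  ne := by obtain ⟨v, hv⟩ := G.ne; exact ⟨⟨v, hv⟩, mem_univ _⟩

lemma UG.att_deg (G : UG V) (a : {v // v ∈ G.s}) : G.att.deg a = G.deg a := by
  rw [deg_eq, deg_eq]
  refine card_bij (fun x _ => x.1) ?_ (fun x _ y _ e => Subtype.ext e) ?_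
  · intro x hx
    exact mem_filter.2 ⟨x.2, (mem_filter.1 hx).2⟩
  · intro b hb
    exact ⟨⟨b, (mem_filter.1 hb).1⟩, mem_filter.2 ⟨mem_univ _, (mem_filter.1 hb).2⟩, rfl⟩

lemma UG.both (G : UG V) (h : ∀ v ∈ G.s, 0 < G.deg v) (c : Bool) : ∃ v ∈ G.s, G.col v = c := by
  obtain ⟨v, hv⟩ := G.ne
  obtain ⟨w, hw⟩ := card_pos.1 (deg_eq G v ▸ h v hv)
  obtain ⟨h1, h2⟩ := mem_filter.1 hw
  have := G.bip v hv w h1 h2
  by_cases e : G.col v = c
  · exact ⟨v, hv, e⟩
  · refine ⟨w, h1, ?_⟩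
    revert this e
    cases G.col v <;> cases G.col w <;> cases c <;> simp

lemma Bi.fin {a₁ a₂ b₁ b₂ : ℝ} {g : ℕ} (h : Bi a₁ a₂ b₁ b₂ g) (ha : 0 < a₁) (hb : 0 < b₁) :
    ∃ (V : Type) (_ : Fintype V) (r : V → V → Prop) (col : V → Bool), Realises univ r ∧
      (∀ a b, r a b → r b a ∧ col b = !col a) ∧ (∀ c, ∃ v, col v = c) ∧ Fintype.card V ≤ 2 ^ g ∧
      ∀ v, (col v = true → a₁ ≤ (univ.filter (r v)).card ∧ (univ.filter (r v)).card ≤ a₂) ∧
        (col v = false → b₁ ≤ (univ.filter (r v)).card ∧ (univ.filter (r v)).card ≤ b₂) := by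
  obtain ⟨V, G, a, b⟩ := h
  refine ⟨_, inferInstance, G.att.adj, G.att.col, G.att.real, fun x y h => ⟨G.symm x.2 y.2 h, ?_⟩,
    fun c => ?_, by simpa using a, fun v => ?_⟩
  · have := G.bip x x.2 y y.2 h
    change G.col y = !G.col x
    revert this
    cases G.col x <;> cases G.col y <;> simp
  · obtain ⟨v, hv, e⟩ := G.both (fun v hv => by
      have : (0 : ℝ) < G.deg v := by
        cases e : G.col v
        · exact hb.trans_le ((b v hv).2 e).1
        · exact ha.trans_le ((b v hv).1 e).1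
      exact_mod_cast this) c
    exact ⟨⟨v, hv⟩, e⟩
  · have := b v v.2
    rw [← G.att_deg v, deg_eq] at this
    exact this

end Pool.Agent.P.MP_44bffd_co
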