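import Pool.Agent.P.MP_44bffd_co.Base
import Pool.Agent.P.MP_44bffd_co.Label

/-! Nearly regular unit distance graphs and the three basic steps. -/

namespace Pool.Agent.P.MP_44bffd_co

open Finset
open scoped Classical

/-- There is a graph on at most `2 ^ g` points with all degrees between `D - σ` and `D`. -/
def Nr (D : ℕ) (σ : ℝ) (g : ℕ) : Prop :=
  ∃ (V : Type) (G : UG V), G.s.card ≤ 2 ^ g ∧
    ∀ v ∈ G.s, G.deg v ≤ D ∧ (D : ℝ) - G.deg v ≤ σ

lemma Nr.mono {D : ℕ} {σ σ' : ℝ} {g g' : ℕ} (h : Nr D σ g) (h1 : σ ≤ σ') (h2 : g ≤ g') :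
    Nr D σ' g' := by
  obtain ⟨V, G, a, b⟩ := h
  exact ⟨V, G, a.trans (Nat.pow_le_pow_right (by norm_num) h2),
    fun v hv => ⟨(b v hv).1, (b v hv).2.trans h1⟩⟩

lemma Nr.nonneg {D : ℕ} {σ : ℝ} {g : ℕ} (h : Nr D σ g) : 0 ≤ σ := by
  obtain ⟨V, G, -, b⟩ := h
  obtain ⟨v, hv⟩ := G.ne
  have h1 : (G.deg v : ℝ) ≤ D := by exact_mod_cast (b v hv).1
  linarith [(b v hv).2]

/-- One point. -/
def point : UG Unit where
  s := {()}
  adj := fun _ _ => False
  col := fun _ => true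
  real := ⟨fun _ => 0, fun _ _ _ _ _ => rfl, fun _ _ _ _ => by simp⟩
  bip := fun _ _ _ _ h => h.elim
  ne := ⟨(), by simp⟩

lemma nr_point (D : ℕ) : Nr D D 0 := by
  refine ⟨Unit, point, by simp [point], fun v _ => ?_⟩
  have : point.deg v = 0 := point.cnt_zero v (fun _ _ h => h.elim)
  rw [this]; simp

/-- One edge. -/
def edge : UG Bool where
  s := Finset.univ
  adj := fun a b => a ≠ b
  col := id
  real := ⟨fun a => if a then 1 else 0, by
    intro a _ b _ h
    cases a <;> cases b <;> simp at h ⊢, by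
    intro a _ b _
    cases a <;> cases b <;> simp⟩
  bip := fun _ _ _ _ h => h
  ne := Finset.univ_nonempty

lemma rainbow (j : ℕ) : ∃ (V : Type) (W : UG V) (l : V → ZMod (2 ^ j)), W.s.card ≤ 2 ^ (2 ^ j) ∧
    ∀ w ∈ W.s, ∀ c, W.cnt w (fun w' => l w' = c) = 1 := by
  induction j with
  | zero =>
    refine ⟨Bool, edge, fun _ => 0, by simp [edge], fun w _ c => ?_⟩
    have hc : (0 : ZMod (2 ^ 0)) = c := by
      have : Subsingleton (ZMod (2 ^ 0)) := ZMod.subsingleton_iff.2 (by norm_num)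
      exact Subsingleton.elim _ _
    unfold UG.cnt
    rw [Finset.card_eq_one]
    refine ⟨!w, ?_⟩
    ext b
    cases w <;> cases b <;> simp [edge, hc]
  | succ j ih =>
    obtain ⟨V, W, l, hc, hl⟩ := ih
    have e : ZMod (2 ^ j) × Bool ≃ ZMod (2 ^ (j + 1)) :=
      Fintype.equivOfCardEq (by simp [pow_succ])
    refine ⟨V × V, W.prod W, fun a => e (l a.1 + l a.2, W.col a.2), ?_, ?_⟩
    · rw [UG.card_prod, pow_succ, pow_mul, sq]
      gcongr
    · rintro ⟨x, y⟩ hxy c'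
      rw [UG.mem_prod] at hxy
      obtain ⟨⟨c, b⟩, rfl⟩ := e.surjective c'
      rw [UG.prod_cnt W W x hxy.1 y hxy.2]
      simp only [EmbeddingLike.apply_eq_iff_eq, Prod.mk.injEq]
      by_cases hb : W.col y = b
      · rw [W.cnt_zero y, W.cnt_congr x (q := fun x' => l x' = c - l y), hl x hxy.1]
        · intro x' _ _
          rw [eq_sub_iff_add_eq]; simp [hb]
        · rintro y' hy' hadj ⟨-, h⟩
          exact W.bip y hxy.2 y' hy' hadj (hb.trans h.symm)
      · rw [W.cnt_zero x, W.cnt_congr y (q := fun y' => l y' = c - l x), hl y hxy.2]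
        · intro y' hy' hadj
          have := W.bip y hxy.2 y' hy' hadj
          have h' : W.col y' = b := by
            revert this hb; cases W.col y' <;> cases W.col y <;> cases b <;> simp
          rw [eq_sub_iff_add_eq, add_comm]; simp [h']
        · rintro x' _ _ ⟨-, h⟩
          exact hb h

lemma cnt_labels {V Λ : Type} (W : UG V) (l : V → Λ) (w : V)
    (h : ∀ c, W.cnt w (fun w' => l w' = c) = 1) (L : Finset Λ) :
    W.cnt w (fun w' => l w' ∈ L) = L.card := by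
  unfold UG.cnt at h ⊢
  rw [Finset.card_eq_sum_card_fiberwise (f := l) (t := L)]
  · rw [Finset.card_eq_sum_ones L]
    apply Finset.sum_congr rfl
    intro c hc
    rw [← h c]
    congr 1
    ext b
    simp only [Finset.mem_filter]
    constructor
    · tauto
    · rintro ⟨h1, h2, h3⟩
      exact ⟨⟨h1, h2, h3 ▸ hc⟩, h3⟩
  · intro b hb
    simp only [Finset.coe_filter, Set.mem_ofPred_eq] at hb
    exact hb.2.2

/-- The labels of colour `c` below `δ`. -/
def lab (s : ℕ) (c : Bool) (δ : ℕ) : Finset (Bool × Fin s) :=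
  Finset.univ.filter (fun a => a.1 = c ∧ a.2.val < δ)

lemma card_lab {s δ : ℕ} (c : Bool) (h : δ ≤ s) : (lab s c δ).card = δ := by
  have : lab s c δ = (Finset.univ.filter (fun a : Fin s => a.val < δ)).map
      ⟨fun a => (c, a), fun a b h => (Prod.mk.inj h).2⟩ := by
    ext ⟨b, a⟩
    simp only [lab, Finset.mem_filter, Finset.mem_univ, true_and, Finset.mem_map,
      Function.Embedding.coeFn_mk, Prod.mk.injEq]
    constructor
    · rintro ⟨rfl, h⟩; exact ⟨a, h, rfl, rfl⟩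
    · rintro ⟨a', h, rfl, rfl⟩; exact ⟨rfl, h⟩
  rw [this, Finset.card_map, Fin.card_filter_val_lt]
  omega

lemma def_le {D s : ℕ} {σ : ℝ} {a : ℕ} (h1 : a ≤ D) (h2 : (D : ℝ) - a ≤ σ) (hs : σ < s + 1) :
    D - a ≤ s := by
  have : ((D - a : ℕ) : ℝ) < s + 1 := by rw [Nat.cast_sub h1]; linarith
  have : D - a < s + 1 := by exact_mod_cast this
  omega

/-- The exact last step. -/
theorem finish {D g s j : ℕ} {σ : ℝ} (h : Nr D σ g) (hs : σ < s + 1) (hj : 2 * s ≤ 2 ^ j) :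
    ∃ (V : Type) (G : UG V), G.s.card ≤ 2 ^ (2 * g + 2 ^ j) ∧ ∀ v ∈ G.s, G.deg v = D := by
  obtain ⟨V, G, hc, hd⟩ := h
  obtain ⟨V', W, l, hc', hl⟩ := rainbow j
  obtain ⟨ι⟩ : Nonempty (Bool × Fin s ↪ ZMod (2 ^ j)) :=
    Function.Embedding.nonempty_of_card_le (by simpa using hj)
  obtain ⟨U, S, h1, h2⟩ := link G W (fun x w => l w ∈ (lab s (G.col x) (D - G.deg x)).map ι) (by
    intro x hx x' hx' hadj w _ h1 h2
    obtain ⟨a, ha, ha'⟩ := Finset.mem_map.1 h1
    obtain ⟨b, hb, hb'⟩ := Finset.mem_map.1 h2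
    obtain rfl := ι.injective (ha'.trans hb'.symm)
    exact G.bip x hx x' hx' hadj
      ((Finset.mem_filter.1 ha).2.1.symm.trans (Finset.mem_filter.1 hb).2.1))
  refine ⟨U, S, h1.trans ?_, fun v hv => ?_⟩
  · rw [pow_add, mul_comm 2 g, pow_mul]
    gcongr
  · obtain ⟨x, hx, w, hw, e⟩ := h2 v hv
    rw [e, cnt_labels W l w (hl w hw), Finset.card_map,
      card_lab _ (def_le (hd x hx).1 (hd x hx).2 hs)]
    have := (hd x hx).1
    omega

lemma tail_small {n g : ℕ} {μ Γ l : ℝ} (hn : n ≤ 2 ^ g) (hμ : 0 < μ) (hΓ : (g : ℝ) + 1 ≤ Γ)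
    (hl : 4 * μ * Γ ≤ l ^ 2) : 2 * (n : ℝ) * Real.exp (-(l ^ 2 / (4 * μ))) < 1 := by
  have h1 : (g : ℝ) + 1 ≤ l ^ 2 / (4 * μ) := by
    rw [le_div_iff₀ (by positivity)]; nlinarith
  have h2 : (2 : ℝ) ^ (g + 1) < Real.exp ((g : ℝ) + 1) := by
    have : Real.exp ((g : ℝ) + 1) = Real.exp 1 ^ (g + 1) := by
      rw [← Real.exp_nat_mul]; push_cast; ring_nf
    rw [this]
    apply pow_lt_pow_left₀ _ (by norm_num) (by omega)
    have := Real.add_one_lt_exp (x := 1) (by norm_num)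
    linarith
  have h3 : 2 * (n : ℝ) ≤ 2 ^ (g + 1) := by
    have : (n : ℝ) ≤ 2 ^ g := by exact_mod_cast hn
    rw [pow_succ]; linarith
  rw [Real.exp_neg, ← div_eq_mul_inv, div_lt_one (Real.exp_pos _)]
  calc 2 * (n : ℝ) ≤ 2 ^ (g + 1) := h3
    _ < Real.exp ((g : ℝ) + 1) := h2
    _ ≤ _ := Real.exp_le_exp.2 h1

lemma cnt_eq_filter {V : Type} (W : UG V) (w : V) (p : V → Prop) {i : DecidablePred p} :
    (@Finset.filter _ p i (W.s.filter (W.adj w))).card = W.cnt w p := by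
  unfold UG.cnt
  congr 1
  ext b
  simp only [Finset.mem_filter, and_assoc]

lemma deg_eq {V : Type} (W : UG V) (w : V) : W.deg w = (W.s.filter (W.adj w)).card := by
  unfold UG.deg UG.cnt
  simp

/-- The improvement step. -/
theorem improve {D g g' s κ : ℕ} {σ σ' Γ : ℝ} (h : Nr D σ g) (hs : σ < s + 1) (hσ : σ ≤ s)
    (h' : Nr (2 * s) σ' g') (hκ : s + 1 ≤ 2 ^ κ) (hΓ : (g' : ℝ) + κ + 2 ≤ Γ) :
    Nr D (σ' / 2 + 4 * Real.sqrt (s * Γ) + 2) (2 * g + g') := by
  have hσ' := h'.nonneg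
  have hΓ0 : 0 ≤ Γ := le_trans (by positivity) hΓ
  set l : ℕ := ⌈2 * Real.sqrt (s * Γ)⌉₊ with hl
  have hl1 : 2 * Real.sqrt (s * Γ) ≤ l := Nat.le_ceil _
  have hl2 : (l : ℝ) < 2 * Real.sqrt (s * Γ) + 1 := Nat.ceil_lt_add_one (by positivity)
  by_cases hbig : s ≤ 2 * l
  · refine h.mono ?_ (by omega)
    have : (s : ℝ) ≤ 2 * l := by exact_mod_cast hbig
    linarith
  have hs0 : 0 < s := by omega
  have hsr : (0 : ℝ) < s := by exact_mod_cast hs0
  have hΓ1 : 0 < Γ := lt_of_lt_of_le (by positivity) hΓ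
  have hl0 : (0 : ℝ) < l := lt_of_lt_of_le (by positivity) hl1
  obtain ⟨V, G, hc, hd⟩ := h
  obtain ⟨V', W, hc', hd'⟩ := h'
  have : Nonempty (Bool × Fin s) := ⟨(true, ⟨0, hs0⟩)⟩
  have hcard : (Fintype.card (Bool × Fin s) : ℝ) = 2 * s := by simp
  obtain ⟨φ, hφ⟩ := exists_label (Λ := Bool × Fin s) W.s
    (W.s ×ˢ ((Finset.univ : Finset Bool) ×ˢ Finset.range (s + 1)))
    (fun i => W.s.filter (W.adj i.1)) (fun i _ => Finset.filter_subset _ _)
    (fun i => lab s i.2.1 i.2.2) s l hl0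
    (by have : l ≤ 2 * s := by omega
        exact_mod_cast this)
    (by
      rintro ⟨w, c, δ⟩ hi
      simp only [Finset.mem_product, Finset.mem_univ, Finset.mem_range, true_and] at hi
      simp only
      rw [card_lab c (by omega), hcard, ← deg_eq]
      have a1 : (W.deg w : ℝ) ≤ 2 * s := by exact_mod_cast (hd' w hi.1).1
      have a2 : (δ : ℝ) ≤ s := by exact_mod_cast (by omega : δ ≤ s)
      calc (W.deg w : ℝ) * (δ / (2 * s)) ≤ (2 * s) * (s / (2 * s)) := by gcongr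
        _ = s := by field_simp)
    (by
      apply tail_small (g := g' + κ + 1) (Γ := Γ) _ hsr
      · push_cast; linarith
      · have : (2 * Real.sqrt (s * Γ)) ^ 2 ≤ (l : ℝ) ^ 2 := by gcongr
        rw [mul_pow, Real.sq_sqrt (by positivity)] at this
        linarith
      · simp only [Finset.card_product, Finset.card_univ, Fintype.card_bool, Finset.card_range]
        calc W.s.card * (2 * (s + 1)) ≤ 2 ^ g' * (2 * 2 ^ κ) := by gcongr
          _ = _ := by ring)
  obtain ⟨U, S, h1, h2⟩ := link G W (fun x w => φ w ∈ lab s (G.col x) (D - G.deg x - l)) (by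
    intro x hx x' hx' hadj w _ h1 h2
    exact G.bip x hx x' hx' hadj
      ((Finset.mem_filter.1 h1).2.1.symm.trans (Finset.mem_filter.1 h2).2.1))
  refine ⟨U, S, h1.trans ?_, fun v hv => ?_⟩
  · rw [pow_add, mul_comm 2 g, pow_mul]
    gcongr
  · obtain ⟨x, hx, w, hw, e⟩ := h2 v hv
    have b1 := (hd x hx).1
    have b2 := def_le (hd x hx).1 (hd x hx).2 hs
    set δ : ℕ := D - G.deg x - l with hδ
    have b3 := hφ (w, G.col x, δ) (by
      simp only [Finset.mem_product, Finset.mem_univ, Finset.mem_range, true_and]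
      exact ⟨hw, by omega⟩)
    simp only at b3
    rw [card_lab _ (by omega), hcard, ← deg_eq, cnt_eq_filter, abs_le] at b3
    have a1 : (W.deg w : ℝ) ≤ 2 * s := by exact_mod_cast (hd' w hw).1
    have a2 : (δ : ℝ) ≤ s := by exact_mod_cast (by omega : δ ≤ s)
    have a3 := (hd' w hw).2
    push_cast at a3
    have a4 : (W.deg w : ℝ) * (δ / (2 * s)) ≤ δ := by
      calc (W.deg w : ℝ) * (δ / (2 * s)) ≤ (2 * s) * (δ / (2 * s)) := by gcongr
        _ = δ := by field_simp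
    have a5 : δ - σ' / 2 ≤ (W.deg w : ℝ) * (δ / (2 * s)) := by
      have c1 : (2 * s - σ') * (δ / (2 * s)) ≤ (W.deg w : ℝ) * (δ / (2 * s)) := by
        gcongr; linarith
      have c2 : (2 * s - σ') * (δ / (2 * s)) = δ - σ' * (δ / (2 * s)) := by field_simp
      have c3 : (δ : ℝ) / (2 * s) ≤ 1 / 2 := by
        rw [div_le_div_iff₀ (by positivity) (by positivity)]; linarith
      nlinarith
    rw [e]
    constructor
    · by_cases hδ0 : δ = 0
      · rw [W.cnt_zero w]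
        · omega
        · intro b _ _ hb
          have := (Finset.mem_filter.1 hb).2.2
          omega
      · have : (W.cnt w (fun w => φ w ∈ lab s (G.col x) δ) : ℝ) ≤ δ + l := by linarith [b3.2]
        have : W.cnt w (fun w => φ w ∈ lab s (G.col x) δ) ≤ δ + l := by exact_mod_cast this
        omega
    · have c4 : (D : ℝ) ≤ G.deg x + δ + l := by exact_mod_cast (by omega : D ≤ G.deg x + δ + l)
      push_cast
      linarith [b3.1]

/-- The starting step: a random subset of the lattice section. -/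
theorem start {D t : ℕ} {Γ : ℝ} (hD : D ≤ 2 ^ t)
    (hΓ : ((2 * (t * (4 * t + 1)) + 4 : ℕ) : ℝ) + 1 ≤ Γ) :
    Nr D (3 / 4 * D + (4 * Real.sqrt Γ + 2) * Real.sqrt D) (2 * (t * (4 * t + 1)) + 4) := by
  have hΓ1 : 0 < Γ := lt_of_lt_of_le (by positivity) hΓ
  rcases Nat.eq_zero_or_pos D with rfl | hD0
  · exact (nr_point 0).mono (by simp) (by omega)
  have hDr : (1 : ℝ) ≤ D := by exact_mod_cast hD0
  have hD1 : 1 ≤ Real.sqrt D := Real.one_le_sqrt.2 hDr
  set l : ℕ := ⌈2 * Real.sqrt (D * Γ)⌉₊ with hl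
  have hl1 : 2 * Real.sqrt (D * Γ) ≤ l := Nat.le_ceil _
  have hl2 : (l : ℝ) < 2 * Real.sqrt (D * Γ) + 1 := Nat.ceil_lt_add_one (by positivity)
  have hl3 : 5 / 4 * (l : ℝ) ≤ (4 * Real.sqrt Γ + 2) * Real.sqrt D := by
    rw [Real.sqrt_mul (by positivity)] at hl2
    have := Real.sqrt_nonneg Γ
    nlinarith
  by_cases hbig : D ≤ 5 * l
  · refine (nr_point D).mono ?_ (by omega)
    have : (D : ℝ) ≤ 5 * l := by exact_mod_cast hbig
    linarith
  have hl0 : (0 : ℝ) < l := lt_of_lt_of_le (by positivity) hl1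
  obtain ⟨G, q, hq, hc, hd⟩ := base_lattice t
  have hq0 : 0 < 4 * q := by omega
  have hqr : (0 : ℝ) < q := by exact_mod_cast (by omega : 0 < q)
  have : Nonempty (Fin (4 * q)) := ⟨⟨0, hq0⟩⟩
  have hcard : (Fintype.card (Fin (4 * q)) : ℝ) = 4 * q := by simp
  let L : Finset (Fin (4 * q)) := Finset.univ.filter (fun a => a.val < D - l)
  have hL : (L.card : ℝ) = D - l := by
    simp only [L]
    rw [Fin.card_filter_val_lt, min_eq_right (by omega), Nat.cast_sub (by omega)]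
  have hlD : (l : ℝ) ≤ D := by exact_mod_cast (by omega : l ≤ D)
  have hup : ∀ w ∈ G.s, (G.deg w : ℝ) * ((D - l) / (4 * q)) ≤ D - l := by
    intro w hw
    have a1 : (G.deg w : ℝ) ≤ 4 * q := by exact_mod_cast (hd w hw).2
    have : (0 : ℝ) ≤ D - l := by linarith
    calc (G.deg w : ℝ) * ((D - l) / (4 * q)) ≤ (4 * q) * ((D - l) / (4 * q)) := by gcongr
      _ = D - l := by field_simp
  have hlow : ∀ w ∈ G.s, (D - l) / 4 ≤ (G.deg w : ℝ) * ((D - l) / (4 * q)) := by
    intro w hw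
    have a1 : (q : ℝ) ≤ G.deg w := by exact_mod_cast (hd w hw).1
    have : (0 : ℝ) ≤ D - l := by linarith
    calc ((D : ℝ) - l) / 4 = q * ((D - l) / (4 * q)) := by field_simp
      _ ≤ _ := by gcongr
  obtain ⟨φ, hφ⟩ := exists_label (Λ := Fin (4 * q)) G.s G.s
    (fun i => G.s.filter (G.adj i)) (fun i _ => Finset.filter_subset _ _)
    (fun _ => L) D l hl0 (by linarith)
    (by
      intro w hw
      rw [hL, hcard, ← deg_eq]
      linarith [hup w hw])
    (by
      apply tail_small (Γ := Γ) hc (by linarith) hΓ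
      have : (2 * Real.sqrt (D * Γ)) ^ 2 ≤ (l : ℝ) ^ 2 := by gcongr
      rw [mul_pow, Real.sq_sqrt (by positivity)] at this
      linarith)
  have hb : ∀ w ∈ G.s, (G.cnt w (fun v => φ v ∈ L) : ℝ) ≤ D ∧
      (D - l) / 4 - l ≤ (G.cnt w (fun v => φ v ∈ L) : ℝ) := by
    intro w hw
    have b3 := hφ w hw
    rw [hL, hcard, ← deg_eq, cnt_eq_filter, abs_le] at b3
    constructor <;> linarith [hup w hw, hlow w hw, b3.1, b3.2]
  have hne : ∃ v ∈ G.s, φ v ∈ L := by
    by_contra hcon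
    obtain ⟨w, hw⟩ := G.ne
    have h0 := (hb w hw).2
    rw [G.cnt_zero w (fun b hb _ h => hcon ⟨b, hb, h⟩)] at h0
    have : (5 * l : ℝ) < D := by exact_mod_cast (by omega : 5 * l < D)
    push_cast at h0
    linarith
  refine ⟨_, G.sub (fun v => φ v ∈ L) hne, (UG.card_sub _ _ _).trans hc, fun v hv => ?_⟩
  rw [UG.mem_sub] at hv
  rw [UG.sub_deg]
  refine ⟨by exact_mod_cast (hb v hv.1).1, ?_⟩
  linarith [(hb v hv.1).2]

end Pool.Agent.P.MP_44bffd_co
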